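import Pool.Agent.helper31.EQ.W.DataB

/-!
# Assembly of the W scheme with explicit node 1: records

`Tail e κ θt`: everything about the links `n ≥ 2` (one region `Ω` for all positions);
`HP`: the strict pointwise conditions at a start parameter `p`;
`RS`: the slope condition at a start parameter `p`.
-/

namespace Pool.Agent.helper63.EQC

open Set Metric Filter Topology Complex Pool.Agent.helper31.EQ.W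
open scoped ComplexConjugate

/-- Everything about the links `n ≥ 2`. -/
structure Tail (e κ θt : ℝ) where
  Ω : Set ℂ
  isOpen_Ω : IsOpen Ω
  r : ℂ → ℂ
  M : ℂ → ℂ → ℂ → ℂ
  r_diff : ∀ Y ∈ Ω, DifferentiableAt ℂ r Y
  M_diff : ∀ Y ∈ Ω, ∀ x x' : ℂ, ‖x‖ ≤ 1 → ‖x'‖ ≤ 1 →
    DifferentiableAt ℂ (fun q : ℂ × ℂ × ℂ => M q.1 q.2.1 q.2.2)
      (nxt κ Y (r Y * x), r Y * x, r (nxt κ Y (r Y * x)) * x')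
  r_ne : ∀ Y ∈ Ω, r Y ≠ 0
  M_ne : ∀ Y ∈ Ω, ∀ x x' : ℂ, ‖x‖ ≤ 1 → ‖x'‖ ≤ 1 →
    M (nxt κ Y (r Y * x)) (r Y * x) (r (nxt κ Y (r Y * x)) * x') ≠ 0
  r_real : ∀ Y : ℝ, (Y : ℂ) ∈ Ω → (r Y).im = 0
  M_real : ∀ Y : ℝ, (Y : ℂ) ∈ Ω → ∀ x x' : ℝ, |x| ≤ 1 → |x'| ≤ 1 →
    (M (nxt κ Y (r Y * x)) (r Y * x) (r (nxt κ Y (r Y * x)) * x')).im = 0
  conj_mem : ∀ Y ∈ Ω, conj Y ∈ Ω
  r_conj : ∀ Y ∈ Ω, r (conj Y) = conj (r Y)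
  inv : ∀ Y ∈ Ω, ∀ x : ℂ, ‖x‖ ≤ 1 → nxt κ Y (r Y * x) ∈ Ω
  den_ne : ∀ Y ∈ Ω, 2 * (Real.cosh κ : ℂ) - Y ≠ 0
  one_sub_ne : ∀ Y ∈ Ω, ∀ x : ℂ, ‖x‖ ≤ 1 → 1 - r Y * x ≠ 0
  w_slit : ∀ Y ∈ Ω, ∀ x : ℂ, ‖x‖ ≤ 1 → wn κ Y (r Y * x) ∈ slitPlane
  w_norm : ∀ Y ∈ Ω, ∀ x : ℂ, ‖x‖ ≤ 1 → 1 < ‖wn κ Y (r Y * x)‖
  close : ∀ Y ∈ Ω, ∀ x x' : ℂ, ‖x‖ ≤ 1 → ‖x'‖ ≤ 1 →
    ‖r Y * x - M (nxt κ Y (r Y * x)) (r Y * x) (r (nxt κ Y (r Y * x)) * x') *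
      FW e κ (nxt κ Y (r Y * x)) (r Y * x) (r (nxt κ Y (r Y * x)) * x')‖ ≤ θt * ‖r Y‖
  lam : ℝ
  hlam0 : 0 ≤ lam
  hlam1 : lam < 1
  contr : ∀ Y : ℝ, (Y : ℂ) ∈ Ω → ∀ x : ℝ, |x| ≤ 1 →
    |(nxt κ Y (r Y * x)).re - Real.exp (-κ)| ≤ lam * |Y - Real.exp (-κ)|
  B : ℝ
  r_le : ∀ Y : ℝ, (Y : ℂ) ∈ Ω → ‖r Y‖ ≤ B * |Y - Real.exp (-κ)|

/-- The functions of the head: `w 1 = c1 p + r1 p x 0`, preconditioner `(h p)⁻¹`. -/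
structure HeadFn where
  c1 : ℂ → ℂ
  r1 : ℂ → ℂ
  h : ℂ → ℂ
  c1_diff : Differentiable ℂ c1
  r1_diff : Differentiable ℂ r1
  h_diff : Differentiable ℂ h
  c1_conj : ∀ p, c1 (conj p) = conj (c1 p)
  r1_conj : ∀ p, r1 (conj p) = conj (r1 p)
  h_conj : ∀ p, h (conj p) = conj (h p)

/-- Pointwise strict conditions at the start parameter `p`. -/
structure HP (e κ θ : ℝ) (Ω : Set ℂ) (r : ℂ → ℂ) (H : HeadFn) (p : ℂ) : Prop where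
  cosh_slit : cosh (e * p / 2) ∈ slitPlane
  r1_ne : H.r1 p ≠ 0
  h_ne : H.h p ≠ 0
  w_slit : ∀ x0 : ℂ, ‖x0‖ ≤ 1 → H.c1 p + H.r1 p * x0 ∈ slitPlane
  w_norm : ∀ x0 : ℂ, ‖x0‖ ≤ 1 → 1 < ‖H.c1 p + H.r1 p * x0‖
  mem : ∀ x0 : ℂ, ‖x0‖ ≤ 1 → Y1B e κ p (H.c1 p + H.r1 p * x0) ∈ Ω
  close : ∀ x0 x1 : ℂ, ‖x0‖ ≤ 1 → ‖x1‖ ≤ 1 →
    ‖H.r1 p * x0 - (H.h p)⁻¹ * FW e κ (Y1B e κ p (H.c1 p + H.r1 p * x0))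
      (d1B e κ p (H.c1 p + H.r1 p * x0)) (r (Y1B e κ p (H.c1 p + H.r1 p * x0)) * x1)‖ <
      θ * ‖H.r1 p‖

/-- The slope condition at the start parameter `p`. -/
def RS (e κ : ℝ) (H : HeadFn) (p : ℂ) : Prop :=
  ∀ x0 : ℂ, ‖x0‖ ≤ 1 →
    ‖2 * sinh (p / 2) - exp (p / 2) * d0B e κ p (H.c1 p + H.r1 p * x0)‖ *
      ‖cosh (e * p / 2)‖ ^ (1 / e) < 2 * Real.sinh (κ / 2) * Real.cosh (e * κ / 2) ^ (1 / e)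

/-- Positions of the links `≥ 1` started at `Y`. -/
noncomputable def tpos (κ : ℝ) (r : ℂ → ℂ) (x : ℕ → ℂ) (Y : ℂ) : ℕ → ℂ
  | 0 => Y
  | n + 1 => nxt κ (tpos κ r x Y n) (r (tpos κ r x Y n) * x n)

/-- The laws of all links `≥ 2` for the tail started at `Y`. -/
def TFix (e κ : ℝ) (r : ℂ → ℂ) (Y : ℂ) (x : ℕ → ℂ) : Prop :=
  (∀ n, ‖x n‖ ≤ 1) ∧ ∀ n, FW e κ (tpos κ r x Y (n + 1)) (r (tpos κ r x Y n) * x n)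
    (r (tpos κ r x Y (n + 1)) * x (n + 1)) = 0

/-- `w 1` solves the law of link 1 for the first deviation of a solution of the tail. -/
def Sol (e κ : ℝ) (r : ℂ → ℂ) (H : HeadFn) (p x0 : ℂ) : Prop :=
  ‖x0‖ ≤ 1 ∧ ∃ x : ℕ → ℂ, TFix e κ r (Y1B e κ p (H.c1 p + H.r1 p * x0)) x ∧
    FW e κ (Y1B e κ p (H.c1 p + H.r1 p * x0)) (d1B e κ p (H.c1 p + H.r1 p * x0))
      (r (Y1B e κ p (H.c1 p + H.r1 p * x0)) * x 0) = 0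

end Pool.Agent.helper63.EQC
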