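import Pool.Agent.helper63.EQC.AsmDefs

/-!
# The sup argument for the tail

A closing inequality for all radii between `ρ0` and `1` on an invariant region bounds all deviations
of a tail solution by `ρ0`.
-/

namespace Pool.Agent.helper63.EQC

open Set Metric Filter Topology Complex Pool.Agent.helper31.EQ.W
open scoped ComplexConjugate

variable {e κ : ℝ}

theorem tpos_mem {r : ℂ → ℂ} {Ω' : Set ℂ}
    (inv : ∀ Y ∈ Ω', ∀ x : ℂ, ‖x‖ ≤ 1 → nxt κ Y (r Y * x) ∈ Ω')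
    {Y : ℂ} (hY : Y ∈ Ω') {x : ℕ → ℂ} (hx : ∀ n, ‖x n‖ ≤ 1) (n : ℕ) : tpos κ r x Y n ∈ Ω' := by
  induction n with
  | zero => exact hY
  | succ n ih => exact inv _ ih _ (hx n)

theorem small_of_close {r : ℂ → ℂ} {M : ℂ → ℂ → ℂ → ℂ} {Ω' : Set ℂ} {ρ0 θ' : ℝ} (hρ0 : 0 ≤ ρ0)
    (hθ' : θ' < 1) (hr : ∀ Y ∈ Ω', r Y ≠ 0)
    (inv : ∀ Y ∈ Ω', ∀ x : ℂ, ‖x‖ ≤ 1 → nxt κ Y (r Y * x) ∈ Ω')
    (close : ∀ ρ : ℝ, ρ0 ≤ ρ → ρ ≤ 1 → ∀ Y ∈ Ω', ∀ x x' : ℂ, ‖x‖ ≤ ρ → ‖x'‖ ≤ ρ →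
      ‖r Y * x - M (nxt κ Y (r Y * x)) (r Y * x) (r (nxt κ Y (r Y * x)) * x') *
        FW e κ (nxt κ Y (r Y * x)) (r Y * x) (r (nxt κ Y (r Y * x)) * x')‖ ≤ θ' * ρ * ‖r Y‖)
    {Y : ℂ} (hY : Y ∈ Ω') {x : ℕ → ℂ} (hx : TFix e κ r Y x) (n : ℕ) : ‖x n‖ ≤ ρ0 := by
  by_contra hcon
  push Not at hcon
  have hbdd : BddAbove (Set.range fun n => ‖x n‖) := ⟨1, by rintro _ ⟨m, rfl⟩; exact hx.1 m⟩
  set s := ⨆ n, ‖x n‖ with hs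
  have h1 : ∀ m, ‖x m‖ ≤ s := fun m => le_ciSup hbdd m
  have h2 : s ≤ 1 := ciSup_le hx.1
  have h3 : ρ0 < s := hcon.trans_le (h1 n)
  have h4 : ∀ m, ‖x m‖ ≤ θ' * s := by
    intro m
    have hm := tpos_mem inv hY hx.1 m
    have h5 := close s h3.le h2 _ hm (x m) (x (m + 1)) (h1 _) (h1 _)
    have h6 := hx.2 m
    simp only [tpos] at h6
    rw [h6, mul_zero, sub_zero, norm_mul, mul_comm] at h5
    exact le_of_mul_le_mul_right h5 (norm_pos_iff.2 (hr _ hm))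
  have h5 : s ≤ θ' * s := ciSup_le h4
  have h6 : 0 < s := hρ0.trans_lt h3
  nlinarith

/-- the same with the radius split off: `F ρ = A / ρ + B + D ρ` type closings need only be checked
at the two ends when the bound is convex -/
theorem convex_close {A B D ρ0 ρ θ' : ℝ} (hA : 0 ≤ A) (hD : 0 ≤ D) (hρ0 : 0 < ρ0) (h0 : ρ0 ≤ ρ)
    (h1 : ρ ≤ 1) (h : A / ρ0 + B + D ≤ θ') : A + B * ρ + D * ρ ^ 2 ≤ θ' * ρ := by
  have hρ : 0 < ρ := hρ0.trans_le h0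
  have h2 : A ≤ A / ρ0 * ρ := by
    rw [div_mul_eq_mul_div, le_div_iff₀ hρ0]
    exact mul_le_mul_of_nonneg_left h0 hA
  have h3 : D * ρ ^ 2 ≤ D * ρ := by
    have : ρ ^ 2 ≤ ρ := by nlinarith
    exact mul_le_mul_of_nonneg_left this hD
  nlinarith

end Pool.Agent.helper63.EQC
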