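import Pool.Agent.helper63.EQC.AsmDefs

/-!
# Assembly: complex conjugation
-/

namespace Pool.Agent.helper63.EQC

open Set Metric Filter Topology Complex Pool.Agent.helper31.EQ.W
open scoped ComplexConjugate

theorem half_slit {z : ℂ} (h : ‖z‖ < 1) : (1 + z) / 2 ∈ slitPlane := by
  rw [Complex.mem_slitPlane_iff]
  left
  have h4 := (abs_lt.1 ((Complex.abs_re_le_norm z).trans_lt h)).1
  have h5 : ((1 + z) / 2).re = (1 + z.re) / 2 := by
    have : (1 + z) / 2 = (1 + z) / ((2 : ℝ) : ℂ) := by push_cast; rfl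
    rw [this, Complex.div_ofReal_re, Complex.add_re, Complex.one_re]
  rw [h5]
  linarith

theorem cpow_conj' {x : ℂ} (hx : x ∈ slitPlane) (t : ℝ) :
    (conj x) ^ (t : ℂ) = conj (x ^ (t : ℂ)) := by
  rw [Complex.conj_cpow _ _ (Complex.slitPlane_arg_ne_pi hx), Complex.conj_ofReal]

theorem conj_slit {x : ℂ} (hx : x ∈ slitPlane) : conj x ∈ slitPlane := by
  rw [Complex.mem_slitPlane_iff] at hx ⊢
  rcases hx with h | h
  · left; simpa using h
  · right; simpa using h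

theorem conj2 : (starRingEnd ℂ) (2 : ℂ) = 2 := map_ofNat _ 2

theorem gl_conj {e : ℝ} (he : 0 < e) {w : ℂ} (h : w ∈ slitPlane) (h1 : 1 < ‖w‖) :
    gl e (conj w) = conj (gl e w) := by
  have e1 : (-(e : ℂ)) = ((-e : ℝ) : ℂ) := by push_cast; rfl
  have h2 : ‖w ^ ((-e : ℝ) : ℂ)‖ < 1 := by
    rw [Complex.norm_cpow_real]
    exact Real.rpow_lt_one_of_one_lt_of_neg h1 (by linarith)
  have h3 := half_slit h2
  have e2 : (-((2 / e : ℝ) : ℂ)) = ((-(2 / e) : ℝ) : ℂ) := by push_cast; rfl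
  unfold gl
  rw [e2, e1]
  rw [cpow_conj' h]
  have e3 : (1 + conj (w ^ ((-e : ℝ) : ℂ))) / 2 = conj ((1 + w ^ ((-e : ℝ) : ℂ)) / 2) := by
    rw [map_div₀, map_add, map_one, conj2]
  rw [e3, cpow_conj' h3]

theorem gs_conj {e : ℝ} (he : 0 < e) {y : ℂ} (h : y ∈ slitPlane) (h1 : ‖y‖ < 1) :
    gs e (conj y) = conj (gs e y) := by
  have h2 : ‖y ^ (e : ℂ)‖ < 1 := by
    rw [Complex.norm_cpow_real]
    exact Real.rpow_lt_one (norm_nonneg _) h1 he
  have h3 := half_slit h2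
  have e2 : (-((2 / e : ℝ) : ℂ)) = ((-(2 / e) : ℝ) : ℂ) := by push_cast; rfl
  unfold gs
  rw [e2, cpow_conj' h]
  have e3 : (1 + conj (y ^ (e : ℂ))) / 2 = conj ((1 + y ^ (e : ℂ)) / 2) := by
    rw [map_div₀, map_add, map_one, conj2]
  rw [e3, cpow_conj' h3, map_mul, map_pow]

theorem cosh_conj' (e : ℝ) (p : ℂ) : cosh (e * conj p / 2) = conj (cosh (e * p / 2)) := by
  have : (e : ℂ) * conj p / 2 = conj ((e : ℂ) * p / 2) := by
    rw [map_div₀, map_mul, Complex.conj_ofReal, conj2]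
  rw [this, Complex.cosh_conj]

theorem gp_conj {e : ℝ} {p : ℂ} (h : cosh (e * p / 2) ∈ slitPlane) :
    gp e (conj p) = conj (gp e p) := by
  have e2 : (-((2 / e : ℝ) : ℂ)) = ((-(2 / e) : ℝ) : ℂ) := by push_cast; rfl
  unfold gp
  rw [e2, cosh_conj', cpow_conj' h, map_mul, ← Complex.exp_conj, map_neg]

theorem z0B_conj {e κ : ℝ} (he : 0 < e) {p w : ℂ} (hp : cosh (e * p / 2) ∈ slitPlane)
    (hw : w ∈ slitPlane) (h1 : 1 < ‖w‖) : z0B e κ (conj p) (conj w) = conj (z0B e κ p w) := by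
  unfold z0B
  rw [gl_conj he hw h1, gp_conj hp, map_div₀, map_sub, map_mul, map_mul, Complex.conj_ofReal, conj2]

theorem d0B_conj {e κ : ℝ} (he : 0 < e) {p w : ℂ} (hp : cosh (e * p / 2) ∈ slitPlane)
    (hw : w ∈ slitPlane) (h1 : 1 < ‖w‖) : d0B e κ (conj p) (conj w) = conj (d0B e κ p w) := by
  unfold d0B
  rw [z0B_conj he hp hw h1, map_sub, map_sub, ← Complex.exp_conj, map_neg, Complex.conj_ofReal]

theorem d1B_conj {e κ : ℝ} (he : 0 < e) {p w : ℂ} (hp : cosh (e * p / 2) ∈ slitPlane)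
    (hw : w ∈ slitPlane) (h1 : 1 < ‖w‖) : d1B e κ (conj p) (conj w) = conj (d1B e κ p w) := by
  unfold d1B
  rw [z0B_conj he hp hw h1, map_sub, map_one, map_div₀, map_add, Complex.conj_ofReal]

theorem Y1B_conj {e κ : ℝ} (he : 0 < e) {p w : ℂ} (hp : cosh (e * p / 2) ∈ slitPlane)
    (hw : w ∈ slitPlane) (h1 : 1 < ‖w‖) : Y1B e κ (conj p) (conj w) = conj (Y1B e κ p w) := by
  unfold Y1B
  rw [d1B_conj he hp hw h1]
  simp

theorem inv_slit {w : ℂ} (hw : w ∈ slitPlane) : w⁻¹ ∈ slitPlane := by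
  have h0 := Complex.slitPlane_ne_zero hw
  have hn : 0 < normSq w := Complex.normSq_pos.2 h0
  rw [Complex.mem_slitPlane_iff] at hw ⊢
  rw [Complex.inv_re, Complex.inv_im]
  rcases hw with h | h
  · left; exact div_pos h hn
  · right; exact div_ne_zero (neg_ne_zero.2 h) hn.ne'

theorem FW_conj {e κ : ℝ} (he : 0 < e) {Y d d' : ℂ} (hw : wn κ Y d' ∈ slitPlane)
    (hw1 : 1 < ‖wn κ Y d'‖) (hy : Y - d ∈ slitPlane) (hy1 : ‖Y - d‖ < 1) :
    FW e κ (conj Y) (conj d) (conj d') = conj (FW e κ Y d d') := by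
  unfold FW
  have e1 : wn κ (conj Y) (conj d') = conj (wn κ Y d') := by
    unfold wn
    rw [map_div₀, map_sub, map_sub, map_mul, Complex.conj_ofReal, conj2, map_one]
  rw [e1, gl_conj he hw hw1, ← map_sub, gs_conj he hy hy1]
  simp only [map_sub, map_mul, Complex.conj_ofReal, conj2]

/-- the conditions are invariant under conjugation -/
theorem HP.conj {e κ θ θt : ℝ} (he : 0 < e) (T : Tail e κ θt) {H : HeadFn} {p : ℂ}
    (h : HP e κ θ T.Ω T.r H p) : HP e κ θ T.Ω T.r H (conj p) := by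
  have key : ∀ x0 : ℂ, H.c1 (starRingEnd ℂ p) + H.r1 (starRingEnd ℂ p) * x0 =
      starRingEnd ℂ (H.c1 p + H.r1 p * starRingEnd ℂ x0) := by
    intro x0
    rw [H.c1_conj, H.r1_conj]; simp
  have hn : ∀ x0 : ℂ, ‖x0‖ ≤ 1 → ‖starRingEnd ℂ x0‖ ≤ 1 := by
    intro x0 hx; rwa [Complex.norm_conj]
  refine ⟨?_, ?_, ?_, ?_, ?_, ?_, ?_⟩
  · rw [cosh_conj']; exact conj_slit h.cosh_slit
  · rw [H.r1_conj]; simpa using h.r1_ne
  · rw [H.h_conj]; simpa using h.h_ne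
  · intro x0 hx
    rw [key]; exact conj_slit (h.w_slit _ (hn _ hx))
  · intro x0 hx
    rw [key, Complex.norm_conj]; exact h.w_norm _ (hn _ hx)
  · intro x0 hx
    rw [key, Y1B_conj he h.cosh_slit (h.w_slit _ (hn _ hx)) (h.w_norm _ (hn _ hx))]
    exact T.conj_mem _ (h.mem _ (hn _ hx))
  · intro x0 x1 hx0 hx1
    have hx0' := hn _ hx0
    have hx1' := hn _ hx1
    have hs := h.w_slit _ hx0'
    have hw := h.w_norm _ hx0'
    have hm := h.mem _ hx0'
    have hc := h.close _ _ hx0' hx1'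
    rw [key, Y1B_conj he h.cosh_slit hs hw, d1B_conj he h.cosh_slit hs hw, T.r_conj _ hm]
    set w := H.c1 p + H.r1 p * starRingEnd ℂ x0 with hwdef
    set Y := Y1B e κ p w with hY
    have hw0 : w ≠ 0 := Complex.slitPlane_ne_zero hs
    have hYd : Y - d1B e κ p w = w⁻¹ := by rw [hY, Y1B]; simp
    have e1 : starRingEnd ℂ (T.r Y) * x1 = starRingEnd ℂ (T.r Y * starRingEnd ℂ x1) := by simp
    rw [e1, FW_conj he (T.w_slit _ hm _ hx1') (T.w_norm _ hm _ hx1')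
      (by rw [hYd]; exact inv_slit hs)
      (by rw [hYd, norm_inv]; exact inv_lt_one_of_one_lt₀ hw), H.r1_conj, H.h_conj]
    have e2 : starRingEnd ℂ (H.r1 p) * x0 - (starRingEnd ℂ (H.h p))⁻¹ *
        starRingEnd ℂ (FW e κ Y (d1B e κ p w) (T.r Y * starRingEnd ℂ x1)) =
        starRingEnd ℂ (H.r1 p * starRingEnd ℂ x0 - (H.h p)⁻¹ *
        FW e κ Y (d1B e κ p w) (T.r Y * starRingEnd ℂ x1)) := by simp
    rw [e2, Complex.norm_conj, Complex.norm_conj]
    exact hc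

end Pool.Agent.helper63.EQC
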