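import Pool.Agent.helper63.EQC.AsmOpen

/-!
# Assembly: pointwise conditions on the cross give `WDataB`
-/

namespace Pool.Agent.helper63.EQC

open Set Metric Filter Topology Complex Pool.Agent.helper31.EQ.W
open scoped ComplexConjugate

variable {e κ θ θt : ℝ}

/-- fixed points of the sequence map solve the law of link 1 and all laws of the tail -/
theorem sol_of_fix (T : Tail e κ θt) {H : HeadFn} {p : ℂ} (h : HP e κ θ T.Ω T.r H p)
    {x : ℕ → ℂ} (hx : ∀ n, ‖x n‖ ≤ 1)
    (hfix : ∀ n, x n = PhiB e κ H.c1 H.r1 T.r (fun p _ _ => (H.h p)⁻¹) T.M p x n) :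
    Sol e κ T.r H p (x 0) := by
  have hpos : ∀ n, posB e κ H.c1 H.r1 T.r p x n =
      tpos κ T.r (fun n => x (n + 1)) (Y1B e κ p (H.c1 p + H.r1 p * x 0)) n := by
    intro n
    induction n with
    | zero => simp only [posB, tpos]
    | succ n ih => simp only [posB, tpos]; rw [ih]
  have hmem : ∀ n, tpos κ T.r (fun n => x (n + 1)) (Y1B e κ p (H.c1 p + H.r1 p * x 0)) n ∈ T.Ω := by
    intro n
    induction n with
    | zero => exact h.mem _ (hx 0)
    | succ n ih => exact T.inv _ ih _ (hx _)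
  refine ⟨hx 0, fun n => x (n + 1), ⟨fun n => hx _, ?_⟩, ?_⟩
  · intro n
    have h1 := hfix (n + 1)
    simp only [PhiB, posB, devB] at h1
    rw [hpos n] at h1
    have hm := hmem n
    have hr := T.r_ne _ hm
    have h2 := (eq_div_iff hr).1 h1
    have hM := T.M_ne _ hm (x (n + 1)) (x (n + 1 + 1)) (hx _) (hx _)
    set Y := tpos κ T.r (fun n => x (n + 1)) (Y1B e κ p (H.c1 p + H.r1 p * x 0)) n with hY
    have h3 : T.M (nxt κ Y (T.r Y * x (n + 1))) (T.r Y * x (n + 1))
        (T.r (nxt κ Y (T.r Y * x (n + 1))) * x (n + 1 + 1)) *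
        FW e κ (nxt κ Y (T.r Y * x (n + 1))) (T.r Y * x (n + 1))
        (T.r (nxt κ Y (T.r Y * x (n + 1))) * x (n + 1 + 1)) = 0 := by
      linear_combination h2
    rcases mul_eq_zero.1 h3 with h4 | h4
    · exact absurd h4 hM
    · simp only [tpos]
      exact h4
  · have h0 := hfix 0
    have hr := h.r1_ne
    have hh := h.h_ne
    simp only [PhiB, posB, devB, zero_add] at h0
    have h2 := (eq_div_iff hr).1 h0
    have h3 : (H.h p)⁻¹ * FW e κ (Y1B e κ p (H.c1 p + H.r1 p * x 0))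
        (d1B e κ p (H.c1 p + H.r1 p * x 0)) (T.r (Y1B e κ p (H.c1 p + H.r1 p * x 0)) * x 1) = 0 := by
      linear_combination h2
    rcases mul_eq_zero.1 h3 with h4 | h4
    · exact absurd h4 (inv_ne_zero hh)
    · exact h4

/-- real numbers with vanishing imaginary part -/
theorem real_of_conj {f : ℂ → ℂ} (hf : ∀ p, f (conj p) = conj (f p)) (p : ℝ) : (f p).im = 0 := by
  have h := hf p
  rw [Complex.conj_ofReal] at h
  have h2 := congrArg Complex.im h
  rw [Complex.conj_im] at h2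
  linarith

/-- **Assembly of the head.** -/
theorem wdataB_of_head (he : 1 < e) (T : Tail e κ θt) (hθt0 : 0 ≤ θt) (hθt : θt < 1)
    (hθ : θ < 1) (H : HeadFn) {η δ : ℝ} (hη : 0 < η) (hδ : 0 < δ)
    (Himag : ∀ y : ℝ, 0 ≤ y → y ≤ η → HP e κ θ T.Ω T.r H ((y : ℂ) * I))
    (Hreal : ∀ y : ℝ, |y| ≤ δ → HP e κ θ T.Ω T.r H (y : ℂ))
    (HRS : ∀ y : ℝ, |y| ≤ δ → RS e κ H (y : ℂ))
    (Hd0 : ∀ x0 : ℂ, Sol e κ T.r H (δ : ℂ) x0 →
      (d0B e κ (δ : ℂ) (H.c1 (δ : ℂ) + H.r1 (δ : ℂ) * x0)).re < 1 - Real.exp (-δ))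
    (Hd0' : ∀ x0 : ℂ, Sol e κ T.r H ((-δ : ℝ) : ℂ) x0 →
      1 - Real.exp δ < (d0B e κ ((-δ : ℝ) : ℂ) (H.c1 ((-δ : ℝ) : ℂ) + H.r1 ((-δ : ℝ) : ℂ) * x0)).re)
    (Htest : ∀ x0 : ℂ, Sol e κ T.r H ((η : ℂ) * I) x0 →
      (exp ((η : ℂ) * I / 2) *
        d0B e κ ((η : ℂ) * I) (H.c1 ((η : ℂ) * I) + H.r1 ((η : ℂ) * I) * x0)).re ≠ 0) :
    Nonempty (WDataB e κ) := by
  have he0 : 0 < e := by linarith
  have hc1r : ∀ p : ℝ, (H.c1 p).im = 0 := real_of_conj H.c1_conj
  have hr1r : ∀ p : ℝ, (H.r1 p).im = 0 := real_of_conj H.r1_conj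
  have hhr : ∀ p : ℝ, (H.h p).im = 0 := real_of_conj H.h_conj
  have hseg : ∀ y : ℝ, |y| ≤ η → ((y : ℂ) * I) ∈ DD T θ H := by
    intro y hy
    have hHP : HP e κ θ T.Ω T.r H ((y : ℂ) * I) := by
      rcases le_total 0 y with h | h
      · exact Himag y h (by rwa [abs_of_nonneg h] at hy)
      · have h1 := (Himag (-y) (by linarith) (by rwa [abs_of_nonpos h] at hy)).conj he0 T
        have e1 : conj (((-y : ℝ) : ℂ) * I) = (y : ℂ) * I := by
          rw [map_mul, Complex.conj_ofReal, Complex.conj_I]; push_cast; ring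
        rwa [e1] at h1
    refine ⟨hHP, ?_⟩
    by_cases h0 : y = 0
    · right
      rw [h0]
      have := HRS 0 (by simp [hδ.le])
      simpa using this
    · left
      simpa using h0
  have hsegr : ∀ y : ℝ, |y| ≤ δ → (y : ℂ) ∈ DD T θ H := fun y hy => ⟨Hreal y hy, Or.inr (HRS y hy)⟩
  refine ⟨{
    θ := max θ θt
    hθ0 := le_max_of_le_right hθt0
    hθ1 := max_lt hθ hθt
    D := DD T θ H
    isOpen_D := isOpen_DD he0 T H
    Ω0 := T.Ω
    Ω := T.Ω
    c1 := H.c1
    r1 := H.r1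
    r := T.r
    M1 := fun p _ _ => (H.h p)⁻¹
    M := T.M
    c1_diff := H.c1_diff.differentiableOn
    r1_diff := H.r1_diff.differentiableOn
    r_diff := by rw [union_self]; exact T.r_diff
    M1_diff := by
      intro p hp x0 x1 _ _
      have h1 : DifferentiableAt ℂ (fun q : ℂ × ℂ × ℂ => H.h q.1)
          (p, H.c1 p + H.r1 p * x0, T.r (Y1B e κ p (H.c1 p + H.r1 p * x0)) * x1) :=
        (H.h_diff p).comp _ differentiableAt_fst
      exact h1.inv hp.1.h_ne
    M_diff := by rw [union_self]; exact T.M_diff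
    r1_ne := fun p hp => hp.1.r1_ne
    r_ne := by rw [union_self]; exact T.r_ne
    M1_ne := fun p hp _ _ _ _ => inv_ne_zero hp.1.h_ne
    M_ne := by rw [union_self]; exact T.M_ne
    c1_real := fun p _ => hc1r p
    r1_real := fun p _ => hr1r p
    r_real := by rw [union_self]; exact T.r_real
    M1_real := by
      intro p _ _ _ _ _
      rw [Complex.inv_im, hhr p]; simp
    M_real := by rw [union_self]; exact T.M_real
    cosh_slit := fun p hp => hp.1.cosh_slit
    w1_slit := fun p hp => hp.1.w_slit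
    w1_norm := fun p hp => hp.1.w_norm
    inv0 := fun p hp => hp.1.mem
    inv := by rw [union_self]; exact T.inv
    den_ne := by rw [union_self]; exact T.den_ne
    one_sub_ne := by rw [union_self]; exact T.one_sub_ne
    w_slit := by rw [union_self]; exact T.w_slit
    w_norm := by rw [union_self]; exact T.w_norm
    close0 := by
      intro p hp x0 x1 hx0 hx1 w1 Y1 hw1 hY1
      rw [hY1, hw1]
      refine (hp.1.close x0 x1 hx0 hx1).le.trans ?_
      exact mul_le_mul_of_nonneg_right (le_max_left _ _) (norm_nonneg _)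
    close := by
      rw [union_self]
      intro Y hY x x' hx hx'
      refine (T.close Y hY x x' hx hx').trans ?_
      exact mul_le_mul_of_nonneg_right (le_max_right _ _) (norm_nonneg _)
    real_small := by
      intro p hp x hx hxr hfix
      have hR : RS e κ H (p : ℂ) := by
        rcases hp.2 with h | h
        · exact absurd (Complex.ofReal_im p) h
        · exact h
      have h1 := hR (x 0) (hx 0)
      refine lt_of_le_of_lt ?_ h1
      have e1 : ‖cosh ((e : ℂ) * (p : ℂ) / 2)‖ = Real.cosh (e * p / 2) := by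
        have : (e : ℂ) * (p : ℂ) / 2 = ((e * p / 2 : ℝ) : ℂ) := by push_cast; ring
        rw [this, ← Complex.ofReal_cosh, Complex.norm_real, Real.norm_of_nonneg (Real.cosh_pos _).le]
      rw [e1]
      refine mul_le_mul_of_nonneg_right ?_ (Real.rpow_nonneg (Real.cosh_pos _).le _)
      have e2 : (2 * sinh ((p : ℂ) / 2) - exp ((p : ℂ) / 2) *
          d0B e κ p (H.c1 p + H.r1 p * x 0)).re = 2 * Real.sinh (p / 2) - Real.exp (p / 2) *
          (d0B e κ p (H.c1 p + H.r1 p * x 0)).re := by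
        have h3 : sinh ((p : ℂ) / 2) = ((Real.sinh (p / 2) : ℝ) : ℂ) := by push_cast; ring_nf
        have h4 : exp ((p : ℂ) / 2) = ((Real.exp (p / 2) : ℝ) : ℂ) := by push_cast; ring_nf
        rw [h3, h4, Complex.sub_re, Complex.re_ofReal_mul]
        have h5 : (2 * ((Real.sinh (p / 2) : ℝ) : ℂ)) = ((2 * Real.sinh (p / 2) : ℝ) : ℂ) := by
          push_cast; ring
        rw [h5, Complex.ofReal_re]
      rw [← e2]
      exact Complex.abs_re_le_norm _
    lam := T.lam
    hlam0 := T.hlam0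
    hlam1 := T.hlam1
    contr := by rw [union_self]; exact T.contr
    B := T.B
    r_le := by rw [union_self]; exact T.r_le
    η := η
    hη := hη
    seg := hseg
    δ := δ
    hδ := hδ
    segr := hsegr
    d0_small := by
      intro x hx _ hfix
      exact Hd0 _ (sol_of_fix T (hsegr δ (by rw [abs_of_pos hδ])).1 hx hfix)
    d0_small' := by
      intro x hx _ hfix
      exact Hd0' _ (sol_of_fix T (hsegr (-δ) (by rw [abs_neg, abs_of_pos hδ])).1 hx hfix)
    test := by
      intro x hx hfix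
      exact Htest _ (sol_of_fix T (hseg η (by rw [abs_of_pos hη])).1 hx hfix) }⟩

end Pool.Agent.helper63.EQC
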