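import Pool.Agent.helper63.EQC.AsmConj

/-!
# Assembly: the pointwise conditions are open
-/

namespace Pool.Agent.helper63.EQC

open Set Metric Filter Topology Complex Pool.Agent.helper31.EQ.W
open scoped ComplexConjugate

variable {e κ θ θt : ℝ}

theorem gp_cont {p : ℂ} (hp : cosh (e * p / 2) ∈ slitPlane) : ContinuousAt (gp e) p := by
  have h1 : DifferentiableAt ℂ (fun p : ℂ => exp (-p)) p := by fun_prop
  have h2 : DifferentiableAt ℂ (fun p : ℂ => cosh (e * p / 2)) p := by fun_prop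
  exact (h1.mul (h2.cpow_const hp)).continuousAt

variable {X : Type*} [TopologicalSpace X]

theorem z0B_cont (he : 0 < e) {f g : X → ℂ} {x : X} (hf : ContinuousAt f x)
    (hg : ContinuousAt g x) (hp : cosh (e * f x / 2) ∈ slitPlane) (hw : g x ∈ slitPlane)
    (h1 : 1 < ‖g x‖) : ContinuousAt (fun y => z0B e κ (f y) (g y)) x := by
  have t1 : ContinuousAt (fun y => gl e (g y)) x :=
    ContinuousAt.comp (differentiableAt_gl he hw h1).continuousAt hg
  have t2 : ContinuousAt (fun y => gp e (f y)) x := ContinuousAt.comp (gp_cont hp) hf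
  exact ((t1.const_mul _).sub (t2.const_mul _)).div_const 2

theorem d0B_cont (he : 0 < e) {f g : X → ℂ} {x : X} (hf : ContinuousAt f x)
    (hg : ContinuousAt g x) (hp : cosh (e * f x / 2) ∈ slitPlane) (hw : g x ∈ slitPlane)
    (h1 : 1 < ‖g x‖) : ContinuousAt (fun y => d0B e κ (f y) (g y)) x := by
  have t1 := z0B_cont (κ := κ) he hf hg hp hw h1
  have t2 : ContinuousAt (fun y => exp (-f y)) x := (hf.neg).cexp
  exact (continuousAt_const.sub t1).sub t2

theorem d1B_cont (he : 0 < e) {f g : X → ℂ} {x : X} (hf : ContinuousAt f x)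
    (hg : ContinuousAt g x) (hp : cosh (e * f x / 2) ∈ slitPlane) (hw : g x ∈ slitPlane)
    (h1 : 1 < ‖g x‖) : ContinuousAt (fun y => d1B e κ (f y) (g y)) x := by
  have t1 := z0B_cont (κ := κ) he hf hg hp hw h1
  exact continuousAt_const.sub ((continuousAt_const.add t1).div hg (Complex.slitPlane_ne_zero hw))

theorem Y1B_cont (he : 0 < e) {f g : X → ℂ} {x : X} (hf : ContinuousAt f x)
    (hg : ContinuousAt g x) (hp : cosh (e * f x / 2) ∈ slitPlane) (hw : g x ∈ slitPlane)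
    (h1 : 1 < ‖g x‖) : ContinuousAt (fun y => Y1B e κ (f y) (g y)) x := by
  have t1 := d1B_cont (κ := κ) he hf hg hp hw h1
  exact t1.add (continuousAt_const.div hg (Complex.slitPlane_ne_zero hw))

theorem FW_cont (he : 0 < e) {f g h : X → ℂ} {x : X} (hf : ContinuousAt f x)
    (hg : ContinuousAt g x) (hh : ContinuousAt h x) (h0 : 1 - h x ≠ 0)
    (hw : wn κ (f x) (h x) ∈ slitPlane) (hw1 : 1 < ‖wn κ (f x) (h x)‖)
    (hy : f x - g x ∈ slitPlane) (hy1 : ‖f x - g x‖ < 1) :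
    ContinuousAt (fun y => FW e κ (f y) (g y) (h y)) x := by
  have t0 : ContinuousAt (fun y => wn κ (f y) (h y)) x :=
    (continuousAt_const.sub hf).div (continuousAt_const.sub hh) h0
  have t1 : ContinuousAt (fun y => gl e (wn κ (f y) (h y))) x :=
    ContinuousAt.comp (f := fun y => wn κ (f y) (h y)) (differentiableAt_gl he hw hw1).continuousAt t0
  have t2 : ContinuousAt (fun y => gs e (f y - g y)) x :=
    ContinuousAt.comp (f := fun y => f y - g y) (differentiableAt_gs he hy hy1).continuousAt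
      (hf.sub hg)
  exact ((t1.const_mul _).sub (t2.const_mul _)).sub ((continuousAt_const.sub hf).const_mul 2)

/-- the unit disc is compact -/
theorem compact_disc : IsCompact (closedBall (0 : ℂ) 1) := isCompact_closedBall _ _

theorem HP.eventually (he : 0 < e) (T : Tail e κ θt) {H : HeadFn} {p : ℂ}
    (h : HP e κ θ T.Ω T.r H p) : ∀ᶠ q in 𝓝 p, HP e κ θ T.Ω T.r H q := by
  have cc : Continuous H.c1 := H.c1_diff.continuous
  have cr : Continuous H.r1 := H.r1_diff.continuous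
  have ch : Continuous H.h := H.h_diff.continuous
  have ev1 : ∀ᶠ q in 𝓝 p, cosh (e * q / 2) ∈ slitPlane := by
    have hc : ContinuousAt (fun q : ℂ => cosh (e * q / 2)) p := by fun_prop
    exact hc.eventually_mem (isOpen_slitPlane.mem_nhds h.cosh_slit)
  have ev2 : ∀ᶠ q in 𝓝 p, H.r1 q ≠ 0 := cr.continuousAt.eventually_ne h.r1_ne
  have ev3 : ∀ᶠ q in 𝓝 p, H.h q ≠ 0 := ch.continuousAt.eventually_ne h.h_ne
  -- functions of (q, x)
  have cw : Continuous (fun y : ℂ × ℂ => H.c1 y.1 + H.r1 y.1 * y.2) := by fun_prop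
  have ev4 : ∀ᶠ q in 𝓝 p, ∀ x ∈ closedBall (0 : ℂ) 1, H.c1 q + H.r1 q * x ∈ slitPlane ∧
      1 < ‖H.c1 q + H.r1 q * x‖ ∧ Y1B e κ q (H.c1 q + H.r1 q * x) ∈ T.Ω := by
    refine compact_disc.eventually_forall_of_forall_eventually ?_
    intro x hx
    have hx' : ‖x‖ ≤ 1 := by simpa using hx
    have hs := h.w_slit x hx'
    have hn := h.w_norm x hx'
    have hm := h.mem x hx'
    have c1 : ContinuousAt (fun y : ℂ × ℂ => H.c1 y.1 + H.r1 y.1 * y.2) (p, x) := cw.continuousAt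
    have c2 : ContinuousAt (fun y : ℂ × ℂ => Y1B e κ y.1 (H.c1 y.1 + H.r1 y.1 * y.2)) (p, x) :=
      Y1B_cont he (f := fun y : ℂ × ℂ => y.1) (g := fun y : ℂ × ℂ => H.c1 y.1 + H.r1 y.1 * y.2)
        continuousAt_fst c1 h.cosh_slit hs hn
    exact (c1.eventually_mem (isOpen_slitPlane.mem_nhds hs)).and
      ((c1.norm.eventually (lt_mem_nhds hn)).and (c2.eventually_mem (T.isOpen_Ω.mem_nhds hm)))
  have ev5 : ∀ᶠ q in 𝓝 p, ∀ x ∈ closedBall (0 : ℂ) 1 ×ˢ closedBall (0 : ℂ) 1,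
      ‖H.r1 q * x.1 - (H.h q)⁻¹ * FW e κ (Y1B e κ q (H.c1 q + H.r1 q * x.1))
      (d1B e κ q (H.c1 q + H.r1 q * x.1)) (T.r (Y1B e κ q (H.c1 q + H.r1 q * x.1)) * x.2)‖ <
      θ * ‖H.r1 q‖ := by
    refine (compact_disc.prod compact_disc).eventually_forall_of_forall_eventually ?_
    rintro ⟨x0, x1⟩ ⟨hx0, hx1⟩
    have hx0' : ‖x0‖ ≤ 1 := by simpa using hx0
    have hx1' : ‖x1‖ ≤ 1 := by simpa using hx1
    have hs := h.w_slit x0 hx0'
    have hn := h.w_norm x0 hx0'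
    have hm := h.mem x0 hx0'
    have hc := h.close x0 x1 hx0' hx1'
    have c1 : ContinuousAt (fun y : ℂ × ℂ × ℂ => H.c1 y.1 + H.r1 y.1 * y.2.1) (p, (x0, x1)) := by
      have : Continuous (fun y : ℂ × ℂ × ℂ => H.c1 y.1 + H.r1 y.1 * y.2.1) := by fun_prop
      exact this.continuousAt
    have c2 : ContinuousAt (fun y : ℂ × ℂ × ℂ => Y1B e κ y.1 (H.c1 y.1 + H.r1 y.1 * y.2.1))
        (p, (x0, x1)) :=
      Y1B_cont he (f := fun y : ℂ × ℂ × ℂ => y.1)
        (g := fun y : ℂ × ℂ × ℂ => H.c1 y.1 + H.r1 y.1 * y.2.1) continuousAt_fst c1 h.cosh_slit hs hn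
    have c3 : ContinuousAt (fun y : ℂ × ℂ × ℂ => d1B e κ y.1 (H.c1 y.1 + H.r1 y.1 * y.2.1))
        (p, (x0, x1)) :=
      d1B_cont he (f := fun y : ℂ × ℂ × ℂ => y.1)
        (g := fun y : ℂ × ℂ × ℂ => H.c1 y.1 + H.r1 y.1 * y.2.1) continuousAt_fst c1 h.cosh_slit hs hn
    have c4 : ContinuousAt (fun y : ℂ × ℂ × ℂ => T.r (Y1B e κ y.1 (H.c1 y.1 + H.r1 y.1 * y.2.1)) * y.2.2)
        (p, (x0, x1)) := by
      have t1 : ContinuousAt (fun y : ℂ × ℂ × ℂ => T.r (Y1B e κ y.1 (H.c1 y.1 + H.r1 y.1 * y.2.1)))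
          (p, (x0, x1)) :=
        ContinuousAt.comp (f := fun y : ℂ × ℂ × ℂ => Y1B e κ y.1 (H.c1 y.1 + H.r1 y.1 * y.2.1))
          (T.r_diff _ hm).continuousAt c2
      have t2 : ContinuousAt (fun y : ℂ × ℂ × ℂ => y.2.2) (p, (x0, x1)) := by fun_prop
      exact t1.mul t2
    have hYd : Y1B e κ p (H.c1 p + H.r1 p * x0) - d1B e κ p (H.c1 p + H.r1 p * x0) =
        (H.c1 p + H.r1 p * x0)⁻¹ := by rw [Y1B]; simp
    have c5 := FW_cont (e := e) (κ := κ) he c2 c3 c4 (T.one_sub_ne _ hm _ hx1')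
      (T.w_slit _ hm _ hx1') (T.w_norm _ hm _ hx1') (by
        show Y1B e κ p (H.c1 p + H.r1 p * x0) - d1B e κ p (H.c1 p + H.r1 p * x0) ∈ slitPlane
        rw [hYd]; exact inv_slit hs) (by
        show ‖Y1B e κ p (H.c1 p + H.r1 p * x0) - d1B e κ p (H.c1 p + H.r1 p * x0)‖ < 1
        rw [hYd, norm_inv]; exact inv_lt_one_of_one_lt₀ hn)
    have c6 : ContinuousAt (fun y : ℂ × ℂ × ℂ => H.r1 y.1) (p, (x0, x1)) := by
      have : Continuous (fun y : ℂ × ℂ × ℂ => H.r1 y.1) := by fun_prop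
      exact this.continuousAt
    have c7 : ContinuousAt (fun y : ℂ × ℂ × ℂ => (H.h y.1)⁻¹) (p, (x0, x1)) := by
      have : Continuous (fun y : ℂ × ℂ × ℂ => H.h y.1) := by fun_prop
      exact this.continuousAt.inv₀ h.h_ne
    have c8 : ContinuousAt (fun y : ℂ × ℂ × ℂ => H.r1 y.1 * y.2.1) (p, (x0, x1)) := by
      have : Continuous (fun y : ℂ × ℂ × ℂ => H.r1 y.1 * y.2.1) := by fun_prop
      exact this.continuousAt
    have c9 := (c8.sub (c7.mul c5)).norm
    have c10 : ContinuousAt (fun y : ℂ × ℂ × ℂ => θ * ‖H.r1 y.1‖) (p, (x0, x1)) :=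
      continuousAt_const.mul c6.norm
    exact c9.eventually_lt c10 hc
  filter_upwards [ev1, ev2, ev3, ev4, ev5] with q h1 h2 h3 h4 h5
  refine ⟨h1, h2, h3, ?_, ?_, ?_, ?_⟩
  · intro x hx; exact (h4 x (by simpa using hx)).1
  · intro x hx; exact (h4 x (by simpa using hx)).2.1
  · intro x hx; exact (h4 x (by simpa using hx)).2.2
  · intro x0 x1 hx0 hx1
    exact h5 (x0, x1) ⟨by simpa using hx0, by simpa using hx1⟩

theorem RS.eventually (he : 0 < e) (T : Tail e κ θt) {H : HeadFn} {p : ℂ}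
    (h : HP e κ θ T.Ω T.r H p) (hR : RS e κ H p) : ∀ᶠ q in 𝓝 p, RS e κ H q := by
  have cc : Continuous H.c1 := H.c1_diff.continuous
  have cr : Continuous H.r1 := H.r1_diff.continuous
  have ev : ∀ᶠ q in 𝓝 p, ∀ x ∈ closedBall (0 : ℂ) 1,
      ‖2 * sinh (q / 2) - exp (q / 2) * d0B e κ q (H.c1 q + H.r1 q * x)‖ *
      ‖cosh (e * q / 2)‖ ^ (1 / e) < 2 * Real.sinh (κ / 2) * Real.cosh (e * κ / 2) ^ (1 / e) := by
    refine compact_disc.eventually_forall_of_forall_eventually ?_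
    intro x hx
    have hx' : ‖x‖ ≤ 1 := by simpa using hx
    have hs := h.w_slit x hx'
    have hn := h.w_norm x hx'
    have c1 : ContinuousAt (fun y : ℂ × ℂ => H.c1 y.1 + H.r1 y.1 * y.2) (p, x) := by
      have : Continuous (fun y : ℂ × ℂ => H.c1 y.1 + H.r1 y.1 * y.2) := by fun_prop
      exact this.continuousAt
    have c2 : ContinuousAt (fun y : ℂ × ℂ => d0B e κ y.1 (H.c1 y.1 + H.r1 y.1 * y.2)) (p, x) :=
      d0B_cont he (f := fun y : ℂ × ℂ => y.1) (g := fun y : ℂ × ℂ => H.c1 y.1 + H.r1 y.1 * y.2)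
        continuousAt_fst c1 h.cosh_slit hs hn
    have c3 : ContinuousAt (fun y : ℂ × ℂ => 2 * sinh (y.1 / 2)) (p, x) := by fun_prop
    have c4 : ContinuousAt (fun y : ℂ × ℂ => exp (y.1 / 2)) (p, x) := by fun_prop
    have c5 : ContinuousAt (fun y : ℂ × ℂ => ‖cosh (e * y.1 / 2)‖) (p, x) := by fun_prop
    have c6 : ContinuousAt (fun y : ℂ × ℂ => ‖cosh (e * y.1 / 2)‖ ^ (1 / e)) (p, x) :=
      c5.rpow_const (Or.inr (by positivity))
    have c7 := ((c3.sub (c4.mul c2)).norm).mul c6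
    exact c7.eventually_lt continuousAt_const (hR x hx')
  filter_upwards [ev] with q hq
  intro x hx
  exact hq x (by simpa using hx)

/-- the domain of start parameters -/
def DD (T : Tail e κ θt) (θ : ℝ) (H : HeadFn) : Set ℂ :=
  {p | HP e κ θ T.Ω T.r H p ∧ (p.im ≠ 0 ∨ RS e κ H p)}

theorem isOpen_DD (he : 0 < e) (T : Tail e κ θt) (H : HeadFn) : IsOpen (DD T θ H) := by
  rw [isOpen_iff_eventually]
  rintro p ⟨h1, h2⟩
  have e1 := h1.eventually he
  rcases h2 with h2 | h2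
  · have e2 : ∀ᶠ q : ℂ in 𝓝 p, q.im ≠ 0 := Complex.continuous_im.continuousAt.eventually_ne h2
    filter_upwards [e1, e2] with q h3 h4
    exact ⟨h3, Or.inl h4⟩
  · have e2 := RS.eventually he T h1 h2
    filter_upwards [e1, e2] with q h3 h4
    exact ⟨h3, Or.inr h4⟩

end Pool.Agent.helper63.EQC
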