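import Pool.Agent.helper63.EQC.Crn

/-!
# The neutral corner: imaginary and real start parameters
-/

namespace Pool.Agent.helper63.EQC

open Complex Pool.Agent.helper31.EQ.W

theorem rexp4 {x : ℝ} (hx : |x| ≤ 1) :
    |Real.exp x - (1 + x + x ^ 2 / 2 + x ^ 3 / 6)| ≤ x ^ 4 * (5 / 96) := by
  have h := exp4 (x := (x : ℂ)) (by rwa [Complex.norm_real])
  have e1 : exp (x : ℂ) - (1 + (x : ℂ) + (x : ℂ) ^ 2 / 2 + (x : ℂ) ^ 3 / 6) =
      ((Real.exp x - (1 + x + x ^ 2 / 2 + x ^ 3 / 6) : ℝ) : ℂ) := by push_cast; rfl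
  rw [e1, Complex.norm_real, Complex.norm_real, Real.norm_eq_abs, Real.norm_eq_abs] at h
  have e2 : |x| ^ 4 = x ^ 4 := by
    have : |x| ^ 4 = (|x| ^ 2) ^ 2 := by ring
    rw [this, sq_abs]; ring
  rwa [e2] at h

theorem cosh_ge (x : ℝ) : 1 + x ^ 2 / 2 ≤ Real.cosh x := by
  have h1 : Real.cosh x = 1 + 2 * Real.sinh (x / 2) ^ 2 := by
    have h2 := Real.cosh_two_mul (x / 2)
    have h3 := Real.cosh_sq (x / 2)
    rw [show 2 * (x / 2) = x by ring] at h2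
    rw [h2, h3]; ring
  have h2 : (x / 2) ^ 2 ≤ Real.sinh (x / 2) ^ 2 := by
    rcases le_total 0 (x / 2) with h | h
    · have := Real.self_le_sinh_iff.2 h
      nlinarith
    · have := Real.sinh_le_self_iff.2 h
      nlinarith
  rw [h1]; nlinarith

theorem cosh_le {x : ℝ} (hx : |x| ≤ 1) : Real.cosh x ≤ 1 + x ^ 2 / 2 + x ^ 4 * (5 / 96) := by
  have h1 := rexp4 hx
  have h2 := rexp4 (x := -x) (by simpa using hx)
  have h3 := Real.cosh_eq x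
  have h4 := (abs_le.1 h1).2
  have h5 := (abs_le.1 h2).2
  rw [h3]
  nlinarith

theorem imag_num {C c σ κ φ s : ℝ} (hκ : 0 < κ) (hσ0 : 0 < σ) (hσ : σ ≤ 1 / 10)
    (hσ2 : σ ^ 2 = 2 * (C - c)) (hC : 1 + κ ^ 2 / 2 ≤ C) (hc : c ≤ 1)
    (hs2 : 2 * (1 - c) = (2 * s) ^ 2) (hs0 : 0 ≤ s) (hφ0 : 0 ≤ φ) (h1 : φ ≤ 2 * (2 * s))
    (h2 : 0 < φ → φ / 2 - (φ / 2) ^ 3 / 6 < s) :
    κ ≤ σ ∧ 2 * s ≤ σ ∧ φ ≤ 10026 / 10000 * σ ∧ φ ^ 2 ≤ 10053 / 10000 * (2 * (1 - c)) := by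
  have hκσ : κ ≤ σ := by
    apply le_of_sq_le_sq _ hσ0.le
    nlinarith only [hσ2, hC, hc]
  have hsσ : 2 * s ≤ σ := by
    apply le_of_sq_le_sq _ hσ0.le
    rw [← hs2]; nlinarith only [hσ2, hC, hc, sq_nonneg κ]
  have hφs : φ * (9975 / 10000) ≤ 2 * s := by
    rcases eq_or_lt_of_le hφ0 with h0 | h0
    · rw [← h0]; linarith
    · have h3 := h2 h0
      have h4 : φ ≤ 1 / 5 := by linarith
      have h5 : (φ / 2) ^ 2 ≤ 1 / 100 := by nlinarith only [h4, h0]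
      have h6 : (φ / 2) ^ 3 ≤ 1 / 100 * (φ / 2) := by nlinarith only [h5, h0]
      linarith
  refine ⟨hκσ, hsσ, by linarith, ?_⟩
  rw [hs2]
  have h5 : (φ * (9975 / 10000)) ^ 2 ≤ (2 * s) ^ 2 := pow_le_pow_left₀ (by positivity) hφs 2
  nlinarith only [h5, sq_nonneg φ]

theorem crn_imag {e κ σ φ : ℝ} (he : 1 < e) (hκ : 0 < κ) (hφ : |φ| ≤ 3) (hσ0 : 0 < σ)
    (hσ2 : σ ^ 2 = 2 * (Real.cosh κ - Real.cos φ)) (hσ : σ ≤ 1 / 10) (haσ : e / 2 * σ ≤ 1 / 10) :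
    Crn e κ σ ((φ : ℂ) * I) ∧ ‖exp (-(κ : ℂ)) - exp (-((φ : ℂ) * I))‖ * (1 + κ) ≤
      ‖exp (κ : ℂ) - exp (-((φ : ℂ) * I))‖ := by
  have hCκ := cosh_ge κ
  have hcos1 := Real.cos_le_one φ
  have hs2 : 2 * (1 - Real.cos φ) = (2 * Real.sin (|φ| / 2)) ^ 2 := by
    have h1 := Real.cos_sq' (|φ| / 2)
    have h2 := Real.cos_two_mul (|φ| / 2)
    rw [show 2 * (|φ| / 2) = |φ| by ring, Real.cos_abs] at h2
    rw [h2, h1]; ring
  have hφ0 := abs_nonneg φ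
  have hpi := Real.pi_gt_three
  have hpi4 := Real.pi_le_four
  have hsin0 : 0 ≤ Real.sin (|φ| / 2) := Real.sin_nonneg_of_nonneg_of_le_pi (by linarith) (by linarith)
  have hφ1 : |φ| ≤ 2 * (2 * Real.sin (|φ| / 2)) := by
    have h1 := Real.mul_le_sin (x := |φ| / 2) (by linarith) (by linarith)
    have h2 : 2 / Real.pi * (|φ| / 2) = |φ| / Real.pi := by ring
    rw [h2, div_le_iff₀ (by linarith)] at h1
    have h3 : Real.sin (|φ| / 2) * Real.pi ≤ Real.sin (|φ| / 2) * 4 := by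
      exact mul_le_mul_of_nonneg_left hpi4 hsin0
    linarith
  obtain ⟨hκσ, hsσ, hφ2, hφsq⟩ := imag_num hκ hσ0 hσ hσ2 hCκ hcos1 hs2 hsin0 hφ0 hφ1
    (fun h => Real.sin_gt_sub_cube (x := |φ| / 2) (by linarith))
  rw [sq_abs] at hφsq
  have hexp : exp (-((φ : ℂ) * I)) = ((Real.cos φ : ℝ) : ℂ) - ((Real.sin φ : ℝ) : ℂ) * I := by
    rw [show -((φ : ℂ) * I) = ((-φ : ℝ) : ℂ) * I by push_cast; ring, Complex.exp_mul_I,
      ← Complex.ofReal_cos, ← Complex.ofReal_sin, Real.cos_neg, Real.sin_neg]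
    push_cast; ring
  have hexp' : exp ((φ : ℂ) * I) = ((Real.cos φ : ℝ) : ℂ) + ((Real.sin φ : ℝ) : ℂ) * I := by
    rw [Complex.exp_mul_I, ← Complex.ofReal_cos, ← Complex.ofReal_sin]
  have hsc := Real.sin_sq_add_cos_sq φ
  have hEE : Real.exp κ * Real.exp (-κ) = 1 := by rw [← Real.exp_add]; simp
  have hC := Real.cosh_eq κ
  have hE'0 := Real.exp_pos (-κ)
  have hE0 := Real.exp_pos κ
  have hE1 := Real.add_one_le_exp κ
  have hE1' := Real.add_one_le_exp (-κ)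
  have hE'1 : Real.exp (-κ) ≤ 1 := by rw [Real.exp_le_one_iff]; linarith
  have hE'9 : 9 / 10 ≤ Real.exp (-κ) := by linarith
  have key : ∀ t : ℝ, ‖(t : ℂ) - exp (-((φ : ℂ) * I))‖ ^ 2 = t ^ 2 - 2 * t * Real.cos φ + 1 := by
    intro t
    rw [hexp, ← Complex.normSq_eq_norm_sq, Complex.normSq_apply]
    simp only [Complex.sub_re, Complex.sub_im, Complex.mul_re, Complex.mul_im, Complex.ofReal_re,
      Complex.ofReal_im, Complex.I_re, Complex.I_im]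
    linear_combination hsc
  have hm2 : ‖exp (-(κ : ℂ)) - exp (-((φ : ℂ) * I))‖ ^ 2 = Real.exp (-κ) * σ ^ 2 := by
    have h1 := key (Real.exp (-κ))
    push_cast at h1
    rw [h1, hσ2, hC]
    linear_combination (-1 : ℝ) * hEE
  have hp2 : ‖exp (κ : ℂ) - exp (-((φ : ℂ) * I))‖ ^ 2 = Real.exp κ * σ ^ 2 := by
    have h1 := key (Real.exp κ)
    push_cast at h1
    rw [h1, hσ2, hC]
    linear_combination (-1 : ℝ) * hEE
  have hα0 := norm_nonneg (exp (-(κ : ℂ)) - exp (-((φ : ℂ) * I)))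
  have hβ0 := norm_nonneg (exp (κ : ℂ) - exp (-((φ : ℂ) * I)))
  have hαβ : ‖exp (-(κ : ℂ)) - exp (-((φ : ℂ) * I))‖ * ‖exp (κ : ℂ) - exp (-((φ : ℂ) * I))‖ =
      σ ^ 2 := by
    have h1 : (‖exp (-(κ : ℂ)) - exp (-((φ : ℂ) * I))‖ * ‖exp (κ : ℂ) - exp (-((φ : ℂ) * I))‖) ^ 2 =
        (σ ^ 2) ^ 2 := by
      rw [mul_pow, hm2, hp2]
      linear_combination (σ ^ 4) * hEE
    exact (pow_left_inj₀ (by positivity) (by positivity) (by norm_num)).1 h1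
  have hσsq : 0 < σ ^ 2 := by positivity
  have hσsq1 : σ ^ 2 ≤ 1 / 100 := by nlinarith only [hσ, hσ0]
  have hC1 := Real.one_le_cosh κ
  refine ⟨?_, ?_⟩
  rotate_left
  · apply le_of_sq_le_sq _ hβ0
    rw [mul_pow, hm2, hp2]
    have h1 : (1 + κ) ^ 2 ≤ Real.exp κ ^ 2 := pow_le_pow_left₀ (by positivity) (by linarith) 2
    have h2 : Real.exp (-κ) * σ ^ 2 * (1 + κ) ^ 2 ≤ Real.exp (-κ) * σ ^ 2 * Real.exp κ ^ 2 :=
      mul_le_mul_of_nonneg_left h1 (by positivity)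
    refine h2.trans (le_of_eq ?_)
    linear_combination (σ ^ 2 * Real.exp κ) * hEE
  constructor
  · exact he
  · exact hκ
  · linarith
  · exact hσ0
  · exact hσ
  · exact haσ
  · -- cosh
    rw [Complex.cosh_mul_I, ← Complex.ofReal_cos]
    have : (σ : ℂ) ^ 2 = ((σ ^ 2 : ℝ) : ℂ) := by push_cast; ring
    rw [this, hσ2]; push_cast; ring
  · rw [norm_mul, Complex.norm_I, mul_one, Complex.norm_real, Real.norm_eq_abs]; linarith
  · apply le_of_sq_le_sq _ (by positivity)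
    rw [← Complex.normSq_eq_norm_sq, Complex.normSq_apply]
    simp only [Complex.sub_re, Complex.sub_im, Complex.mul_re, Complex.mul_im, Complex.ofReal_re,
      Complex.ofReal_im, Complex.I_re, Complex.I_im]
    nlinarith only [hφsq, hCκ, hσ2, hκ, hcos1, hσsq]
  · apply le_of_sq_le_sq _ hσ0.le
    rw [hm2]; nlinarith only [hE'1, hσsq]
  · apply le_of_sq_le_sq _ hα0
    rw [hm2]
    nlinarith only [hE'9, hσsq]
  · apply le_of_sq_le_sq _ hβ0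
    rw [hp2]; nlinarith only [hE1, hκ, hσsq]
  · rw [hαβ]; linarith
  · rw [hαβ]; linarith
  · apply le_of_sq_le_sq _ (norm_nonneg _)
    have h1 := key (2 * Real.cosh κ)
    have h2 : ((2 * Real.cosh κ : ℝ) : ℂ) = 2 * (Real.cosh κ : ℂ) := by push_cast; ring
    rw [h2] at h1
    rw [h1]
    have h3 : (2 * Real.cosh κ) ^ 2 - 2 * (2 * Real.cosh κ) * Real.cos φ + 1 =
        1 + 2 * (Real.cosh κ * σ ^ 2) := by rw [hσ2]; ring
    rw [h3]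
    have h4 : 1 * σ ^ 2 ≤ Real.cosh κ * σ ^ 2 := mul_le_mul_of_nonneg_right hC1 hσsq.le
    nlinarith only [h4, hσsq, hσsq1]
  · rw [hexp]
    simp only [Complex.sub_re, Complex.mul_re, Complex.ofReal_re,
      Complex.ofReal_im, Complex.I_re, Complex.I_im]
    linarith
  · apply le_of_sq_le_sq _ hσ0.le
    have h1 := key (Real.cosh κ)
    rw [h1]
    have h2 : Real.cosh κ ^ 2 - 2 * Real.cosh κ * Real.cos φ + 1 =
        σ ^ 2 - (Real.cosh κ - 1) * (2 * Real.cos φ - (Real.cosh κ - 1)) := by rw [hσ2]; ring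
    rw [h2]
    have h3 : 0 ≤ (Real.cosh κ - 1) * (2 * Real.cos φ - (Real.cosh κ - 1)) := by
      apply mul_nonneg <;> linarith
    linarith
  · rw [Complex.norm_exp_ofReal_mul_I]
    linarith
  · rw [show -((φ : ℂ) * I) = ((-φ : ℝ) : ℂ) * I by push_cast; ring, Complex.norm_exp_ofReal_mul_I]
    norm_num
  · apply le_of_sq_le_sq _ (by positivity)
    rw [hexp', ← Complex.normSq_eq_norm_sq, Complex.normSq_apply]
    simp only [Complex.sub_re, Complex.sub_im, Complex.add_re, Complex.add_im, Complex.mul_re,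
      Complex.mul_im, Complex.ofReal_re, Complex.ofReal_im, Complex.I_re, Complex.I_im,
      Complex.one_re, Complex.one_im]
    nlinarith only [hsc, hσ2, hC1, hσsq]

/-- numeric facts for the real side -/
theorem real_num {C c σ κ x : ℝ} (hκ : 0 < κ) (hκ1 : κ ≤ 1) (hσ0 : 0 < σ) (hσ : σ ≤ 1 / 10)
    (hσ2 : σ ^ 2 = 2 * (C - c)) (hC1 : 1 + κ ^ 2 / 2 ≤ C) (hC2 : C ≤ 1 + κ ^ 2 / 2 + κ ^ 4 * (5 / 96))
    (hc1 : 1 + x ^ 2 / 2 ≤ c) (hc2 : c ≤ 1 + x ^ 2 / 2 + x ^ 4 * (5 / 96))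
    (hx : x ^ 2 ≤ 15625 / 1000000 * κ ^ 4) :
    κ ≤ 101 / 1000 ∧ κ ^ 2 * (1 - 2 / 10000) ≤ σ ^ 2 ∧ κ ^ 2 - 158 / 10000 * κ ^ 4 ≤ σ ^ 2 ∧
      σ ^ 2 ≤ κ ^ 2 + 105 / 1000 * κ ^ 4 ∧ κ ≤ 10002 / 10000 * σ := by
  have hk4 : κ ^ 4 ≤ κ ^ 2 := by
    have : κ ^ 2 ≤ 1 := by nlinarith only [hκ, hκ1]
    nlinarith only [this, sq_nonneg κ]
  have hx0 : x ^ 2 ≤ 1 := by nlinarith only [hx, hk4, hκ, hκ1]
  have hx4 : x ^ 4 ≤ x ^ 2 := by nlinarith only [hx0, sq_nonneg x]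
  have hxx : x ^ 2 ≤ 15625 / 1000000 * κ ^ 2 := by linarith
  have h1 : κ ^ 2 * (98 / 100) ≤ σ ^ 2 := by
    rw [hσ2]; nlinarith only [hC1, hc2, hx4, hxx, hk4, sq_nonneg κ]
  have hσsq : σ ^ 2 ≤ 1 / 100 := by nlinarith only [hσ, hσ0]
  have hκ2 : κ ^ 2 ≤ 103 / 10000 := by linarith
  have hk4' : κ ^ 4 ≤ 103 / 10000 * κ ^ 2 := by nlinarith only [hκ2, sq_nonneg κ]
  have hx4' : x ^ 4 ≤ 2 / 10000 * x ^ 2 := by
    have : x ^ 2 ≤ 2 / 10000 := by linarith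
    nlinarith only [this, sq_nonneg x]
  have h3 : κ ^ 2 - 158 / 10000 * κ ^ 4 ≤ σ ^ 2 := by
    rw [hσ2]; nlinarith only [hC1, hc2, hx4', hx, sq_nonneg (κ ^ 2)]
  have h4 : κ ^ 2 * (1 - 2 / 10000) ≤ σ ^ 2 := by nlinarith only [h3, hk4', sq_nonneg κ]
  refine ⟨?_, h4, h3, ?_, ?_⟩
  · nlinarith only [h4, hσsq, hκ]
  · rw [hσ2]; nlinarith only [hC2, hc1, sq_nonneg x, sq_nonneg (κ ^ 2)]
  · apply le_of_sq_le_sq _ (by positivity)
    nlinarith only [h4, hσ0, hκ, sq_nonneg σ, sq_nonneg κ]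

/-- numeric facts for the real side: exponentials -/
theorem real_num2 {E E' X κ σ y : ℝ} (hκ : 0 < κ) (hκb : κ ≤ 101 / 1000) (hσ0 : 0 < σ)
    (h3 : κ ^ 2 - 158 / 10000 * κ ^ 4 ≤ σ ^ 2)
    (h4 : σ ^ 2 ≤ κ ^ 2 + 105 / 1000 * κ ^ 4)
    (hE : 1 + κ + κ ^ 2 / 2 ≤ E) (hE'1 : E' ≤ 1 - κ + κ ^ 2 / 2 - κ ^ 3 / 6 + κ ^ 4 * (5 / 96))
    (hE'2 : 1 - κ + κ ^ 2 / 2 - κ ^ 3 / 6 - κ ^ 4 * (5 / 96) ≤ E')
    (hX1 : X ≤ 1 + y + y ^ 2) (hX2 : 1 - y - y ^ 2 ≤ X) (hy0 : 0 ≤ y) (hy : y ≤ 1 / 8 * κ ^ 2)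
    (hEE : 2 + κ ^ 2 ≤ E + E') :
    0 ≤ X - E' ∧ X - E' ≤ σ ∧ 93 / 100 * σ ≤ X - E' ∧ σ ≤ E - X ∧
      (X - E') * (1 + 75 / 100 * κ) ≤ E - X ∧ |X - 1| ≤ 1253 / 10000 * κ ^ 2 := by
  have hk2 : κ ^ 2 ≤ 101 / 1000 * κ := by nlinarith only [hκ, hκb]
  have hk3 : κ ^ 3 ≤ 101 / 1000 * κ ^ 2 := by nlinarith only [hκ, hκb, sq_nonneg κ]
  have hk4 : κ ^ 4 ≤ 101 / 1000 * κ ^ 3 := by nlinarith only [hκb, pow_pos hκ 3]
  have hy2 : y ^ 2 ≤ 15625 / 1000000 * κ ^ 4 := by nlinarith only [hy0, hy, sq_nonneg κ]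
  have hk3p := pow_pos hκ 3
  have hk4p := pow_pos hκ 4
  have hk2p := pow_pos hκ 2
  have hX1' : X ≤ 1 + 1253 / 10000 * κ ^ 2 := by nlinarith only [hX1, hy, hy2, hk3, hk4, hκb, hκ, hk2p]
  have hX2' : 1 - 1253 / 10000 * κ ^ 2 ≤ X := by nlinarith only [hX2, hy, hy2, hk3, hk4, hκb, hκ, hk2p]
  have hlow : κ - 626 / 1000 * κ ^ 2 ≤ X - E' := by
    have : κ ^ 4 * (5 / 96) ≤ κ ^ 3 / 6 := by nlinarith only [hk4, hk3p]
    nlinarith only [hX2', hE'1, this, hk2p]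
  have hhigh : X - E' ≤ κ - 35 / 100 * κ ^ 2 := by
    nlinarith only [hX1', hE'2, hk3, hk4, hk3p, hk2p]
  have hEX : κ + 374 / 1000 * κ ^ 2 ≤ E - X := by nlinarith only [hE, hX1', hk2p]
  have hlow0 : 0 ≤ κ - 626 / 1000 * κ ^ 2 := by nlinarith only [hk2, hκ]
  refine ⟨by linarith, ?_, ?_, ?_, ?_, ?_⟩
  · refine hhigh.trans ?_
    apply le_of_sq_le_sq _ hσ0.le
    nlinarith only [h3, hk4, hk3p]
  · refine le_trans ?_ hlow
    apply le_of_sq_le_sq _ hlow0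
    nlinarith only [h4, hk3, hk4, hk3p, hk2p, hk4p]
  · refine le_trans ?_ hEX
    apply le_of_sq_le_sq _ (by positivity)
    nlinarith only [h4, hk4, hk3p, hk4p]
  · have h5 : X * (2 + 75 / 100 * κ) ≤ (1 + y + y ^ 2) * (2 + 75 / 100 * κ) :=
      mul_le_mul_of_nonneg_right hX1 (by positivity)
    have h6 : (1 + y + y ^ 2) * (2 + 75 / 100 * κ) ≤
        (1 + 1 / 8 * κ ^ 2 + 15625 / 1000000 * κ ^ 4) * (2 + 75 / 100 * κ) :=
      mul_le_mul_of_nonneg_right (by linarith) (by positivity)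
    have h7 : (1 - κ + κ ^ 2 / 2 - κ ^ 3 / 6 - κ ^ 4 * (5 / 96)) * (75 / 100 * κ) ≤
        E' * (75 / 100 * κ) := mul_le_mul_of_nonneg_right hE'2 (by positivity)
    have hk5 : κ ^ 5 ≤ 101 / 1000 * κ ^ 4 := by nlinarith only [hκb, hk4p]
    nlinarith only [h5, h6, h7, hEE, hk4, hk5, hk3p]
  · rw [abs_le]; constructor <;> linarith

theorem crn_real {e κ σ x : ℝ} (he : 1 < e) (hκ : 0 < κ) (hκ1 : κ ≤ 1)
    (hx : |x| ≤ 1 / 8 * κ ^ 2) (hσ0 : 0 < σ)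
    (hσ2 : σ ^ 2 = 2 * (Real.cosh κ - Real.cosh x)) (hσ : σ ≤ 1 / 10)
    (haσ : e / 2 * σ ≤ 1 / 10) : Crn e κ σ (x : ℂ) ∧
      ‖exp (-(κ : ℂ)) - exp (-(x : ℂ))‖ * (1 + 75 / 100 * κ) ≤ ‖exp (κ : ℂ) - exp (-(x : ℂ))‖ ∧
      ‖(Real.cosh κ : ℂ) - exp (-(x : ℂ))‖ ≤ 7 / 100 * σ ∧ ‖exp (x : ℂ) - 1‖ ≤ 2 / 100 * σ := by
  have hx1 : |x| ≤ 1 := by nlinarith only [hx, hκ, hκ1]
  have hx2 : x ^ 2 ≤ 15625 / 1000000 * κ ^ 4 := by
    rw [← sq_abs]; nlinarith only [hx, abs_nonneg x, sq_nonneg κ]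
  have hκa : |κ| ≤ 1 := by rwa [abs_of_pos hκ]
  obtain ⟨hκb, h2, h3, h4, h5⟩ := real_num hκ hκ1 hσ0 hσ hσ2 (cosh_ge κ) (cosh_le hκa)
    (cosh_ge x) (cosh_le hx1) hx2
  have hE : 1 + κ + κ ^ 2 / 2 ≤ Real.exp κ := Real.quadratic_le_exp_of_nonneg hκ.le
  have hE' := rexp4 (x := -κ) (by rwa [abs_neg])
  have hX := Real.abs_exp_sub_one_sub_id_le (x := -x) (by rwa [abs_neg])
  have hY := Real.abs_exp_sub_one_sub_id_le (x := x) hx1
  have hxa := abs_le.1 (le_refl |x|)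
  have hE'1 := (abs_le.1 hE').2
  have hE'2 := (abs_le.1 hE').1
  have hX1 := (abs_le.1 hX).2
  have hX2 := (abs_le.1 hX).1
  have hsx : |x| ^ 2 = x ^ 2 := sq_abs x
  have hEE : 2 + κ ^ 2 ≤ Real.exp κ + Real.exp (-κ) := by
    have := cosh_ge κ; rw [Real.cosh_eq] at this; linarith
  obtain ⟨g0, g1, g2, g3, g4, g5⟩ := real_num2 (E := Real.exp κ) (E' := Real.exp (-κ))
    (X := Real.exp (-x)) (y := |x|) hκ hκb hσ0 h3 h4 hE (by nlinarith only [hE'1])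
    (by nlinarith only [hE'2]) (by rw [hsx]; nlinarith only [hX1, hxa.1, hxa.2])
    (by rw [hsx]; nlinarith only [hX2, hxa.1, hxa.2]) (abs_nonneg x) hx hEE
  have hEE1 : Real.exp κ * Real.exp (-κ) = 1 := by rw [← Real.exp_add]; simp
  have hXX : Real.exp x * Real.exp (-x) = 1 := by rw [← Real.exp_add]; simp
  have ham : ‖exp (-(κ : ℂ)) - exp (-(x : ℂ))‖ = Real.exp (-x) - Real.exp (-κ) := by
    have : exp (-(κ : ℂ)) - exp (-(x : ℂ)) = -((Real.exp (-x) - Real.exp (-κ) : ℝ) : ℂ) := by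
      push_cast; ring
    rw [this, norm_neg, Complex.norm_real, Real.norm_of_nonneg g0]
  have hap : ‖exp (κ : ℂ) - exp (-(x : ℂ))‖ = Real.exp κ - Real.exp (-x) := by
    have : exp (κ : ℂ) - exp (-(x : ℂ)) = ((Real.exp κ - Real.exp (-x) : ℝ) : ℂ) := by
      push_cast; ring
    rw [this, Complex.norm_real, Real.norm_of_nonneg (by linarith)]
  have hv : (Real.exp (-x) - Real.exp (-κ)) * (Real.exp κ - Real.exp (-x)) =
      Real.exp (-x) * σ ^ 2 := by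
    rw [hσ2, Real.cosh_eq, Real.cosh_eq]
    linear_combination -hEE1 + hXX
  have hσsq : 0 < σ ^ 2 := by positivity
  have hk2 : κ ^ 2 ≤ 10201 / 1000000 := by nlinarith only [hκ, hκb]
  have g5' := abs_le.1 g5
  have hk4 : κ ^ 4 ≤ 10201 / 1000000 * κ ^ 2 := by nlinarith only [hk2, sq_nonneg κ]
  have hk2s : κ ^ 2 ≤ 1011 / 10000 * σ := by nlinarith only [h5, hκ, hκb]
  have hYb : |Real.exp x - 1| ≤ 1253 / 10000 * κ ^ 2 := by
    have hY1 := abs_le.1 hY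
    rw [abs_le]
    constructor <;> nlinarith only [hY1.1, hY1.2, hxa.1, hxa.2, hx, hx2, hk4, sq_nonneg κ]
  have hYb' := abs_le.1 hYb
  have hC := cosh_ge κ
  have hC' := cosh_le hκa
  have hζ : (Real.cosh κ : ℂ) - exp (-(x : ℂ)) = ((Real.cosh κ - Real.exp (-x) : ℝ) : ℂ) := by
    push_cast; ring
  have hζ1 : 0 ≤ Real.cosh κ - Real.exp (-x) := by nlinarith only [g5'.2, hC, sq_nonneg κ]
  have hζ2 : Real.cosh κ - Real.exp (-x) ≤ 7 / 100 * σ := by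
    nlinarith only [g5'.1, hC', hk4, hk2s, hσ0, sq_nonneg κ]
  have hζn : ‖(Real.cosh κ : ℂ) - exp (-(x : ℂ))‖ ≤ 7 / 100 * σ := by
    rw [hζ, Complex.norm_real, Real.norm_of_nonneg hζ1]; exact hζ2
  have hepn : ‖exp (x : ℂ) - 1‖ ≤ 2 / 100 * σ := by
    have : exp (x : ℂ) - 1 = ((Real.exp x - 1 : ℝ) : ℂ) := by push_cast; rfl
    rw [this, Complex.norm_real, Real.norm_eq_abs]
    linarith
  refine ⟨?_, by rw [ham, hap]; exact g4, hζn, hepn⟩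
  constructor
  · exact he
  · exact hκ
  · linarith
  · exact hσ0
  · exact hσ
  · exact haσ
  · have : (σ : ℂ) ^ 2 = ((σ ^ 2 : ℝ) : ℂ) := by push_cast; ring
    rw [this, hσ2, ← Complex.ofReal_cosh]; push_cast; ring
  · rw [Complex.norm_real, Real.norm_eq_abs]; linarith
  · have : (x : ℂ) - (κ : ℂ) = ((x - κ : ℝ) : ℂ) := by push_cast; ring
    rw [this, Complex.norm_real, Real.norm_eq_abs]
    have h6 : |x - κ| ≤ |x| + |κ| := abs_sub _ _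
    rw [abs_of_pos hκ] at h6
    linarith
  · rw [ham]; exact g1
  · rw [ham]; exact g2
  · rw [hap]; exact g3
  · rw [ham, hap, hv]; nlinarith only [g5'.2, hσsq, hk2]
  · rw [ham, hap, hv]; nlinarith only [g5'.1, hσsq, hk2]
  · have : 2 * (Real.cosh κ : ℂ) - exp (-(x : ℂ)) = ((2 * Real.cosh κ - Real.exp (-x) : ℝ) : ℂ) := by
      push_cast; ring
    rw [this, Complex.norm_real, Real.norm_eq_abs]
    refine le_trans ?_ (le_abs_self _)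
    nlinarith only [g5'.2, hC, h4, hk4, sq_nonneg κ]
  · rw [hζ, Complex.ofReal_re]; exact hζ1
  · linarith
  · have : exp (x : ℂ) = ((Real.exp x : ℝ) : ℂ) := by push_cast; rfl
    rw [this, Complex.norm_real, Real.norm_of_nonneg (Real.exp_pos x).le]
    nlinarith only [hYb'.2, h2, sq_nonneg κ]
  · have : exp (-(x : ℂ)) = ((Real.exp (-x) : ℝ) : ℂ) := by push_cast; rfl
    rw [this, Complex.norm_real, Real.norm_of_nonneg (Real.exp_pos (-x)).le]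
    nlinarith only [g5'.2, hk2]
  · linarith

end Pool.Agent.helper63.EQC
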