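import Pool.Agent.helper63.EQC.Head5

/-!
# The neutral corner: closing at link 1
-/

namespace Pool.Agent.helper63.EQC

open Complex Pool.Agent.helper31.EQ.W

variable {e κ σ : ℝ} {p δ w : ℂ}

theorem mul_near_one {x y : ℂ} {s t u : ℝ} (hx : ‖x - 1‖ ≤ s) (hy : ‖y - 1‖ ≤ t)
    (hu : s + t + s * t ≤ u) : ‖x * y - 1‖ ≤ u := by
  have e1 : x * y - 1 = (x - 1) + (y - 1) + (x - 1) * (y - 1) := by ring
  rw [e1]
  refine norm_add₃_le.trans ?_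
  rw [norm_mul]
  have h1 := mul_le_mul hx hy (norm_nonneg _) ((norm_nonneg _).trans hx)
  linarith

/-- the radius of `d 2` -/
noncomputable def radK (e κ K : ℝ) (Y : ℂ) : ℂ :=
  (K : ℂ) * ((1 - 2 * (Real.cosh κ : ℂ) * (1 / (2 * (Real.cosh κ : ℂ) - Y)) +
      (1 / (2 * (Real.cosh κ : ℂ) - Y)) ^ 2) *
    ((Real.cosh κ : ℂ) - 1 / (2 * (Real.cosh κ : ℂ) - Y) - (Real.sinh κ : ℂ))) /
    dG e κ (1 / (2 * (Real.cosh κ : ℂ) - Y))

theorem d0_eq (hw0 : w ≠ 0) (hw : w = 2 * (Real.cosh κ : ℂ) - exp (-p) + δ) :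
    d0B e κ p w = w * d1B e κ p w - δ := by
  have h5 : w * d1B e κ p w = w - ((Real.cosh κ : ℂ) + z0B e κ p w) := by
    rw [d1B]; field_simp
  have h6 : δ = w - (2 * (Real.cosh κ : ℂ) - exp (-p)) := by rw [hw]; ring
  rw [d0B, h5, h6]; ring

namespace Ctx

theorem rad_le (h : Ctx e κ σ p δ w) {K t : ℝ} (hK : 0 ≤ K) {x1 : ℂ} (hx1 : ‖x1‖ ≤ t) :
    ‖w‖ * ‖2 * (Real.cosh κ : ℂ) - Y1B e κ p w‖ * ‖radK e κ K (Y1B e κ p w) * x1‖ ≤
      1173 / 1000 * (K * σ ^ 3) * t := by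
  have h1 := h.g_le rfl
  have h2 := h.dG_ge
  have hσ := h.hσ0
  rw [radK, norm_mul, norm_div, norm_mul, Complex.norm_real, Real.norm_of_nonneg hK]
  set G := ‖dG e κ (1 / (2 * (Real.cosh κ : ℂ) - Y1B e κ p w))‖
  set g := ‖(1 - 2 * (Real.cosh κ : ℂ) * (1 / (2 * (Real.cosh κ : ℂ) - Y1B e κ p w)) +
      (1 / (2 * (Real.cosh κ : ℂ) - Y1B e κ p w)) ^ 2) *
    ((Real.cosh κ : ℂ) - 1 / (2 * (Real.cosh κ : ℂ) - Y1B e κ p w) - (Real.sinh κ : ℂ))‖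
  set n := ‖w‖
  set W := ‖2 * (Real.cosh κ : ℂ) - Y1B e κ p w‖
  have hG : 0 < G := by linarith
  have h3 : n * W * (K * g / G * ‖x1‖) = K * (n * W * g) / G * ‖x1‖ := by ring
  rw [h3]
  have h4 : K * (n * W * g) / G ≤ 1173 / 1000 * (K * σ ^ 3) := by
    rw [div_le_iff₀ hG]
    have h5 : K * (n * W * g) ≤ K * (1154 / 1000 * σ ^ 3) := mul_le_mul_of_nonneg_left h1 hK
    have h6 : 0 ≤ K * σ ^ 3 := by positivity
    nlinarith [mul_le_mul_of_nonneg_left h2 h6]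
  have h5 : 0 ≤ K * (n * W * g) / G := by positivity
  have ht : 0 ≤ t := (norm_nonneg _).trans hx1
  calc K * (n * W * g) / G * ‖x1‖ ≤ K * (n * W * g) / G * t := mul_le_mul_of_nonneg_left hx1 h5
    _ ≤ _ := mul_le_mul_of_nonneg_right h4 ht

theorem rad_σ (h : Ctx e κ σ p δ w) {K : ℝ} (hKσ : K * σ ≤ 11 / 100) :
    1173 / 1000 * (K * σ ^ 3) ≤ 130 / 1000 * σ ^ 2 := by
  have := h.hσ0
  have h1 := mul_le_mul_of_nonneg_right hKσ (sq_nonneg σ)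
  nlinarith [sq_nonneg σ]

/-- `1 + a ζ(p)` -/
theorem b_ge (h : Ctx e κ σ p δ w) : 1 ≤ ‖1 + ((e / 2 : ℝ) : ℂ) * zt κ p‖ := by
  have h1 := h.ζ_re
  rw [← zt] at h1
  have h2 := (le_abs_self _).trans (Complex.abs_re_le_norm (1 + ((e / 2 : ℝ) : ℂ) * zt κ p))
  rw [Complex.add_re, Complex.one_re, Complex.re_ofReal_mul] at h2
  have h3 : 0 ≤ e / 2 * (zt κ p).re := mul_nonneg (by linarith [h.he]) h1
  linarith

/-- the preconditioner against the exact one -/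
theorem μ_le (h : Ctx e κ σ p δ w) {m : ℂ}
    (hm : ‖m * (1 + ((e / 2 : ℝ) : ℂ) * zt κ p) ^ 2 - 2 * (2 * (Real.cosh κ : ℂ) - exp (-p))‖ ≤
      87 / 1000 * ‖2 * (2 * (Real.cosh κ : ℂ) - exp (-p))‖) :
    ‖m * ((1 + ((e / 2 : ℝ) : ℂ) * (zt κ p + δ / 2)) *
      (1 + ((e / 2 : ℝ) : ℂ) * ((Real.cosh κ : ℂ) - Y1B e κ p w + d1B e κ p w / 2))) / (2 * w) - 1‖ ≤
      1207 / 10000 := by
  have hb := h.b_ge
  set b := 1 + ((e / 2 : ℝ) : ℂ) * zt κ p with hbdef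
  set W0 := 2 * (Real.cosh κ : ℂ) - exp (-p) with hW0
  set a0 := 1 + ((e / 2 : ℝ) : ℂ) * (zt κ p + δ / 2) with ha0
  set a1 := 1 + ((e / 2 : ℝ) : ℂ) * ((Real.cosh κ : ℂ) - Y1B e κ p w + d1B e κ p w / 2) with ha1
  have hb0 : b ≠ 0 := by intro h0; rw [h0, norm_zero] at hb; norm_num at hb
  have hWn : 1 ≤ ‖W0‖ := by have := h.W0_ge; nlinarith [sq_nonneg σ]
  have hW00 : W0 ≠ 0 := by intro h0; rw [h0, norm_zero] at hWn; norm_num at hWn
  have hw0 := h.w1_ne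
  have he : 0 < e / 2 := by linarith [h.he]
  have e1 : m * (a0 * a1) / (2 * w) - 1 =
      (m * b ^ 2 / (2 * W0)) * (W0 / w) * (a0 / b) * (a1 / b) - 1 := by
    field_simp
  rw [e1]
  have t1 : ‖m * b ^ 2 / (2 * W0) - 1‖ ≤ 87 / 1000 := by
    have : m * b ^ 2 / (2 * W0) - 1 = (m * b ^ 2 - 2 * W0) / (2 * W0) := by field_simp
    rw [this, norm_div, div_le_iff₀ (by rw [norm_mul, Complex.norm_ofNat]; linarith)]
    exact hm
  have t2 : ‖W0 / w - 1‖ ≤ 74 / 10000 := by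
    have e2 : W0 / w - 1 = -(δ / w) := by
      have : W0 = w - δ := by rw [h.hw]; ring
      rw [this]; field_simp; ring
    rw [e2, norm_neg, norm_div]
    refine (div_le_self (norm_nonneg _) h.w1_gt.le).trans ?_
    have h1 := h.δ_σ
    have h2 := h.hσ
    linarith
  have t3 : ‖a0 / b - 1‖ ≤ 37 / 10000 := by
    have e2 : a0 / b - 1 = ((e / 2 : ℝ) : ℂ) * δ / 2 / b := by
      rw [ha0, hbdef] at *; field_simp; ring
    rw [e2, norm_div]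
    refine (div_le_self (norm_nonneg _) hb).trans ?_
    rw [norm_div, norm_mul, Complex.norm_real, Real.norm_of_nonneg he.le, Complex.norm_ofNat]
    have := h.aδ
    linarith
  have t4 : ‖a1 / b - 1‖ ≤ 195 / 10000 := by
    have e2 : a1 / b - 1 = ((e / 2 : ℝ) : ℂ) * ((w * exp (-p) - 1) / w - d1B e κ p w / 2) / b := by
      have h1 := Y1_sub (e := e) (κ := κ) (p := p) hw0
      have h2 : (w * exp (-p) - 1) / w = exp (-p) - 1 / w := by field_simp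
      rw [h2, ← h1, div_sub_one hb0]
      congr 1
      rw [ha1, hbdef, zt]; ring
    rw [e2, norm_div]
    refine (div_le_self (norm_nonneg _) hb).trans ?_
    rw [norm_mul, Complex.norm_real, Real.norm_of_nonneg he.le]
    have h3 : ‖(w * exp (-p) - 1) / w - d1B e κ p w / 2‖ ≤ 1946 / 1000 * σ ^ 2 := by
      refine (norm_sub_le _ _).trans ?_
      rw [norm_div, norm_div, Complex.norm_ofNat]
      have h4 := (div_le_self (norm_nonneg _) h.w1_gt.le).trans h.w_em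
      have h5 := h.d1_le
      linarith
    have h4 : e / 2 * ‖(w * exp (-p) - 1) / w - d1B e κ p w / 2‖ ≤ e / 2 * (1946 / 1000 * σ ^ 2) :=
      mul_le_mul_of_nonneg_left h3 he.le
    have h5 := h.haσ
    have h6 := h.hσ
    have h7 := h.hσ0
    have h8 : e / 2 * σ * σ ≤ 1 / 10 * σ := mul_le_mul_of_nonneg_right h5 h7.le
    nlinarith
  have s1 := mul_near_one t1 t2 (u := 951 / 10000) (by norm_num)
  have s2 := mul_near_one s1 t3 (u := 992 / 10000) (by norm_num)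
  exact mul_near_one s2 t4 (u := 1207 / 10000) (by norm_num)

/-- **closing at link 1 in the neutral corner** -/
theorem close (h : Ctx e κ σ p δ w) {K : ℝ} (hK : 0 ≤ K) (hKσ : K * σ ≤ 11 / 100)
    {c r m x0 x1 : ℂ} (hw1 : w = c + r * x0) (hx0 : ‖x0‖ ≤ 1) (hx1 : ‖x1‖ ≤ 1)
    (hc : ‖c - (2 * (Real.cosh κ : ℂ) - exp (-p))‖ ≤ 1 / 100 * ‖r‖)
    (hr : 55 / 100 * σ ^ 2 ≤ ‖r‖)
    (hm : ‖m * (1 + ((e / 2 : ℝ) : ℂ) * zt κ p) ^ 2 - 2 * (2 * (Real.cosh κ : ℂ) - exp (-p))‖ ≤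
      87 / 1000 * ‖2 * (2 * (Real.cosh κ : ℂ) - exp (-p))‖) :
    ‖r * x0 - m * FW e κ (Y1B e κ p w) (d1B e κ p w) (radK e κ K (Y1B e κ p w) * x1)‖ ≤
      4 / 5 * ‖r‖ := by
  have h1 := h.rad_le hK hx1
  rw [mul_one] at h1
  have h2 := h.rad_σ hKσ
  have h3 := h.N0_le h1 h2
  have h4 := h.μ_le hm
  set F := FW e κ (Y1B e κ p w) (d1B e κ p w) (radK e κ K (Y1B e κ p w) * x1)
  set a0 := 1 + ((e / 2 : ℝ) : ℂ) * (zt κ p + δ / 2) with ha0
  set a1 := 1 + ((e / 2 : ℝ) : ℂ) * ((Real.cosh κ : ℂ) - Y1B e κ p w + d1B e κ p w / 2) with ha1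
  set μ := m * (a0 * a1) / (2 * w) with hμ
  have hw0 := h.w1_ne
  have ha0n : 9963 / 10000 ≤ ‖a0‖ := h.a0_ge
  have ha1n : 9937 / 10000 ≤ ‖a1‖ := h.a1_ge
  have ha00 : a0 ≠ 0 := by intro h0; rw [h0, norm_zero] at ha0n; norm_num at ha0n
  have ha10 : a1 ≠ 0 := by intro h0; rw [h0, norm_zero] at ha1n; norm_num at ha1n
  have hmμ : m = μ * (2 * w / (a0 * a1)) := by rw [hμ]; field_simp
  have hrx : r * x0 = δ - (c - (2 * (Real.cosh κ : ℂ) - exp (-p))) := by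
    have h5 : r * x0 = w - c := by rw [hw1]; ring
    rw [h5, h.hw]; ring
  have e1 : r * x0 - m * F = (1 - μ) * (r * x0) + μ * ((δ - 2 * w / (a0 * a1) * F) -
      (c - (2 * (Real.cosh κ : ℂ) - exp (-p)))) := by
    rw [hmμ, hrx]; ring
  rw [e1]
  refine (norm_add_le _ _).trans ?_
  rw [norm_mul, norm_mul, norm_mul]
  have h5 : ‖1 - μ‖ ≤ 1207 / 10000 := by rw [norm_sub_rev]; exact h4
  have h6 : ‖μ‖ ≤ 11207 / 10000 := by
    have := norm_add_le (μ - 1) 1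
    rw [sub_add_cancel, norm_one] at this
    linarith
  have h7 : ‖(δ - 2 * w / (a0 * a1) * F) - (c - (2 * (Real.cosh κ : ℂ) - exp (-p)))‖ ≤
      (2034 / 1000 * (130 / 1000 * σ ^ 2) + 162 / 10 * (347 / 100000 * σ ^ 2)) + 1 / 100 * ‖r‖ := by
    refine (norm_sub_le _ _).trans (add_le_add (h3.trans ?_) hc)
    have := h.kE5_le
    linarith
  have h8 : ‖r‖ * ‖x0‖ ≤ ‖r‖ := mul_le_of_le_one_right (norm_nonneg _) hx0
  have h9 : ‖1 - μ‖ * (‖r‖ * ‖x0‖) ≤ 1207 / 10000 * ‖r‖ :=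
    mul_le_mul h5 h8 (by positivity) (by norm_num)
  have h10 := mul_le_mul h6 h7 (norm_nonneg _) (by norm_num)
  nlinarith [norm_nonneg r]

/-- deviation of node 0 -/
theorem d0_le (h : Ctx e κ σ p δ w) :
    ‖d0B e κ p w‖ ≤ 5519 / 10000 * ‖δ‖ + 205 / 100 * (kE e * σ ^ 5) := by
  obtain ⟨z, hz1, hz2⟩ := h.exists_z1
  have he : 0 < e := by linarith [h.he]
  have h1 := h.z1_le hz2
  have h2 := h.hσ0
  have h3 := h.hσ
  rw [d0_eq h.w1_ne h.hw,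
    w_d1 he h.hw h.w1_ne hz1 (by linarith) (small_of he h.haσ (by linarith))]
  have e1 : δ / 2 * (1 + ((e / 2 : ℝ) : ℂ) * (zt κ p + δ / 2)) -
      (w * Ez e κ z - exp (-p) * Ez e κ p) / 2 - δ =
      -(δ / 2 * (1 - ((e / 2 : ℝ) : ℂ) * (zt κ p + δ / 2))) -
      (w * Ez e κ z - exp (-p) * Ez e κ p) / 2 := by
    ring
  rw [e1]
  refine (norm_sub_le _ _).trans ?_
  rw [norm_neg, norm_mul, norm_div, norm_div, Complex.norm_ofNat]
  have h4 := h.a0_sub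
  have h5 := h.T1_kE hz2
  have h6 : ‖1 - ((e / 2 : ℝ) : ℂ) * (zt κ p + δ / 2)‖ ≤ 11037 / 10000 := by
    refine (norm_sub_le _ _).trans ?_
    rw [norm_one]; linarith
  have h7 := mul_le_mul_of_nonneg_left h6 (by positivity : (0:ℝ) ≤ ‖δ‖ / 2)
  have := h.kE5
  have := norm_nonneg δ
  linarith

/-- at a zero of the law, the first node is close to `W0` -/
theorem δ_fix (h : Ctx e κ σ p δ w) {K : ℝ} (hK : 0 ≤ K) (hKσ : K * σ ≤ 11 / 100) {x1 : ℂ}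
    (hx1 : ‖x1‖ ≤ 3 / 5)
    (hF : FW e κ (Y1B e κ p w) (d1B e κ p w) (radK e κ K (Y1B e κ p w) * x1) = 0) :
    ‖δ‖ ≤ 1432 / 1000 * (K * σ ^ 3) + 162 / 10 * (kE e * σ ^ 5) := by
  have h1 := h.rad_le hK hx1
  have h2 := h.rad_σ hKσ
  have h0 : 0 ≤ K * σ ^ 3 := by have := h.hσ0; positivity
  have h3 := h.N0_le h1 (by linarith)
  rw [hF, mul_zero, sub_zero] at h3
  linarith

end Ctx

end Pool.Agent.helper63.EQC
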