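import Pool.Agent.helper63.EQC.AsmMain
import Pool.Agent.helper63.EQC.Head6
import Pool.Agent.helper63.EQC.CrnInst

/-!
# The neutral corner: pointwise conditions of the head
-/

namespace Pool.Agent.helper63.EQC

open Complex Pool.Agent.helper31.EQ.W

variable {e κ σ θ K : ℝ} {p δ w : ℂ} {Ω : Set ℂ} {r : ℂ → ℂ} {H : HeadFn}

theorem HP.mono (h : HP e κ θ Ω r H p) {θ' : ℝ} (hθ : θ ≤ θ') : HP e κ θ' Ω r H p :=
  ⟨h.cosh_slit, h.r1_ne, h.h_ne, h.w_slit, h.w_norm, h.mem, fun x0 x1 h0 h1 =>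
    (h.close x0 x1 h0 h1).trans_le (mul_le_mul_of_nonneg_right hθ (norm_nonneg _))⟩

/-- what the corner needs from the tail -/
structure TailC (e κ K : ℝ) (Ω : Set ℂ) (r : ℂ → ℂ) : Prop where
  mem : ∀ Y : ℂ, 2 * (Real.cosh κ : ℂ) - Y ≠ 0 →
    ‖(Real.cosh κ : ℂ) - 1 / (2 * (Real.cosh κ : ℂ) - Y) - (Real.sinh κ : ℂ)‖ <
      Real.exp (-(4 * κ)) *
      ‖(Real.cosh κ : ℂ) - 1 / (2 * (Real.cosh κ : ℂ) - Y) + (Real.sinh κ : ℂ)‖ →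
    ‖1 - 2 * (Real.cosh κ : ℂ) * (1 / (2 * (Real.cosh κ : ℂ) - Y)) +
      (1 / (2 * (Real.cosh κ : ℂ) - Y)) ^ 2‖ ≤ 11 / 1000 →
    (Real.cosh κ : ℂ) - Y - (Real.sinh κ : ℂ) ≠ 0 → Y ∈ Ω
  r_eq : ∀ Y : ℂ, r Y = radK e κ K Y
  K0 : 0 ≤ K

/-- bounds of the head functions in the corner -/
structure HB (e κ σ : ℝ) (H : HeadFn) (p : ℂ) : Prop where
  c1 : ‖H.c1 p - (2 * (Real.cosh κ : ℂ) - exp (-p))‖ ≤ 1 / 100 * ‖H.r1 p‖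
  r1_ge : 55 / 100 * σ ^ 2 ≤ ‖H.r1 p‖
  r1_le : ‖H.r1 p‖ ≤ 725 / 1000 * σ ^ 2
  h : ‖2 * (2 * (Real.cosh κ : ℂ) - exp (-p)) * H.h p -
      (1 + ((e / 2 : ℝ) : ℂ) * ((Real.cosh κ : ℂ) - exp (-p))) ^ 2‖ ≤
    8 / 100 * ‖1 + ((e / 2 : ℝ) : ℂ) * ((Real.cosh κ : ℂ) - exp (-p))‖ ^ 2

theorem HB.δ_le (hb : HB e κ σ H p) {x0 : ℂ} (hx : ‖x0‖ ≤ 1) :
    ‖H.c1 p + H.r1 p * x0 - (2 * (Real.cosh κ : ℂ) - exp (-p))‖ ≤ 101 / 100 * ‖H.r1 p‖ := by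
  have e1 : H.c1 p + H.r1 p * x0 - (2 * (Real.cosh κ : ℂ) - exp (-p)) =
      (H.c1 p - (2 * (Real.cosh κ : ℂ) - exp (-p))) + H.r1 p * x0 := by ring
  rw [e1]
  refine (norm_add_le _ _).trans ?_
  rw [norm_mul]
  have := hb.c1
  have h2 : ‖H.r1 p‖ * ‖x0‖ ≤ ‖H.r1 p‖ := mul_le_of_le_one_right (norm_nonneg _) hx
  linarith

theorem HB.ctx (hb : HB e κ σ H p) (h : Crn e κ σ p) {x0 : ℂ} (hx : ‖x0‖ ≤ 1) :
    Ctx e κ σ p (H.c1 p + H.r1 p * x0 - (2 * (Real.cosh κ : ℂ) - exp (-p)))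
      (H.c1 p + H.r1 p * x0) := by
  refine { toCrn := h, δ_σ2 := ?_, hw := by ring }
  have h1 := hb.δ_le hx
  have h2 := hb.r1_le
  have := h.hσ0
  nlinarith [sq_nonneg σ]

theorem HB.ζ_pos (h : Crn e κ σ p) :
    1 ≤ ‖1 + ((e / 2 : ℝ) : ℂ) * ((Real.cosh κ : ℂ) - exp (-p))‖ := by
  have h1 := h.ζ_re
  have h2 := (le_abs_self _).trans (Complex.abs_re_le_norm
    (1 + ((e / 2 : ℝ) : ℂ) * ((Real.cosh κ : ℂ) - exp (-p))))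
  rw [Complex.add_re, Complex.one_re, Complex.re_ofReal_mul] at h2
  have h3 : 0 ≤ e / 2 * ((Real.cosh κ : ℂ) - exp (-p)).re := mul_nonneg (by linarith [h.he]) h1
  linarith

theorem HB.h_ne (hb : HB e κ σ H p) (h : Crn e κ σ p) : H.h p ≠ 0 := by
  intro h0
  have h1 := hb.h
  have h2 := HB.ζ_pos h
  rw [h0, mul_zero, zero_sub, norm_neg, norm_pow] at h1
  nlinarith

/-- the preconditioner hypothesis of `Ctx.close` -/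
theorem HB.m_le (hb : HB e κ σ H p) (h : Crn e κ σ p) :
    ‖(H.h p)⁻¹ * (1 + ((e / 2 : ℝ) : ℂ) * zt κ p) ^ 2 - 2 * (2 * (Real.cosh κ : ℂ) - exp (-p))‖ ≤
      87 / 1000 * ‖2 * (2 * (Real.cosh κ : ℂ) - exp (-p))‖ := by
  have h1 := hb.h
  have h2 := HB.ζ_pos h
  have h3 := hb.h_ne h
  rw [zt]
  set b := 1 + ((e / 2 : ℝ) : ℂ) * ((Real.cosh κ : ℂ) - exp (-p)) with hb'
  set W0 := 2 * (Real.cosh κ : ℂ) - exp (-p) with hW0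
  have e1 : (H.h p)⁻¹ * b ^ 2 - 2 * W0 = -((H.h p)⁻¹ * (2 * W0 * H.h p - b ^ 2)) := by
    field_simp
    ring
  have h4 : 92 / 100 * ‖b‖ ^ 2 ≤ ‖2 * W0‖ * ‖H.h p‖ := by
    have h5 := norm_sub_norm_le (b ^ 2) (b ^ 2 - 2 * W0 * H.h p)
    rw [norm_sub_rev (b ^ 2) (2 * W0 * H.h p), sub_sub_cancel, norm_pow, norm_mul (2 * W0)] at h5
    linarith
  have hn : 0 < ‖H.h p‖ := norm_pos_iff.2 h3
  rw [e1, norm_neg, norm_mul, norm_inv]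
  have h5 : ‖H.h p‖⁻¹ * ‖2 * W0 * H.h p - b ^ 2‖ ≤ ‖H.h p‖⁻¹ * (8 / 100 * ‖b‖ ^ 2) :=
    mul_le_mul_of_nonneg_left h1 (by positivity)
  refine h5.trans ?_
  have h6 : 8 / 100 * ‖b‖ ^ 2 ≤ 87 / 1000 * ‖2 * W0‖ * ‖H.h p‖ := by
    have : 0 ≤ ‖b‖ ^ 2 := by positivity
    nlinarith
  calc ‖H.h p‖⁻¹ * (8 / 100 * ‖b‖ ^ 2) ≤ ‖H.h p‖⁻¹ * (87 / 1000 * ‖2 * W0‖ * ‖H.h p‖) :=
        mul_le_mul_of_nonneg_left h6 (by positivity)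
    _ = 87 / 1000 * ‖2 * W0‖ := by field_simp

/-- **corner**: the pointwise conditions -/
theorem HB.hp (hb : HB e κ σ H p) (h : Crn e κ σ p) (t : TailC e κ K Ω r)
    (hKσ : K * σ ≤ 11 / 100)
    (hpos : ∀ δ w : ℂ, Ctx e κ σ p δ w → ‖δ‖ ≤ 101 / 100 * ‖H.r1 p‖ →
      ‖am κ p + Dm e κ p δ w‖ < ‖ap κ p + Dp e κ p δ w‖) :
    HP e κ (81 / 100) Ω r H p := by
  have hσ := h.hσ0
  have hr0 : 0 < ‖H.r1 p‖ := by
    have := hb.r1_ge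
    have : 0 < σ ^ 2 := by positivity
    linarith
  have he : 0 < e := by linarith [h.he]
  refine ⟨?_, norm_pos_iff.1 hr0, hb.h_ne h, ?_, ?_, ?_, ?_⟩
  · have h1 := small_of he h.haσ (z := p) (by linarith [h.hp])
    exact Or.inl (cosh_ne h1).2.1
  · intro x0 hx0
    exact (hb.ctx h hx0).w1_slit
  · intro x0 hx0
    exact (hb.ctx h hx0).w1_gt
  · intro x0 hx0
    have c := hb.ctx h hx0
    refine t.mem _ c.W1_ne (c.position (hpos _ _ c (hb.δ_le hx0))) ?_ c.z1m_ne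
    refine (c.v2_small rfl).trans ?_
    have := h.hσ
    nlinarith
  · intro x0 x1 hx0 hx1
    have c := hb.ctx h hx0
    have h1 := c.close t.K0 hKσ (m := (H.h p)⁻¹) rfl hx0 hx1 hb.c1 hb.r1_ge (hb.m_le h)
    rw [← t.r_eq] at h1
    refine h1.trans_lt ?_
    linarith

/-- imaginary side of the corner -/
theorem hp_imag {φ : ℝ} (he : 1 < e) (hκ : 0 < κ) (hφ : |φ| ≤ 3) (hσ0 : 0 < σ)
    (hσ2 : σ ^ 2 = 2 * (Real.cosh κ - Real.cos φ)) (hσ : σ ≤ 1 / 10) (haσ : e / 2 * σ ≤ 1 / 10)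
    (t : TailC e κ K Ω r) (hKσ : K * σ ≤ 11 / 100) (hb : HB e κ σ H ((φ : ℂ) * I)) :
    HP e κ (81 / 100) Ω r H ((φ : ℂ) * I) := by
  obtain ⟨h, hr⟩ := crn_imag he hκ hφ hσ0 hσ2 hσ haσ
  exact hb.hp h t hKσ (fun δ w c _ => c.am_lt_ap hr)

/-- real side of the corner -/
theorem hp_real {x : ℝ} (he : 1 < e) (hκ : 0 < κ) (hκ1 : κ ≤ 1) (hx : |x| ≤ 1 / 8 * κ ^ 2)
    (hσ0 : 0 < σ) (hσ2 : σ ^ 2 = 2 * (Real.cosh κ - Real.cosh x)) (hσ : σ ≤ 1 / 10)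
    (haσ : e / 2 * σ ≤ 1 / 10) (t : TailC e κ K Ω r) (hKσ : K * σ ≤ 11 / 100)
    (hb : HB e κ σ H (x : ℂ)) (hr : ‖H.r1 (x : ℂ)‖ ≤ 675 / 1000 * σ ^ 2) :
    HP e κ (81 / 100) Ω r H (x : ℂ) := by
  obtain ⟨h, hr1, hr2, hr3⟩ := crn_real he hκ hκ1 hx hσ0 hσ2 hσ haσ
  refine hb.hp h t hKσ (fun δ w c hδ => c.am_lt_ap_real hr1 ?_ hr3 ?_)
  · rw [zt]; exact hr2
  · nlinarith [sq_nonneg σ]

theorem σ_κ {x : ℝ} (hκ : 0 < κ) (hκ1 : κ ≤ 101 / 1000)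
    (hσ2 : σ ^ 2 = 2 * (Real.cosh κ - Real.cosh x)) : σ ^ 2 ≤ 10011 / 10000 * κ ^ 2 := by
  have h1 := Real.one_le_cosh x
  have h2 := cosh_le (x := κ) (by rw [abs_of_pos hκ]; linarith)
  have h3 : κ ^ 4 ≤ 10201 / 1000000 * κ ^ 2 := by
    have h4 : κ ^ 2 ≤ 10201 / 1000000 := by nlinarith
    have h5 : κ ^ 4 = κ ^ 2 * κ ^ 2 := by ring
    rw [h5]
    exact mul_le_mul_of_nonneg_right h4 (sq_nonneg _)
  nlinarith [sq_nonneg κ]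

/-- the slope condition in the corner -/
theorem rs_real {x : ℝ} (hκ1 : κ ≤ 1) (hx : |x| ≤ 1 / 8 * κ ^ 2)
    (hσ2 : σ ^ 2 = 2 * (Real.cosh κ - Real.cosh x)) (h : Crn e κ σ (x : ℂ))
    (hb : HB e κ σ H (x : ℂ)) : RS e κ H (x : ℂ) := by
  intro x0 hx0
  have he : 0 < e := by linarith [h.he]
  have hκ := h.hκ
  have hκ2 : κ ≤ 101 / 1000 := by linarith [h.hκσ, h.hσ]
  have c := hb.ctx h hx0
  have h1 := c.d0_le
  have h2 := c.δ_σ2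
  have h3 := c.kE5_le
  have h4 := σ_κ hκ hκ2 hσ2
  have h5 : ‖d0B e κ (x : ℂ) (H.c1 (x : ℂ) + H.r1 (x : ℂ) * x0)‖ ≤ 413 / 1000 * κ ^ 2 := by
    nlinarith [sq_nonneg κ]
  have hκκ : κ ^ 2 ≤ 101 / 1000 * κ := by nlinarith
  have hx1 : |x| ≤ 1 / 100 := by nlinarith
  have hs : ‖2 * sinh ((x : ℂ) / 2)‖ ≤ 1 / 7 * κ ^ 2 := by
    have e1 : 2 * sinh ((x : ℂ) / 2) = ((2 * Real.sinh (x / 2) : ℝ) : ℂ) := by push_cast; ring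
    rw [e1, Complex.norm_real, Real.norm_eq_abs, abs_mul, abs_of_pos (by norm_num : (0:ℝ) < 2)]
    have h6 := sinh_bd3 (y := ((x / 2 : ℝ) : ℂ)) (by
      rw [Complex.norm_real, Real.norm_eq_abs, abs_div, abs_of_pos (by norm_num : (0:ℝ) < 2)]
      linarith)
    rw [← Complex.ofReal_sinh, ← Complex.ofReal_sub, Complex.norm_real, Complex.norm_real,
      Real.norm_eq_abs, Real.norm_eq_abs] at h6
    have h7 : |Real.sinh (x / 2)| ≤ |Real.sinh (x / 2) - x / 2| + |x / 2| := by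
      simpa using abs_add_le (Real.sinh (x / 2) - x / 2) (x / 2)
    have h8 : |x / 2| = |x| / 2 := by rw [abs_div, abs_of_pos (by norm_num : (0:ℝ) < 2)]
    rw [h8] at h6 h7
    have h9 : (|x| / 2) ^ 3 ≤ 1 / 10000 * |x| := by
      have h10 := abs_nonneg x
      have h11 : |x| ^ 2 ≤ 1 / 10000 := by nlinarith
      have h12 : (|x| / 2) ^ 3 = |x| ^ 2 * |x| / 8 := by ring
      rw [h12]
      nlinarith
    have := abs_nonneg x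
    linarith
  have hex : ‖exp ((x : ℂ) / 2)‖ ≤ 11 / 10 := by
    have e1 : ‖exp ((x : ℂ) / 2)‖ = Real.exp (x / 2) := by
      rw [Complex.norm_exp]; congr 1; simp
    rw [e1]
    have h6 : x / 2 ≤ 1 / 100 := by have := le_abs_self x; linarith
    refine (Real.exp_le_exp.2 h6).trans ?_
    have h7 := Real.abs_exp_sub_one_sub_id_le (x := 1 / 100) (by norm_num)
    have h8 := (abs_le.1 h7).2
    norm_num at h8 ⊢
    linarith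
  have h6 : ‖2 * sinh ((x : ℂ) / 2) - exp ((x : ℂ) / 2) *
      d0B e κ (x : ℂ) (H.c1 (x : ℂ) + H.r1 (x : ℂ) * x0)‖ < κ := by
    refine lt_of_le_of_lt (norm_sub_le _ _) ?_
    rw [norm_mul (exp _)]
    have h7 := mul_le_mul hex h5 (norm_nonneg _) (by norm_num)
    nlinarith
  have h7 : κ ≤ 2 * Real.sinh (κ / 2) := by
    have := Real.self_le_sinh_iff.2 (by linarith : (0:ℝ) ≤ κ / 2)
    linarith
  have hch : ‖cosh ((e : ℂ) * (x : ℂ) / 2)‖ ≤ Real.cosh (e * κ / 2) := by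
    have e1 : (e : ℂ) * (x : ℂ) / 2 = ((e * x / 2 : ℝ) : ℂ) := by push_cast; ring
    rw [e1, ← Complex.ofReal_cosh, Complex.norm_real, Real.norm_of_nonneg (Real.cosh_pos _).le]
    refine Real.cosh_le_cosh.2 ?_
    rw [abs_div, abs_div, abs_mul, abs_mul, abs_of_pos he, abs_of_pos hκ]
    have : |x| ≤ κ := by nlinarith
    gcongr
  have h8 : ‖cosh ((e : ℂ) * (x : ℂ) / 2)‖ ^ (1 / e) ≤ Real.cosh (e * κ / 2) ^ (1 / e) :=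
    Real.rpow_le_rpow (norm_nonneg _) hch (by positivity)
  have h9 : 0 < Real.cosh (e * κ / 2) ^ (1 / e) := Real.rpow_pos_of_pos (Real.cosh_pos _) _
  calc _ ≤ ‖2 * sinh ((x : ℂ) / 2) - exp ((x : ℂ) / 2) *
        d0B e κ (x : ℂ) (H.c1 (x : ℂ) + H.r1 (x : ℂ) * x0)‖ * Real.cosh (e * κ / 2) ^ (1 / e) :=
        mul_le_mul_of_nonneg_left h8 (norm_nonneg _)
    _ < 2 * Real.sinh (κ / 2) * Real.cosh (e * κ / 2) ^ (1 / e) :=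
        mul_lt_mul_of_pos_right (h6.trans_le h7) h9

theorem Ctx.δ_fix' (h : Ctx e κ σ p δ w) {K t : ℝ} (hK : 0 ≤ K) (hKσ : K * σ ≤ 11 / 100) {x1 : ℂ}
    (hx1 : ‖x1‖ ≤ t) (ht : t ≤ 1)
    (hF : FW e κ (Y1B e κ p w) (d1B e κ p w) (radK e κ K (Y1B e κ p w) * x1) = 0) :
    ‖δ‖ ≤ 2386 / 1000 * (K * σ ^ 3) * t + 162 / 10 * (kE e * σ ^ 5) := by
  have h1 := h.rad_le hK hx1
  have h2 := h.rad_σ hKσ
  have h0 : 0 ≤ K * σ ^ 3 := by have := h.hσ0; positivity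
  have ht0 : 0 ≤ t := (norm_nonneg _).trans hx1
  have h4 : 0 ≤ K * σ ^ 3 * t := by positivity
  have h5 : 1173 / 1000 * (K * σ ^ 3) * t ≤ 1173 / 1000 * (K * σ ^ 3) :=
    mul_le_of_le_one_right (by positivity) ht
  have h3 := h.N0_le h1 (by linarith)
  rw [hF, mul_zero, sub_zero] at h3
  nlinarith

/-- deviation of node 0 at a solution -/
theorem d0_sol {x : ℝ} {x0 x1 : ℂ} {t : ℝ} (hκ1 : κ ≤ 1)
    (hσ2 : σ ^ 2 = 2 * (Real.cosh κ - Real.cosh x)) (h : Crn e κ σ (x : ℂ))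
    (hb : HB e κ σ H (x : ℂ)) (hK : 0 ≤ K) (hKσ : K * σ ≤ 11 / 100)
    (hx0 : ‖x0‖ ≤ 1) (hx1 : ‖x1‖ ≤ t) (ht : t ≤ 1)
    (hF : FW e κ (Y1B e κ (x : ℂ) (H.c1 (x : ℂ) + H.r1 (x : ℂ) * x0))
      (d1B e κ (x : ℂ) (H.c1 (x : ℂ) + H.r1 (x : ℂ) * x0))
      (radK e κ K (Y1B e κ (x : ℂ) (H.c1 (x : ℂ) + H.r1 (x : ℂ) * x0)) * x1) = 0)
    (hnum : 1317 / 1000 * (K * σ) * t + 10991 / 1000 * (kE e * σ ^ 3) ≤ 1247 / 10000) :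
    ‖d0B e κ (x : ℂ) (H.c1 (x : ℂ) + H.r1 (x : ℂ) * x0)‖ < 1 - Real.exp (-(1 / 8 * κ ^ 2)) := by
  have hκ := h.hκ
  have hσ := h.hσ0
  have hκ2 : κ ≤ 101 / 1000 := by linarith [h.hκσ, h.hσ]
  have c := hb.ctx h hx0
  have h1 := c.d0_le
  have h2 := c.δ_fix' hK hKσ hx1 ht hF
  have h4 := σ_κ hκ hκ2 hσ2
  have ht0 : 0 ≤ t := (norm_nonneg _).trans hx1
  have h5 : ‖d0B e κ (x : ℂ) (H.c1 (x : ℂ) + H.r1 (x : ℂ) * x0)‖ ≤ 1247 / 10000 * σ ^ 2 := by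
    have h6 := mul_le_mul_of_nonneg_right hnum (sq_nonneg σ)
    have h7 : 0 ≤ K * σ ^ 3 * t := by positivity
    have h8 := c.kE5
    nlinarith
  have h6 := Real.abs_exp_sub_one_sub_id_le (x := -(1 / 8 * κ ^ 2)) (by
    rw [abs_neg, abs_of_nonneg (by positivity)]; nlinarith)
  have h7 := (abs_le.1 h6).2
  have h8 : (-(1 / 8 * κ ^ 2)) ^ 2 ≤ 16 / 100000 * κ ^ 2 := by
    have h9 : κ ^ 2 ≤ 10201 / 1000000 := by nlinarith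
    have e1 : (-(1 / 8 * κ ^ 2)) ^ 2 = 1 / 64 * (κ ^ 2 * κ ^ 2) := by ring
    rw [e1]
    have := mul_le_mul_of_nonneg_right h9 (sq_nonneg κ)
    nlinarith
  have h9 : 0 < κ ^ 2 := by positivity
  nlinarith

end Pool.Agent.helper63.EQC
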