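import Pool.Agent.helper63.EQC.Corner
import Pool.Agent.helper4.EQW.Step

/-!
# The neutral corner: the radius of helper4's tail
-/

namespace Pool.Agent.helper63.EQC

open Complex Pool.Agent.helper31.EQ.W

variable {e κ σ θ K : ℝ} {p δ w : ℂ} {Ω : Set ℂ} {r : ℂ → ℂ} {H : HeadFn}

open Pool.Agent.helper4.EQW (KK rT nx gK v2 G1 f0 LT OT)

theorem rT_eq (Y : ℂ) : rT e κ Y = radK e κ (KK e κ) Y := rfl

theorem KK_nn : 0 ≤ KK e κ := by rw [KK]; positivity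

/-- the abstract tail interface of the corner for a region `‖v2‖ < V`, `V > 11/1000` -/
theorem tailC_of {Ω : Set ℂ} {V : ℝ} (hV : 11 / 1000 < V)
    (hΩ : ∀ Y : ℂ, 2 * (Real.cosh κ : ℂ) - Y ≠ 0 →
      ‖nx κ Y - ((Real.exp (-κ) : ℝ) : ℂ)‖ < Real.exp (-(4 * κ)) * ‖nx κ Y - ((Real.exp κ : ℝ) : ℂ)‖ →
      ‖v2 κ (nx κ Y)‖ < V → Y ≠ ((Real.exp (-κ) : ℝ) : ℂ) → Y ∈ Ω) :
    TailC e κ (KK e κ) Ω (rT e κ) := by
  have e1 : ((Real.exp (-κ) : ℝ) : ℂ) = (Real.cosh κ : ℂ) - (Real.sinh κ : ℂ) := by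
    rw [← Real.cosh_sub_sinh]; push_cast; ring
  have e2 : ((Real.exp κ : ℝ) : ℂ) = (Real.cosh κ : ℂ) + (Real.sinh κ : ℂ) := by
    rw [← Real.cosh_add_sinh]; push_cast; ring
  refine ⟨?_, rT_eq, KK_nn⟩
  intro Y h1 h2 h3 h4
  refine hΩ Y h1 ?_ (lt_of_le_of_lt h3 hV) ?_
  · have e3 : nx κ Y - ((Real.exp (-κ) : ℝ) : ℂ) =
        -((Real.cosh κ : ℂ) - 1 / (2 * (Real.cosh κ : ℂ) - Y) - (Real.sinh κ : ℂ)) := by
      rw [e1, nx]; ring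
    have e4 : nx κ Y - ((Real.exp κ : ℝ) : ℂ) =
        -((Real.cosh κ : ℂ) - 1 / (2 * (Real.cosh κ : ℂ) - Y) + (Real.sinh κ : ℂ)) := by
      rw [e2, nx]; ring
    rw [e3, e4, norm_neg, norm_neg]
    exact h2
  · intro h0
    apply h4
    rw [h0, e1]; ring

theorem tailC_OT : TailC e κ (KK e κ) (OT κ) (rT e κ) :=
  tailC_of (V := 1 / 5) (by norm_num) (fun _ h1 h2 h3 h4 => ⟨h1, ⟨h2, h3⟩, h4⟩)

theorem KKσ (he : 0 < e) (hκ : 0 < κ) (hκσ : κ ≤ 101 / 100 * σ) (hσ0 : 0 < σ) (hσ : σ ≤ 1 / 10)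
    (haσ : e / 2 * σ ≤ 1 / 10) : KK e κ * σ ≤ e / 40 + 307 / 100000 := by
  have h1 : Real.tanh (e * κ / 2) ≤ e * κ / 2 :=
    Pool.Agent.helper4.EQW.tanh_le_self (by positivity)
  have h0 : 0 < Real.tanh (e * κ / 2) := Pool.Agent.helper4.EQW.tanh_pos (by positivity)
  have h2 : e * κ / 2 ≤ 101 / 1000 := by
    have : e / 2 * κ ≤ e / 2 * (101 / 100 * σ) := mul_le_mul_of_nonneg_left hκσ (by positivity)
    linarith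
  have h3 : Real.tanh (e * κ / 2) ^ 2 ≤ 10201 / 1000000 := by nlinarith
  rw [KK]
  have h4 : e ^ 2 / 8 * σ ≤ e / 40 := by
    have : e ^ 2 / 8 * σ = e / 4 * (e / 2 * σ) := by ring
    rw [this]
    nlinarith
  nlinarith

theorem kEσ (he : 0 < e) (hσ0 : 0 < σ) (hσ : σ ≤ 1 / 10)
    (haσ : e / 2 * σ ≤ 1 / 10) : kE e * σ ^ 3 ≤ 347 / 100000 := by
  rw [kE]
  have h0 : 0 < e / 2 * σ := by positivity
  have e1 : (209 / 100 * (e / 2) ^ 2 + 92 / 100 * (e / 2) ^ 3 + 46 / 100 * (e / 2)) * σ ^ 3 =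
      209 / 100 * ((e / 2 * σ) ^ 2 * σ) + 92 / 100 * (e / 2 * σ) ^ 3 +
      46 / 100 * ((e / 2 * σ) * σ ^ 2) := by ring
  rw [e1]
  have h1 : (e / 2 * σ) ^ 2 ≤ 1 / 100 := by nlinarith
  have h2 : (e / 2 * σ) ^ 3 ≤ 1 / 1000 := by
    have : (e / 2 * σ) ^ 3 = (e / 2 * σ) ^ 2 * (e / 2 * σ) := by ring
    rw [this]; nlinarith [sq_nonneg (e / 2 * σ)]
  have h3 : (e / 2 * σ) ^ 2 * σ ≤ 1 / 1000 := by nlinarith [sq_nonneg (e / 2 * σ)]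
  have h4 : σ ^ 2 ≤ 1 / 100 := by nlinarith
  have h5 : (e / 2 * σ) * σ ^ 2 ≤ 1 / 1000 := by nlinarith [sq_nonneg σ]
  linarith

theorem hnum_one (he : 0 < e) (he2 : e ≤ 5 / 2) (hκ : 0 < κ) (hκσ : κ ≤ 101 / 100 * σ)
    (hσ0 : 0 < σ) (hσ : σ ≤ 1 / 10) (haσ : e / 2 * σ ≤ 1 / 10) :
    1317 / 1000 * (KK e κ * σ) * 1 + 10991 / 1000 * (kE e * σ ^ 3) ≤ 1247 / 10000 := by
  have h1 := KKσ he hκ hκσ hσ0 hσ haσ
  have h2 := kEσ he hσ0 hσ haσ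
  linarith

theorem hnum_small (he : 0 < e) (he2 : e ≤ 4) (hκ : 0 < κ) (hκσ : κ ≤ 101 / 100 * σ)
    (hσ0 : 0 < σ) (hσ : σ ≤ 1 / 10) (haσ : e / 2 * σ ≤ 1 / 10) :
    1317 / 1000 * (KK e κ * σ) * (3 / 5) + 10991 / 1000 * (kE e * σ ^ 3) ≤ 1247 / 10000 := by
  have h1 := KKσ he hκ hκσ hσ0 hσ haσ
  have h2 := kEσ he hσ0 hσ haσ
  linarith

end Pool.Agent.helper63.EQC
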