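import Pool.Agent.helper63.EQC.Gam

/-!
# The neutral corner: start parameters
-/

namespace Pool.Agent.helper63.EQC

open Complex Pool.Agent.helper31.EQ.W

/-- facts about a start parameter `p` in the neutral corner; `σ² = 2 (cosh κ - cosh p)` -/
structure Crn (e κ σ : ℝ) (p : ℂ) : Prop where
  he : 1 < e
  hκ : 0 < κ
  hκσ : κ ≤ 101 / 100 * σ
  hσ0 : 0 < σ
  hσ : σ ≤ 1 / 10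
  haσ : e / 2 * σ ≤ 1 / 10
  cosh_eq : 2 * cosh p = 2 * (Real.cosh κ : ℂ) - (σ : ℂ) ^ 2
  hp : ‖p‖ ≤ 101 / 100 * σ
  hpκ : ‖p - (κ : ℂ)‖ ≤ 102 / 100 * σ
  am_le : ‖exp (-(κ : ℂ)) - exp (-p)‖ ≤ σ
  am_ge : 93 / 100 * σ ≤ ‖exp (-(κ : ℂ)) - exp (-p)‖
  ap_ge : σ ≤ ‖exp (κ : ℂ) - exp (-p)‖
  v_le : ‖exp (-(κ : ℂ)) - exp (-p)‖ * ‖exp (κ : ℂ) - exp (-p)‖ ≤ 1002 / 1000 * σ ^ 2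
  v_ge : 998 / 1000 * σ ^ 2 ≤ ‖exp (-(κ : ℂ)) - exp (-p)‖ * ‖exp (κ : ℂ) - exp (-p)‖
  W0_ge : 1 + 87 / 100 * σ ^ 2 ≤ ‖2 * (Real.cosh κ : ℂ) - exp (-p)‖
  ζ_re : 0 ≤ ((Real.cosh κ : ℂ) - exp (-p)).re
  ζ_le : ‖(Real.cosh κ : ℂ) - exp (-p)‖ ≤ σ
  ep_le : ‖exp p‖ ≤ 1 + 13 / 100 * σ ^ 2
  em_le : ‖exp (-p)‖ ≤ 1002 / 1000
  ep1 : ‖exp p - 1‖ ≤ 101 / 100 * σ

end Pool.Agent.helper63.EQC
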