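import Pool.Agent.helper31.EQ.W.DefsB

/-!
# The neutral corner of the head of the W-scheme: the function `f`

`fz e κ z = c² cosh(e z / 2)^(-2/e)`, `γ(exp z) c² = exp z * fz z`.
-/

namespace Pool.Agent.helper63.EQC

open Complex Pool.Agent.helper31.EQ.W

theorem exp4 {x : ℂ} (hx : ‖x‖ ≤ 1) :
    ‖exp x - (1 + x + x ^ 2 / 2 + x ^ 3 / 6)‖ ≤ ‖x‖ ^ 4 * (5 / 96) := by
  have h := Complex.exp_bound hx (n := 4) (by norm_num)
  have e1 : ∑ m ∈ Finset.range 4, x ^ m / (m.factorial : ℂ) = 1 + x + x ^ 2 / 2 + x ^ 3 / 6 := by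
    simp [Finset.sum_range_succ, Nat.factorial]
  rw [e1] at h
  refine h.trans (le_of_eq ?_)
  norm_num [Nat.factorial]

theorem cosh_bd {y : ℂ} (hy : ‖y‖ ≤ 1) : ‖cosh y - 1 - y ^ 2 / 2‖ ≤ ‖y‖ ^ 4 * (5 / 96) := by
  have h1 := exp4 hy
  have h2 := exp4 (x := -y) (by simpa using hy)
  rw [norm_neg] at h2
  have e : cosh y - 1 - y ^ 2 / 2 = ((exp y - (1 + y + y ^ 2 / 2 + y ^ 3 / 6)) +
      (exp (-y) - (1 + -y + (-y) ^ 2 / 2 + (-y) ^ 3 / 6))) / 2 := by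
    rw [Complex.cosh]; ring
  rw [e, norm_div]
  have h3 := norm_add_le (exp y - (1 + y + y ^ 2 / 2 + y ^ 3 / 6))
    (exp (-y) - (1 + -y + (-y) ^ 2 / 2 + (-y) ^ 3 / 6))
  simp only [Complex.norm_ofNat]
  linarith

theorem sinh_bd {y : ℂ} (hy : ‖y‖ ≤ 1) : ‖sinh y - y - y ^ 3 / 6‖ ≤ ‖y‖ ^ 4 * (5 / 96) := by
  have h1 := exp4 hy
  have h2 := exp4 (x := -y) (by simpa using hy)
  rw [norm_neg] at h2
  have e : sinh y - y - y ^ 3 / 6 = ((exp y - (1 + y + y ^ 2 / 2 + y ^ 3 / 6)) -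
      (exp (-y) - (1 + -y + (-y) ^ 2 / 2 + (-y) ^ 3 / 6))) / 2 := by
    rw [Complex.sinh]; ring
  rw [e, norm_div]
  have h3 := norm_sub_le (exp y - (1 + y + y ^ 2 / 2 + y ^ 3 / 6))
    (exp (-y) - (1 + -y + (-y) ^ 2 / 2 + (-y) ^ 3 / 6))
  simp only [Complex.norm_ofNat]
  linarith

/-- second order bound of cosh -/
theorem cosh_bd2 {y : ℂ} (hy : ‖y‖ ≤ 14 / 100) : ‖cosh y - 1‖ ≤ ‖y‖ ^ 2 * (1 / 2 + 1 / 950) := by
  have h1 := cosh_bd (y := y) (by linarith)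
  have h2 : cosh y - 1 = (cosh y - 1 - y ^ 2 / 2) + y ^ 2 / 2 := by ring
  rw [h2]
  refine (norm_add_le _ _).trans ?_
  rw [norm_div, norm_pow]
  simp only [Complex.norm_ofNat]
  have h3 : ‖y‖ ^ 2 ≤ 196 / 10000 := by nlinarith [norm_nonneg y]
  nlinarith [sq_nonneg ‖y‖, mul_le_mul_of_nonneg_left h3 (sq_nonneg ‖y‖)]

theorem sinh_bd3 {y : ℂ} (hy : ‖y‖ ≤ 14 / 100) : ‖sinh y - y‖ ≤ ‖y‖ ^ 3 * (1 / 6 + 1 / 130) := by
  have h1 := sinh_bd (y := y) (by linarith)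
  have h2 : sinh y - y = (sinh y - y - y ^ 3 / 6) + y ^ 3 / 6 := by ring
  rw [h2]
  refine (norm_add_le _ _).trans ?_
  rw [norm_div, norm_pow]
  simp only [Complex.norm_ofNat]
  have h0 := norm_nonneg y
  nlinarith [pow_nonneg h0 3, mul_le_mul_of_nonneg_left hy (pow_nonneg h0 3)]

theorem cosh_ne {y : ℂ} (hy : ‖y‖ ≤ 14 / 100) : cosh y ≠ 0 ∧ 0 < (cosh y).re ∧ 99 / 100 ≤ ‖cosh y‖ := by
  have h1 := cosh_bd2 hy
  have h3 : ‖y‖ ^ 2 ≤ 196 / 10000 := by nlinarith [norm_nonneg y]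
  have h4 : ‖cosh y - 1‖ ≤ 1 / 100 := by nlinarith
  have h5 := Complex.abs_re_le_norm (cosh y - 1)
  rw [Complex.sub_re, Complex.one_re] at h5
  have h6 := abs_le.1 (h5.trans h4)
  have h7 : 0 < (cosh y).re := by linarith [h6.1]
  refine ⟨fun h => ?_, h7, ?_⟩
  · rw [h] at h7; simp at h7
  · have h8 := Complex.abs_re_le_norm (cosh y)
    have h9 := le_abs_self (cosh y).re
    linarith [h6.1]

theorem tanh_bd {y : ℂ} (hy : ‖y‖ ≤ 14 / 100) : ‖tanh y - y‖ ≤ ‖y‖ ^ 3 * (35 / 100) := by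
  have hy1 : ‖y‖ ≤ 14 / 100 := by linarith
  have h1 := cosh_bd (y := y) (by linarith)
  have h2 := sinh_bd (y := y) (by linarith)
  obtain ⟨hc, -, hc2⟩ := cosh_ne hy1
  have hc3 := cosh_bd2 hy1
  have h0 := norm_nonneg y
  have hc4 : 1 - ‖y‖ ^ 2 * (1 / 2 + 1 / 950) ≤ ‖cosh y‖ := by
    have h5 : ‖(1 : ℂ)‖ ≤ ‖cosh y‖ + ‖cosh y - 1‖ := by
      have := norm_sub_le (cosh y) (cosh y - 1)
      simpa using this
    rw [norm_one] at h5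
    linarith
  have e : tanh y - y = ((sinh y - y - y ^ 3 / 6) - y * (cosh y - 1 - y ^ 2 / 2) - y ^ 3 / 3) /
      cosh y := by
    rw [Complex.tanh_eq_sinh_div_cosh]
    field_simp
    ring
  rw [e, norm_div]
  have h6 : ‖(sinh y - y - y ^ 3 / 6) - y * (cosh y - 1 - y ^ 2 / 2) - y ^ 3 / 3‖ ≤
      ‖y‖ ^ 4 * (5 / 96) + ‖y‖ * (‖y‖ ^ 4 * (5 / 96)) + ‖y‖ ^ 3 / 3 := by
    refine (norm_sub_le _ _).trans ?_
    refine add_le_add ((norm_sub_le _ _).trans (add_le_add h2 ?_)) ?_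
    · rw [norm_mul]
      exact mul_le_mul_of_nonneg_left h1 h0
    · rw [norm_div, norm_pow]
      simp
  rw [div_le_iff₀ (by linarith)]
  refine h6.trans ?_
  have h7 : ‖y‖ ^ 3 * (35 / 100) * (1 - ‖y‖ ^ 2 * (1 / 2 + 1 / 950)) ≤
      ‖y‖ ^ 3 * (35 / 100) * ‖cosh y‖ := mul_le_mul_of_nonneg_left hc4 (by positivity)
  refine le_trans ?_ h7
  have h8 : 0 ≤ ‖y‖ ^ 3 := by positivity
  have h9 : ‖y‖ * (5 / 96) + ‖y‖ ^ 2 * (5 / 96) + 1 / 3 ≤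
      (35 / 100) * (1 - ‖y‖ ^ 2 * (1 / 2 + 1 / 950)) := by
    nlinarith
  have := mul_le_mul_of_nonneg_left h9 h8
  nlinarith [this]

theorem log_bd {t : ℂ} (ht : ‖t‖ ≤ 1 / 50) : ‖log (1 + t)‖ ≤ ‖t‖ * (1 + ‖t‖ * (26 / 50)) := by
  have h := Complex.norm_log_one_add_le (z := t) (by linarith)
  refine h.trans ?_
  have h0 := norm_nonneg t
  have h1 : (1 - ‖t‖)⁻¹ ≤ 52 / 50 := by
    rw [inv_le_comm₀ (by linarith) (by norm_num)]
    norm_num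
    linarith
  have h2 : ‖t‖ ^ 2 * (1 - ‖t‖)⁻¹ ≤ ‖t‖ ^ 2 * (52 / 50) := mul_le_mul_of_nonneg_left h1 (by positivity)
  nlinarith

/-- `log (cosh y)` -/
noncomputable def lc (y : ℂ) : ℂ := log (cosh y)

theorem lc_bd {y : ℂ} (hy : ‖y‖ ≤ 14 / 100) : ‖lc y‖ ≤ ‖y‖ ^ 2 * (504 / 1000) := by
  have h1 := cosh_bd2 (y := y) (by linarith)
  have h0 := norm_nonneg y
  have h3 : ‖y‖ ^ 2 ≤ 196 / 10000 := by nlinarith
  have h4 : ‖cosh y - 1‖ ≤ 1 / 50 := by nlinarith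
  have h5 := log_bd h4
  have e : lc y = log (1 + (cosh y - 1)) := by rw [lc]; congr 1; ring
  rw [e]
  refine h5.trans ?_
  have h6 := norm_nonneg (cosh y - 1)
  have h7 : ‖cosh y - 1‖ ≤ 983 / 100000 := by nlinarith
  have h8 : 1 + ‖cosh y - 1‖ * (26 / 50) ≤ 1 + 52 / 10000 := by linarith
  calc ‖cosh y - 1‖ * (1 + ‖cosh y - 1‖ * (26 / 50)) ≤ ‖cosh y - 1‖ * (1 + 52 / 10000) :=
        mul_le_mul_of_nonneg_left h8 h6
    _ ≤ (‖y‖ ^ 2 * (1 / 2 + 1 / 950)) * (1 + 52 / 10000) := mul_le_mul_of_nonneg_right h1 (by norm_num)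
    _ ≤ _ := by nlinarith [sq_nonneg ‖y‖]

/-- `c² cosh(e z / 2)^(-2/e)` -/
noncomputable def fz (e κ : ℝ) (z : ℂ) : ℂ :=
  (c2 e κ : ℂ) * cosh (e * z / 2) ^ (-((2 / e : ℝ) : ℂ))

/-- `log` of `fz` -/
noncomputable def gz (e κ : ℝ) (z : ℂ) : ℂ := ((2 / e : ℝ) : ℂ) * (lc ((e * κ / 2 : ℝ) : ℂ) - lc (e * z / 2))

theorem fz_eq {e κ : ℝ} {z : ℂ} (hz : ‖(e : ℂ) * z / 2‖ ≤ 14 / 100) :
    fz e κ z = exp (gz e κ z) := by
  have hc := (cosh_ne (y := (e : ℂ) * z / 2) (by linarith)).1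
  have hp := Real.cosh_pos (e * κ / 2)
  rw [fz, gz, c2, lc, lc, Complex.cpow_def_of_ne_zero hc, Real.rpow_def_of_pos hp, mul_sub,
    Complex.exp_sub, ← Complex.ofReal_cosh, ← Complex.ofReal_log hp.le]
  rw [mul_neg, Complex.exp_neg, div_eq_mul_inv]
  push_cast
  ring_nf

theorem gz_deriv {e κ : ℝ} (he : 0 < e) {z : ℂ} (hz : ‖(e : ℂ) * z / 2‖ ≤ 14 / 100) :
    HasDerivAt (gz e κ) (-tanh (e * z / 2)) z := by
  obtain ⟨hc, hre, -⟩ := cosh_ne (y := (e : ℂ) * z / 2) (by linarith)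
  have he' : (e : ℂ) ≠ 0 := by exact_mod_cast he.ne'
  have h1 : HasDerivAt (fun z : ℂ => (e : ℂ) * z / 2) ((e : ℂ) / 2) z := by
    simpa using ((hasDerivAt_id z).const_mul (e : ℂ)).div_const 2
  have h2 : HasDerivAt (fun z : ℂ => lc (e * z / 2)) (sinh (e * z / 2) * (e / 2) / cosh (e * z / 2)) z := by
    have := (h1.ccosh).clog (Or.inl hre)
    simpa [lc] using this
  have h3 := (h2.const_sub (lc ((e * κ / 2 : ℝ) : ℂ))).const_mul ((2 / e : ℝ) : ℂ)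
  refine h3.congr_deriv ?_
  rw [Complex.tanh_eq_sinh_div_cosh]
  push_cast
  field_simp

theorem gz_bd {e κ σ : ℝ} (he : 0 < e) (hκ0 : 0 ≤ κ) (hκ : κ ≤ 101 / 100 * σ)
    (haσ : e / 2 * σ ≤ 1 / 10) {z : ℂ} (hz : ‖z‖ ≤ 138 / 100 * σ) :
    ‖gz e κ z‖ ≤ 1475 / 1000 * (e / 2 * σ ^ 2) := by
  have hσ : 0 ≤ σ := by nlinarith [norm_nonneg z]
  have hn : ‖(e : ℂ) * z / 2‖ = e / 2 * ‖z‖ := by
    rw [norm_div, norm_mul, Complex.norm_real, Real.norm_of_nonneg he.le]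
    simp; ring
  have hn2 : ‖((e * κ / 2 : ℝ) : ℂ)‖ = e / 2 * κ := by
    rw [Complex.norm_real, Real.norm_of_nonneg (by positivity)]; ring
  have h1 : ‖(e : ℂ) * z / 2‖ ≤ 14 / 100 := by rw [hn]; nlinarith
  have h2 : ‖((e * κ / 2 : ℝ) : ℂ)‖ ≤ 14 / 100 := by rw [hn2]; nlinarith
  have h3 := lc_bd h1
  have h4 := lc_bd h2
  rw [gz, norm_mul, Complex.norm_real, Real.norm_of_nonneg (by positivity)]
  have h5 := (norm_sub_le (lc ((e * κ / 2 : ℝ) : ℂ)) (lc (e * z / 2))).trans (add_le_add h4 h3)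
  rw [hn, hn2] at h5
  have h6 : 2 / e * ‖lc ((e * κ / 2 : ℝ) : ℂ) - lc (e * z / 2)‖ ≤
      2 / e * ((e / 2 * κ) ^ 2 * (504 / 1000) + (e / 2 * ‖z‖) ^ 2 * (504 / 1000)) :=
    mul_le_mul_of_nonneg_left h5 (by positivity)
  refine h6.trans ?_
  have h7 : 2 / e * ((e / 2 * κ) ^ 2 * (504 / 1000) + (e / 2 * ‖z‖) ^ 2 * (504 / 1000)) =
      (e / 2) * (504 / 1000) * (κ ^ 2 + ‖z‖ ^ 2) := by field_simp
  rw [h7]
  have h8 : κ ^ 2 + ‖z‖ ^ 2 ≤ ((101 / 100) ^ 2 + (138 / 100) ^ 2) * σ ^ 2 := by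
    have := pow_le_pow_left₀ hκ0 hκ 2
    have := pow_le_pow_left₀ (norm_nonneg z) hz 2
    nlinarith
  have h9 : (e / 2) * (504 / 1000) * (κ ^ 2 + ‖z‖ ^ 2) ≤
      (e / 2) * (504 / 1000) * (((101 / 100) ^ 2 + (138 / 100) ^ 2) * σ ^ 2) :=
    mul_le_mul_of_nonneg_left h8 (by positivity)
  refine h9.trans ?_
  have : 0 ≤ e / 2 * σ ^ 2 := by positivity
  nlinarith

theorem small_of {e σ : ℝ} (he : 0 < e) (haσ : e / 2 * σ ≤ 1 / 10) {z : ℂ}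
    (hz : ‖z‖ ≤ 138 / 100 * σ) : ‖(e : ℂ) * z / 2‖ ≤ 14 / 100 := by
  have hn : ‖(e : ℂ) * z / 2‖ = e / 2 * ‖z‖ := by
    rw [norm_div, norm_mul, Complex.norm_real, Real.norm_of_nonneg he.le]
    simp; ring
  rw [hn]
  have := mul_le_mul_of_nonneg_left hz (by positivity : (0:ℝ) ≤ e / 2)
  nlinarith

theorem fz_bd {e κ σ : ℝ} (he : 0 < e) (hκ0 : 0 ≤ κ) (hκ : κ ≤ 101 / 100 * σ)
    (hσ : σ ≤ 1 / 10) (haσ : e / 2 * σ ≤ 1 / 10) {z : ℂ} (hz : ‖z‖ ≤ 138 / 100 * σ) :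
    ‖fz e κ z - 1‖ ≤ 150 / 100 * (e / 2 * σ ^ 2) := by
  have hσ0 : 0 ≤ σ := by nlinarith [norm_nonneg z]
  have h1 := gz_bd he hκ0 hκ haσ hz
  rw [fz_eq (small_of he haσ hz)]
  have h2 : e / 2 * σ ^ 2 ≤ 1 / 100 := by nlinarith
  have h3 : ‖gz e κ z‖ ≤ 1 := by linarith
  have h4 := Complex.norm_exp_sub_one_sub_id_le h3
  have h5 : exp (gz e κ z) - 1 = (exp (gz e κ z) - 1 - gz e κ z) + gz e κ z := by ring
  rw [h5]
  refine (norm_add_le _ _).trans ?_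
  have h6 : 0 ≤ e / 2 * σ ^ 2 := by positivity
  have h7 : ‖gz e κ z‖ ^ 2 ≤ 1475 / 100000 * ‖gz e κ z‖ := by
    have := norm_nonneg (gz e κ z)
    nlinarith
  nlinarith [norm_nonneg (gz e κ z)]

/-- the error function `E` -/
noncomputable def Ez (e κ : ℝ) (z : ℂ) : ℂ :=
  fz e κ z - 1 + ((e / 2 : ℝ) : ℂ) * (cosh z - (Real.cosh κ : ℂ))

/-- its Lipschitz constant, over `σ³` -/
noncomputable def kE (e : ℝ) : ℝ := 209 / 100 * (e / 2) ^ 2 + 92 / 100 * (e / 2) ^ 3 + 46 / 100 * (e / 2)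

theorem kE_pos {e : ℝ} (he : 0 < e) : 0 < kE e := by rw [kE]; positivity

theorem Ez_kappa {e κ σ : ℝ} (he : 0 < e) (hκ0 : 0 ≤ κ) (hκ : κ ≤ 101 / 100 * σ)
    (haσ : e / 2 * σ ≤ 1 / 10) : Ez e κ κ = 0 := by
  have hσ0 : 0 ≤ σ := by nlinarith
  have hz : ‖(κ : ℂ)‖ ≤ 138 / 100 * σ := by
    rw [Complex.norm_real, Real.norm_of_nonneg hκ0]; linarith
  rw [Ez, fz_eq (small_of he haσ hz), gz]
  have : ((e * κ / 2 : ℝ) : ℂ) = (e : ℂ) * (κ : ℂ) / 2 := by push_cast; ring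
  rw [this, sub_self, mul_zero, Complex.exp_zero, ← Complex.ofReal_cosh]
  ring

theorem Ez_deriv {e κ : ℝ} (he : 0 < e) {z : ℂ} (hz : ‖(e : ℂ) * z / 2‖ < 14 / 100) :
    HasDerivAt (Ez e κ) (-(fz e κ z * tanh (e * z / 2)) + ((e / 2 : ℝ) : ℂ) * sinh z) z := by
  have h1 : HasDerivAt (fun z => exp (gz e κ z)) (exp (gz e κ z) * (-tanh (e * z / 2))) z :=
    (gz_deriv he hz.le).cexp
  have hcont : ContinuousAt (fun z : ℂ => ‖(e : ℂ) * z / 2‖) z := by fun_prop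
  have h2 : fz e κ =ᶠ[nhds z] fun z => exp (gz e κ z) := by
    have : ∀ᶠ y in nhds z, ‖(e : ℂ) * y / 2‖ < 14 / 100 := hcont.eventually (gt_mem_nhds hz)
    exact this.mono fun y hy => fz_eq hy.le
  have h3 : HasDerivAt (fz e κ) (fz e κ z * (-tanh (e * z / 2))) z := by
    rw [fz_eq hz.le]
    exact h1.congr_of_eventuallyEq h2
  have h4 := (h3.sub_const 1).add
    (((Complex.hasDerivAt_cosh z).sub_const (Real.cosh κ : ℂ)).const_mul ((e / 2 : ℝ) : ℂ))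
  refine h4.congr_deriv ?_
  ring

theorem Ez_lip {e κ σ : ℝ} (he : 0 < e) (hκ0 : 0 ≤ κ) (hκ : κ ≤ 101 / 100 * σ)
    (hσ : σ ≤ 1 / 10) (haσ : e / 2 * σ ≤ 1 / 10) {z z' : ℂ} (hz : ‖z‖ ≤ 138 / 100 * σ)
    (hz' : ‖z'‖ ≤ 138 / 100 * σ) : ‖Ez e κ z - Ez e κ z'‖ ≤ kE e * σ ^ 3 * ‖z - z'‖ := by
  have hσ0 : 0 ≤ σ := by nlinarith [norm_nonneg z]
  have key : ∀ x ∈ Metric.closedBall (0 : ℂ) (138 / 100 * σ),
      ‖-(fz e κ x * tanh (e * x / 2)) + ((e / 2 : ℝ) : ℂ) * sinh x‖ ≤ kE e * σ ^ 3 := by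
    intro x hx
    have hx' : ‖x‖ ≤ 138 / 100 * σ := by simpa using hx
    have hn : ‖(e : ℂ) * x / 2‖ = e / 2 * ‖x‖ := by
      rw [norm_div, norm_mul, Complex.norm_real, Real.norm_of_nonneg he.le]
      simp; ring
    have hs := small_of he haσ hx'
    have h1 := tanh_bd hs
    have h2 := fz_bd he hκ0 hκ hσ haσ hx'
    have hx1 : ‖x‖ ≤ 14 / 100 := by linarith
    have h3 := sinh_bd3 hx1
    have e1 : -(fz e κ x * tanh (e * x / 2)) + ((e / 2 : ℝ) : ℂ) * sinh x =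
        -((fz e κ x - 1) * (tanh (e * x / 2) - e * x / 2 + e * x / 2)) -
        (tanh (e * x / 2) - e * x / 2) + ((e / 2 : ℝ) : ℂ) * (sinh x - x) := by
      push_cast; ring
    rw [e1]
    have h4 : ‖tanh (e * x / 2) - e * x / 2 + e * x / 2‖ ≤ ‖(e : ℂ) * x / 2‖ * (1007 / 1000) := by
      refine (norm_add_le _ _).trans ?_
      have h0 := norm_nonneg ((e : ℂ) * x / 2)
      have : ‖(e : ℂ) * x / 2‖ ^ 3 * (35 / 100) ≤ ‖(e : ℂ) * x / 2‖ * (7 / 1000) := by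
        have h5 : ‖(e : ℂ) * x / 2‖ ^ 2 ≤ 196 / 10000 := by nlinarith
        nlinarith [mul_le_mul_of_nonneg_left h5 h0]
      linarith
    have h5 : ‖-((fz e κ x - 1) * (tanh (e * x / 2) - e * x / 2 + e * x / 2)) -
        (tanh (e * x / 2) - e * x / 2) + ((e / 2 : ℝ) : ℂ) * (sinh x - x)‖ ≤
        150 / 100 * (e / 2 * σ ^ 2) * (‖(e : ℂ) * x / 2‖ * (1007 / 1000)) +
        ‖(e : ℂ) * x / 2‖ ^ 3 * (35 / 100) + e / 2 * (‖x‖ ^ 3 * (1 / 6 + 1 / 130)) := by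
      refine (norm_add_le _ _).trans (add_le_add ((norm_sub_le _ _).trans (add_le_add ?_ h1)) ?_)
      · rw [norm_neg, norm_mul]
        exact mul_le_mul h2 h4 (norm_nonneg _) (by positivity)
      · rw [norm_mul, Complex.norm_real, Real.norm_of_nonneg (by positivity)]
        exact mul_le_mul_of_nonneg_left h3 (by positivity)
    refine h5.trans ?_
    rw [hn]
    have hp1 : ‖x‖ ^ 3 ≤ (138 / 100) ^ 3 * σ ^ 3 := by
      rw [← mul_pow]; exact pow_le_pow_left₀ (norm_nonneg x) hx' 3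
    have hn0 := norm_nonneg x
    have t1 : 150 / 100 * (e / 2 * σ ^ 2) * (e / 2 * ‖x‖ * (1007 / 1000)) ≤
        209 / 100 * (e / 2) ^ 2 * σ ^ 3 := by
      have : 150 / 100 * (e / 2 * σ ^ 2) * (e / 2 * ‖x‖ * (1007 / 1000)) ≤
          150 / 100 * (e / 2 * σ ^ 2) * (e / 2 * (138 / 100 * σ) * (1007 / 1000)) := by gcongr
      refine this.trans ?_
      have : 0 ≤ (e / 2) ^ 2 * σ ^ 3 := by positivity
      nlinarith
    have t2 : (e / 2 * ‖x‖) ^ 3 * (35 / 100) ≤ 92 / 100 * (e / 2) ^ 3 * σ ^ 3 := by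
      rw [mul_pow]
      have : 0 ≤ (e / 2) ^ 3 * σ ^ 3 := by positivity
      have h6 : (e / 2) ^ 3 * ‖x‖ ^ 3 ≤ (e / 2) ^ 3 * ((138 / 100) ^ 3 * σ ^ 3) := by gcongr
      nlinarith
    have t3 : e / 2 * (‖x‖ ^ 3 * (1 / 6 + 1 / 130)) ≤ 46 / 100 * (e / 2) * σ ^ 3 := by
      have : 0 ≤ (e / 2) * σ ^ 3 := by positivity
      have h6 : (e / 2) * ‖x‖ ^ 3 ≤ (e / 2) * ((138 / 100) ^ 3 * σ ^ 3) := by gcongr
      nlinarith
    rw [kE]
    linarith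
  have hconv : Convex ℝ (Metric.closedBall (0 : ℂ) (138 / 100 * σ)) := convex_closedBall _ _
  refine hconv.norm_image_sub_le_of_norm_hasDerivWithin_le (f := Ez e κ)
    (f' := fun x => -(fz e κ x * tanh (e * x / 2)) + ((e / 2 : ℝ) : ℂ) * sinh x)
    (fun x hx => (Ez_deriv he ?_).hasDerivWithinAt) key (by simpa using hz') (by simpa using hz)
  have hx' : ‖x‖ ≤ 138 / 100 * σ := by simpa using hx
  have hn : ‖(e : ℂ) * x / 2‖ = e / 2 * ‖x‖ := by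
    rw [norm_div, norm_mul, Complex.norm_real, Real.norm_of_nonneg he.le]
    simp; ring
  rw [hn]
  have := mul_le_mul_of_nonneg_left hx' (by positivity : (0:ℝ) ≤ e / 2)
  nlinarith

theorem half_one_add_exp (y : ℂ) : (1 + exp (-(2 * y))) / 2 = exp (-y) * cosh y := by
  rw [Complex.cosh]
  have h : exp (-(2 * y)) = exp (-y) * exp (-y) := by rw [← Complex.exp_add]; congr 1; ring
  have h2 : exp (-y) * exp y = 1 := by rw [← Complex.exp_add]; simp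
  rw [h]
  linear_combination (-(1:ℂ) / 2) * h2

theorem pow_aux {y c : ℂ} (hy : ‖y‖ ≤ 14 / 100) :
    ((1 + exp (-(2 * y))) / 2) ^ c = exp (-(y * c)) * cosh y ^ c := by
  have hc := (cosh_ne (y := y) (by linarith)).1
  have hl := lc_bd hy
  have h0 := norm_nonneg y
  have hl2 : ‖lc y‖ ≤ 1 := by nlinarith
  have h1 : (1 + exp (-(2 * y))) / 2 = exp (-y + lc y) := by
    rw [half_one_add_exp, Complex.exp_add, lc, Complex.exp_log hc]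
  have him : |(-y + lc y).im| ≤ 2 := by
    refine (Complex.abs_im_le_norm _).trans ((norm_add_le _ _).trans ?_)
    rw [norm_neg]; linarith
  have hpi := Real.pi_gt_three
  have h2 : log (exp (-y + lc y)) = -y + lc y :=
    Complex.log_exp (by linarith [(abs_le.1 him).1]) (by linarith [(abs_le.1 him).2])
  rw [h1, Complex.cpow_def_of_ne_zero (Complex.exp_ne_zero _), h2,
    Complex.cpow_def_of_ne_zero hc, ← Complex.exp_add]
  congr 1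
  rw [lc]; ring

theorem log_exp_small {z : ℂ} (hz : ‖z‖ ≤ 1) : log (exp z) = z := by
  have h := (Complex.abs_im_le_norm z).trans hz
  have hpi := Real.pi_gt_three
  exact Complex.log_exp (by linarith [(abs_le.1 h).1]) (by linarith [(abs_le.1 h).2])

theorem c2_gl {e κ : ℝ} (he : 0 < e) {z : ℂ} (hz : ‖z‖ ≤ 1) (hs : ‖(e : ℂ) * z / 2‖ ≤ 14 / 100) :
    (c2 e κ : ℂ) * gl e (exp z) = exp z * fz e κ z := by
  have he' : (e : ℂ) ≠ 0 := by exact_mod_cast he.ne'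
  have h1 : exp z ^ (-(e : ℂ)) = exp (-(2 * (e * z / 2))) := by
    rw [Complex.cpow_def_of_ne_zero (Complex.exp_ne_zero _), log_exp_small hz]
    congr 1; ring
  rw [gl, h1, pow_aux hs, fz]
  have h2 : -((e : ℂ) * z / 2 * -((2 / e : ℝ) : ℂ)) = z := by
    push_cast; field_simp
  rw [h2]; ring

theorem c2_gs {e κ : ℝ} (he : 0 < e) {z : ℂ} (hz : ‖z‖ ≤ 1) (hs : ‖(e : ℂ) * z / 2‖ ≤ 14 / 100) :
    (c2 e κ : ℂ) * gs e (exp (-z)) = exp (-z) * fz e κ z := by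
  have he' : (e : ℂ) ≠ 0 := by exact_mod_cast he.ne'
  have h1 : exp (-z) ^ (e : ℂ) = exp (-(2 * (e * z / 2))) := by
    rw [Complex.cpow_def_of_ne_zero (Complex.exp_ne_zero _), log_exp_small (by simpa using hz)]
    congr 1; ring
  rw [gs, h1, pow_aux hs, fz]
  have h2 : -((e : ℂ) * z / 2 * -((2 / e : ℝ) : ℂ)) = z := by
    push_cast; field_simp
  rw [h2]
  have h3 : exp (-z) * exp z = 1 := by rw [← Complex.exp_add]; simp
  linear_combination (exp (-z) * c2 e κ * cosh (e * z / 2) ^ (-((2 / e : ℝ) : ℂ))) * h3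

theorem c2_gp {e κ : ℝ} {p : ℂ} : (c2 e κ : ℂ) * gp e p = exp (-p) * fz e κ p := by
  rw [gp, fz]; ring

end Pool.Agent.helper63.EQC
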