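import Pool.Agent.helper63.EQC.CornerK

/-!
# Glue: closed forms used by the kernel programs
-/

namespace Pool.Agent.helper63.EQC

open Complex Pool.Agent.helper31.EQ.W

open Pool.Agent.helper4.EQW (KK rT nx gK v2 G1 f0 LT OT)

variable {e κ : ℝ}

/-- `Re z > 2` in the form used by the programs -/
theorem pos_of_disc (hκ : 0 < κ) {ζ : ℂ}
    (h : ‖4 * (Real.cosh κ : ℂ) * (2 * (Real.cosh κ : ℂ) ^ 2 - 1) * ζ -
      (8 * (Real.cosh κ : ℂ) ^ 4 - 8 * (Real.cosh κ : ℂ) ^ 2 + 1)‖ < 1) :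
    ‖ζ - (Real.sinh κ : ℂ)‖ < Real.exp (-(4 * κ)) * ‖ζ + (Real.sinh κ : ℂ)‖ := by
  have hS : 0 < Real.sinh κ := Real.sinh_pos_iff.2 hκ
  have hC : 1 ≤ Real.cosh κ := Real.one_le_cosh κ
  have hCS := Real.cosh_sq κ
  set C := Real.cosh κ with hCd
  set S := Real.sinh κ with hSd
  set ch := 8 * C ^ 4 - 8 * C ^ 2 + 1 with hch
  set sh := 4 * C * (2 * C ^ 2 - 1) with hsh
  have hsh0 : 0 < sh := by rw [hsh]; nlinarith
  have h4 : Real.exp (-(4 * κ)) = ch - sh * S := by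
    have e1 : Real.exp (-(4 * κ)) = Real.exp (-κ) ^ 4 := by
      rw [← Real.exp_nat_mul]; congr 1; push_cast; ring
    rw [e1, ← Real.cosh_sub_sinh, ← hCd, ← hSd, hch, hsh]
    have e2 : S ^ 2 = C ^ 2 - 1 := by linarith
    have e3 : S ^ 3 = S * (C ^ 2 - 1) := by rw [← e2]; ring
    have e4 : S ^ 4 = (C ^ 2 - 1) ^ 2 := by rw [← e2]; ring
    have e5 : (C - S) ^ 4 = C ^ 4 - 4 * C ^ 3 * S + 6 * C ^ 2 * S ^ 2 - 4 * C * S ^ 3 + S ^ 4 := by ring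
    rw [e5, e3, e4, e2]; ring
  have hch2 : ch ^ 2 = 1 + sh ^ 2 * S ^ 2 := by
    have e2 : S ^ 2 = C ^ 2 - 1 := by linarith
    rw [e2, hch, hsh]; ring
  have hch0 : 0 < ch := by
    rw [hch]
    nlinarith [sq_nonneg (C ^ 2 - 1), hC]
  have hlt : sh * S < ch := by
    have : (sh * S) ^ 2 < ch ^ 2 := by rw [hch2]; nlinarith
    exact lt_of_pow_lt_pow_left₀ 2 hch0.le this
  rw [h4]
  set x := ζ.re with hx
  set y := ζ.im with hy
  have n1 : ‖ζ - (S : ℂ)‖ ^ 2 = (x - S) ^ 2 + y ^ 2 := by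
    rw [← Complex.normSq_eq_norm_sq, Complex.normSq_apply]; simp; ring
  have n2 : ‖ζ + (S : ℂ)‖ ^ 2 = (x + S) ^ 2 + y ^ 2 := by
    rw [← Complex.normSq_eq_norm_sq, Complex.normSq_apply]; simp; ring
  have n3 : ‖4 * (C : ℂ) * (2 * (C : ℂ) ^ 2 - 1) * ζ - (8 * (C : ℂ) ^ 4 - 8 * (C : ℂ) ^ 2 + 1)‖ ^ 2 =
      (sh * x - ch) ^ 2 + (sh * y) ^ 2 := by
    have e1 : 4 * (C : ℂ) * (2 * (C : ℂ) ^ 2 - 1) * ζ - (8 * (C : ℂ) ^ 4 - 8 * (C : ℂ) ^ 2 + 1) =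
        (sh : ℂ) * ζ - (ch : ℂ) := by rw [hsh, hch]; push_cast; ring
    rw [e1, ← Complex.normSq_eq_norm_sq, Complex.normSq_apply]
    simp
    ring
  have h5 : (sh * x - ch) ^ 2 + (sh * y) ^ 2 < 1 := by
    rw [← n3]
    have := norm_nonneg (4 * (C : ℂ) * (2 * (C : ℂ) ^ 2 - 1) * ζ - (8 * (C : ℂ) ^ 4 - 8 * (C : ℂ) ^ 2 + 1))
    nlinarith
  -- sh² (x² + y²) - 2 sh ch x + sh² S² < 0
  have h6 : sh * (x ^ 2 + y ^ 2 + S ^ 2) < 2 * ch * x := by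
    have h7 : sh * (sh * (x ^ 2 + y ^ 2 + S ^ 2)) < sh * (2 * ch * x) := by nlinarith
    exact lt_of_mul_lt_mul_left h7 hsh0.le
  have hρ : 0 < ch - sh * S := by linarith
  have h8 : ‖ζ - (S : ℂ)‖ ^ 2 < ((ch - sh * S) * ‖ζ + (S : ℂ)‖) ^ 2 := by
    rw [mul_pow, n1, n2]
    have e1 : (ch - sh * S) ^ 2 = 1 - 2 * sh * S * (ch - sh * S) := by
      have : (ch - sh * S) ^ 2 = ch ^ 2 - 2 * ch * sh * S + sh ^ 2 * S ^ 2 := by ring
      rw [this, hch2]; ring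
    rw [e1]
    have e2 : (1 - 2 * sh * S * (ch - sh * S)) * ((x + S) ^ 2 + y ^ 2) - ((x - S) ^ 2 + y ^ 2) =
        2 * S * (ch - sh * S) * (2 * ch * x - sh * (x ^ 2 + y ^ 2 + S ^ 2)) +
        4 * S * x * (1 - (ch - sh * S) * (sh * S + ch)) := by ring
    have e3 : (ch - sh * S) * (sh * S + ch) = 1 := by
      have : (ch - sh * S) * (sh * S + ch) = ch ^ 2 - sh ^ 2 * S ^ 2 := by ring
      rw [this, hch2]; ring
    rw [e3] at e2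
    have h9 : 0 < 2 * S * (ch - sh * S) * (2 * ch * x - sh * (x ^ 2 + y ^ 2 + S ^ 2)) := by
      have : 0 < 2 * ch * x - sh * (x ^ 2 + y ^ 2 + S ^ 2) := by linarith
      positivity
    linarith
  exact lt_of_pow_lt_pow_left₀ 2 (by positivity) h8

theorem log_inv_slit {w : ℂ} (hw : w ∈ slitPlane) : log (1 / w) = -log w := by
  rw [one_div, Complex.log_inv _ (Complex.slitPlane_arg_ne_pi hw)]

theorem gl_eq {w : ℂ} (hw : w ≠ 0) (h1 : (1 + exp (-((e : ℂ) * log w))) / 2 ≠ 0) :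
    gl e w = exp (-(2 * (e : ℂ)⁻¹ * log ((1 + exp (-((e : ℂ) * log w))) / 2))) := by
  have h2 : w ^ (-(e : ℂ)) = exp (-((e : ℂ) * log w)) := by
    rw [Complex.cpow_def_of_ne_zero hw]; congr 1; ring
  rw [gl, h2, Complex.cpow_def_of_ne_zero h1]
  congr 1
  push_cast
  ring

theorem gs_eq {w : ℂ} (hw : w ∈ slitPlane) : gs e (1 / w) = (1 / w) ^ 2 * gl e w := by
  have hw0 : w ≠ 0 := slitPlane_ne_zero hw
  have h1 : (1 / w) ^ (e : ℂ) = w ^ (-(e : ℂ)) := by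
    rw [Complex.cpow_def_of_ne_zero (one_div_ne_zero hw0), Complex.cpow_def_of_ne_zero hw0,
      log_inv_slit hw]
    congr 1; ring
  rw [gs, gl, h1]

theorem gp_eq {p : ℂ} (h : cosh ((e : ℂ) * p / 2) ≠ 0) :
    gp e p = exp (-p) * exp (-(2 * (e : ℂ)⁻¹ * log (cosh ((e : ℂ) * p / 2)))) := by
  rw [gp, Complex.cpow_def_of_ne_zero h]
  congr 2
  push_cast
  ring

theorem c2_eq : (c2 e κ : ℂ) =
    exp (2 * (e : ℂ)⁻¹ * log (cosh ((e : ℂ) * (κ : ℂ) / 2))) := by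
  have h1 : cosh ((e : ℂ) * (κ : ℂ) / 2) = ((Real.cosh (e * κ / 2) : ℝ) : ℂ) := by push_cast; ring_nf
  rw [h1, ← Complex.ofReal_log (Real.cosh_pos _).le, c2, Real.rpow_def_of_pos (Real.cosh_pos _)]
  push_cast
  congr 1
  ring

theorem G1_eq {W : ℂ} (hW : W ∈ slitPlane)
    (h1 : (1 + exp (-((e : ℂ) * log W))) / 2 ≠ 0) :
    G1 e κ (1 / W) = (c2 e κ : ℂ) * gl e W / (W * ((1 + exp (-((e : ℂ) * log W))) / 2)) := by
  have hW0 : W ≠ 0 := slitPlane_ne_zero hW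
  have h2 : (1 / W) ^ (e : ℂ) = exp (-((e : ℂ) * log W)) := by
    rw [Complex.cpow_def_of_ne_zero (one_div_ne_zero hW0), log_inv_slit hW]; congr 1; ring
  have h3 : W ^ (-(e : ℂ)) = exp (-((e : ℂ) * log W)) := by
    rw [Complex.cpow_def_of_ne_zero hW0]; congr 1; ring
  rw [G1, f0, h2, gl, h3]
  have e1 : -((1 + 2 / e : ℝ) : ℂ) = -((2 / e : ℝ) : ℂ) - 1 := by push_cast; ring
  rw [e1, Complex.cpow_sub _ _ h1, Complex.cpow_one]
  field_simp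

end Pool.Agent.helper63.EQC
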