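import Pool.Agent.helper63.EQC.Crn

/-!
# The neutral corner: node 1
-/

namespace Pool.Agent.helper63.EQC

open Complex Pool.Agent.helper31.EQ.W

/-- a start parameter and a first node `w = W0 + δ` -/
structure Ctx (e κ σ : ℝ) (p δ w : ℂ) : Prop extends Crn e κ σ p where
  δ_σ2 : ‖δ‖ ≤ 733 / 1000 * σ ^ 2
  hw : w = 2 * (Real.cosh κ : ℂ) - exp (-p) + δ

variable {e κ σ : ℝ} {p δ w : ℂ}

namespace Ctx

theorem σ2_le (h : Ctx e κ σ p δ w) : σ ^ 2 ≤ 1 / 10 * σ := by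
  have h2 := h.hσ
  have h3 := h.hσ0
  nlinarith

theorem δ_σ (h : Ctx e κ σ p δ w) : ‖δ‖ ≤ 733 / 10000 * σ := by
  have h1 := h.δ_σ2
  have h2 := h.σ2_le
  linarith

theorem aδ (h : Ctx e κ σ p δ w) : e / 2 * ‖δ‖ ≤ 74 / 10000 := by
  have h7 := h.δ_σ
  have h8 := h.haσ
  have h9 := mul_le_mul_of_nonneg_left h7 (by linarith [h.he] : (0:ℝ) ≤ e / 2)
  nlinarith

theorem kE3 (h : Ctx e κ σ p δ w) : kE e * σ ^ 3 ≤ 347 / 100000 := by
  have h2 := h.haσ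
  have h3 := h.hσ0
  have h4 := h.hσ
  have he := h.he
  rw [kE]
  set a := e / 2 with ha
  have ha0 : 0 < a := by rw [ha]; linarith
  have hs2 : σ ^ 2 ≤ 1 / 100 := by nlinarith
  have e0 : 0 ≤ a * σ := by positivity
  have has2 : (a * σ) ^ 2 ≤ 1 / 100 := by nlinarith
  have t1 : (a * σ) ^ 2 * σ ≤ 1 / 1000 := by nlinarith [sq_nonneg (a * σ)]
  have t2 : (a * σ) ^ 3 ≤ 1 / 1000 := by nlinarith [sq_nonneg (a * σ)]
  have t3 : (a * σ) * σ ^ 2 ≤ 1 / 1000 := by nlinarith [sq_nonneg σ]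
  have e1 : (209 / 100 * a ^ 2 + 92 / 100 * a ^ 3 + 46 / 100 * a) * σ ^ 3 =
      209 / 100 * ((a * σ) ^ 2 * σ) + 92 / 100 * (a * σ) ^ 3 + 46 / 100 * ((a * σ) * σ ^ 2) := by ring
  rw [e1]
  linarith

theorem kE_nn (h : Ctx e κ σ p δ w) : 0 < kE e := kE_pos (by linarith [h.he])

theorem kE5 (h : Ctx e κ σ p δ w) : 0 ≤ kE e * σ ^ 5 := by
  have := h.kE_nn; have := h.hσ0; positivity

theorem kE4 (h : Ctx e κ σ p δ w) : 0 ≤ kE e * σ ^ 4 := by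
  have := h.kE_nn; have := h.hσ0; positivity

theorem kE5_le (h : Ctx e κ σ p δ w) : kE e * σ ^ 5 ≤ 347 / 100000 * σ ^ 2 := by
  have h1 := mul_le_mul_of_nonneg_right h.kE3 (sq_nonneg σ)
  have e1 : kE e * σ ^ 5 = kE e * σ ^ 3 * σ ^ 2 := by ring
  rw [e1]; exact h1

/-- `W0 = exp p + σ²` -/
theorem W0_eq (h : Ctx e κ σ p δ w) :
    2 * (Real.cosh κ : ℂ) - exp (-p) = exp p + (σ : ℂ) ^ 2 := by
  have h1 := h.cosh_eq
  have h2 : 2 * cosh p = exp p + exp (-p) := by rw [Complex.cosh]; ring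
  rw [h2] at h1
  linear_combination -h1

theorem norm_σ2 (h : Ctx e κ σ p δ w) : ‖((σ : ℂ)) ^ 2‖ = σ ^ 2 := by
  rw [norm_pow, Complex.norm_real, Real.norm_of_nonneg h.hσ0.le]

theorem w1_sub (h : Ctx e κ σ p δ w) : ‖w - 1‖ ≤ 1184 / 1000 * σ := by
  have e1 : w - 1 = (exp p - 1) + (σ : ℂ) ^ 2 + δ := by
    rw [h.hw, h.W0_eq]; ring
  rw [e1]
  refine (norm_add₃_le).trans ?_
  have h1 := h.ep1
  have h2 := h.δ_σ
  have h3 := h.norm_σ2
  have h4 := h.σ2_le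
  have h5 := h.hσ0
  rw [h3]
  linarith

theorem w1_norm (h : Ctx e κ σ p δ w) : 1 + 13 / 100 * σ ^ 2 ≤ ‖w‖ := by
  have h1 := h.W0_ge
  have h2 := h.δ_σ2
  have h3 : ‖2 * (Real.cosh κ : ℂ) - exp (-p)‖ ≤ ‖w‖ + ‖δ‖ := by
    have e1 : 2 * (Real.cosh κ : ℂ) - exp (-p) = w - δ := by rw [h.hw]; ring
    rw [e1]; exact norm_sub_le _ _
  nlinarith [sq_nonneg σ]

theorem w1_gt (h : Ctx e κ σ p δ w) : 1 < ‖w‖ := by
  have h1 := h.w1_norm
  have h2 := h.hσ0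
  have : 0 < 13 / 100 * σ ^ 2 := by positivity
  linarith

theorem w1_ne (h : Ctx e κ σ p δ w) : w ≠ 0 := by
  have h1 := h.w1_gt
  intro h2
  rw [h2, norm_zero] at h1
  linarith

theorem w1_le (h : Ctx e κ σ p δ w) : ‖w‖ ≤ 1 + 1184 / 1000 * σ := by
  have h1 := h.w1_sub
  have h2 : ‖w‖ ≤ ‖w - 1‖ + ‖(1 : ℂ)‖ := by
    have := norm_add_le (w - 1) 1
    simpa using this
  rw [norm_one] at h2
  linarith

theorem w1_le' (h : Ctx e κ σ p δ w) : ‖w‖ ≤ 1119 / 1000 := by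
  have h1 := h.w1_le
  have h2 := h.hσ
  linarith

theorem w1_slit (h : Ctx e κ σ p δ w) : w ∈ slitPlane := by
  left
  have h1 := (Complex.abs_re_le_norm (w - 1)).trans h.w1_sub
  have h2 := h.hσ
  rw [Complex.sub_re, Complex.one_re] at h1
  have := (abs_le.1 h1).1
  linarith

end Ctx

/-- logarithm near a known one -/
theorem exists_log {w z : ℂ} {s : ℝ} (hs : s ≤ 1 / 50) (h : ‖w * exp (-z) - 1‖ ≤ s) :
    ∃ z' : ℂ, exp z' = w ∧ ‖z' - z‖ ≤ s * (1 + s * (26 / 50)) := by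
  have h1 := log_bd (h.trans hs)
  refine ⟨z + log (1 + (w * exp (-z) - 1)), ?_, ?_⟩
  · have h2 : 1 + (w * exp (-z) - 1) ≠ 0 := by
      intro h3
      have h4 : ‖w * exp (-z) - 1‖ = 1 := by
        rw [show w * exp (-z) - 1 = -1 by linear_combination h3]; simp
      linarith
    rw [Complex.exp_add, Complex.exp_log h2]
    have h3 : exp z * exp (-z) = 1 := by rw [← Complex.exp_add]; simp
    linear_combination w * h3
  · rw [add_sub_cancel_left]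
    refine h1.trans ?_
    have h0 := norm_nonneg (w * exp (-z) - 1)
    have h2 : ‖w * exp (-z) - 1‖ * (26 / 50) ≤ s * (26 / 50) := by linarith
    have h3 : 0 ≤ s := h0.trans h
    exact mul_le_mul h (by linarith) (by positivity) h3

namespace Ctx

theorem w_em (h : Ctx e κ σ p δ w) : ‖w * exp (-p) - 1‖ ≤ 174 / 100 * σ ^ 2 := by
  have h1 : w * exp (-p) - 1 = ((σ : ℂ) ^ 2 + δ) * exp (-p) := by
    have h3 : exp p * exp (-p) = 1 := by rw [← Complex.exp_add]; simp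
    rw [h.hw, h.W0_eq]
    linear_combination h3
  rw [h1, norm_mul]
  have h3 : ‖(σ : ℂ) ^ 2 + δ‖ ≤ 1733 / 1000 * σ ^ 2 := by
    refine (norm_add_le _ _).trans ?_
    rw [h.norm_σ2]
    have := h.δ_σ2
    linarith
  calc _ ≤ 1733 / 1000 * σ ^ 2 * (1002 / 1000) := mul_le_mul h3 h.em_le (norm_nonneg _) (by positivity)
    _ ≤ _ := by nlinarith [sq_nonneg σ]

theorem exists_z1 (h : Ctx e κ σ p δ w) :
    ∃ z : ℂ, exp z = w ∧ ‖z - p‖ ≤ 176 / 100 * σ ^ 2 := by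
  have h2 := h.w_em
  have hσ2 : σ ^ 2 ≤ 1 / 100 := by have := h.hσ; have := h.hσ0; nlinarith
  obtain ⟨z, hz1, hz2⟩ := exists_log (by linarith) h2
  refine ⟨z, hz1, hz2.trans ?_⟩
  nlinarith [sq_nonneg σ]

end Ctx

end Pool.Agent.helper63.EQC
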