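import Pool.Agent.helper63.EQC.Head1

/-!
# The neutral corner: deviation of node 1, position of link 1
-/

namespace Pool.Agent.helper63.EQC

open Complex Pool.Agent.helper31.EQ.W

variable {e κ σ : ℝ} {p δ w : ℂ}

/-- `ζ(p)` -/
noncomputable def zt (κ : ℝ) (p : ℂ) : ℂ := (Real.cosh κ : ℂ) - exp (-p)

theorem fz_E (e κ : ℝ) (z : ℂ) :
    fz e κ z = 1 - ((e / 2 : ℝ) : ℂ) * (cosh z - (Real.cosh κ : ℂ)) + Ez e κ z := by
  rw [Ez]; ring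

theorem exp_mul_cosh (z : ℂ) : exp z * cosh z = (exp z ^ 2 + 1) / 2 := by
  have h2 : exp z * exp (-z) = 1 := by rw [← Complex.exp_add]; simp
  rw [Complex.cosh]
  linear_combination (1 / 2 : ℂ) * h2

theorem exp_neg_mul_cosh (z : ℂ) : exp (-z) * cosh z = (exp (-z) ^ 2 + 1) / 2 := by
  have h := exp_mul_cosh (-z)
  rwa [Complex.cosh_neg] at h

/-- exact formula for the deviation of node 1 -/
theorem w_d1 {z : ℂ} (he : 0 < e) (hw : w = 2 * (Real.cosh κ : ℂ) - exp (-p) + δ) (hw0 : w ≠ 0)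
    (hz : exp z = w) (hz1 : ‖z‖ ≤ 1) (hs : ‖(e : ℂ) * z / 2‖ ≤ 14 / 100) :
    w * d1B e κ p w = δ / 2 * (1 + ((e / 2 : ℝ) : ℂ) * (zt κ p + δ / 2)) -
      (w * Ez e κ z - exp (-p) * Ez e κ p) / 2 := by
  have h1 := c2_gl (κ := κ) he hz1 hs
  rw [hz] at h1
  have h2 := c2_gp (e := e) (κ := κ) (p := p)
  rw [fz_E] at h1 h2
  have h3 := exp_mul_cosh z
  rw [hz] at h3
  have h4 := exp_neg_mul_cosh p
  have h5 : w * d1B e κ p w = w - ((Real.cosh κ : ℂ) + z0B e κ p w) := by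
    rw [d1B]; field_simp
  rw [h5, z0B, zt, h1, h2]
  have h6 : exp (-p) = 2 * (Real.cosh κ : ℂ) - w + δ := by rw [hw]; ring
  rw [h6] at h4 ⊢
  linear_combination (((e / 2 : ℝ) : ℂ) / 2) * h3 - (((e / 2 : ℝ) : ℂ) / 2) * h4

namespace Ctx

theorem z_p (h : Ctx e κ σ p δ w) : ‖p‖ ≤ 138 / 100 * σ := by
  have h1 := h.hp; have h2 := h.hσ0; linarith

theorem z_κ (h : Ctx e κ σ p δ w) : ‖(κ : ℂ)‖ ≤ 138 / 100 * σ := by
  have h1 := h.hκσ; have h2 := h.hσ0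
  rw [Complex.norm_real, Real.norm_of_nonneg h.hκ.le]; linarith

theorem z1_le (h : Ctx e κ σ p δ w) {z : ℂ} (hz : ‖z - p‖ ≤ 176 / 100 * σ ^ 2) :
    ‖z‖ ≤ 1186 / 1000 * σ := by
  have h1 := h.hp; have h2 := h.hσ0; have h3 := h.σ2_le
  have h4 : ‖z‖ ≤ ‖z - p‖ + ‖p‖ := by simpa using norm_add_le (z - p) p
  linarith

theorem E_p (h : Ctx e κ σ p δ w) : ‖Ez e κ p‖ ≤ 102 / 100 * (kE e * σ ^ 4) := by
  have he : 0 < e := by linarith [h.he]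
  have h1 := Ez_lip he h.hκ.le h.hκσ h.hσ h.haσ h.z_p h.z_κ
  rw [Ez_kappa he h.hκ.le h.hκσ h.haσ, sub_zero] at h1
  refine h1.trans ?_
  have h2 := h.hpκ
  have h3 : 0 ≤ kE e * σ ^ 3 := by have := kE_pos he; have := h.hσ0; positivity
  have := mul_le_mul_of_nonneg_left h2 h3
  nlinarith

theorem E_z1p (h : Ctx e κ σ p δ w) {z : ℂ} (hz : ‖z - p‖ ≤ 176 / 100 * σ ^ 2) :
    ‖Ez e κ z - Ez e κ p‖ ≤ 176 / 100 * (kE e * σ ^ 5) := by
  have he : 0 < e := by linarith [h.he]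
  have h4 := h.z1_le hz
  have h2' := h.hσ0
  have h1 := Ez_lip he h.hκ.le h.hκσ h.hσ h.haσ (z := z) (z' := p) (by linarith) h.z_p
  refine h1.trans ?_
  have h3 : 0 ≤ kE e * σ ^ 3 := by have := kE_pos he; positivity
  have := mul_le_mul_of_nonneg_left hz h3
  nlinarith

theorem kE54 (h : Ctx e κ σ p δ w) : kE e * σ ^ 5 ≤ 1 / 10 * (kE e * σ ^ 4) := by
  have := mul_le_mul_of_nonneg_left h.hσ h.kE4
  nlinarith

theorem E_z1 (h : Ctx e κ σ p δ w) {z : ℂ} (hz : ‖z - p‖ ≤ 176 / 100 * σ ^ 2) :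
    ‖Ez e κ z‖ ≤ 1196 / 1000 * (kE e * σ ^ 4) := by
  have h1 := h.E_z1p hz
  have h2 := h.E_p
  have h3 : ‖Ez e κ z‖ ≤ ‖Ez e κ z - Ez e κ p‖ + ‖Ez e κ p‖ := by
    simpa using norm_add_le (Ez e κ z - Ez e κ p) (Ez e κ p)
  have h4 := h.kE54
  have := h.kE4
  linarith

theorem zδ (h : Ctx e κ σ p δ w) : ‖2 * zt κ p + δ‖ ≤ 20733 / 10000 * σ := by
  refine (norm_add_le _ _).trans ?_
  rw [norm_mul, Complex.norm_ofNat]
  have h4 := h.ζ_le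
  rw [← zt] at h4
  have h5 := h.δ_σ
  linarith

theorem T1_kE (h : Ctx e κ σ p δ w) {z : ℂ} (hz : ‖z - p‖ ≤ 176 / 100 * σ ^ 2) :
    ‖w * Ez e κ z - exp (-p) * Ez e κ p‖ ≤ 409 / 100 * (kE e * σ ^ 5) := by
  have e1 : w * Ez e κ z - exp (-p) * Ez e κ p =
      w * (Ez e κ z - Ez e κ p) + (2 * zt κ p + δ) * Ez e κ p := by
    rw [h.hw, zt]; ring
  have h1 := h.E_z1p hz
  have h2 := h.E_p
  have h3 := h.zδ
  rw [e1]
  refine (norm_add_le _ _).trans ?_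
  rw [norm_mul, norm_mul]
  have h5 := h.kE5
  have h6 : ‖w‖ * ‖Ez e κ z - Ez e κ p‖ ≤ 1119 / 1000 * (176 / 100 * (kE e * σ ^ 5)) :=
    mul_le_mul h.w1_le' h1 (norm_nonneg _) (by norm_num)
  have h7 : ‖2 * zt κ p + δ‖ * ‖Ez e κ p‖ ≤ (20733 / 10000 * σ) * (102 / 100 * (kE e * σ ^ 4)) :=
    mul_le_mul h3 h2 (norm_nonneg _) (by have := h.hσ0; positivity)
  have h8 : (20733 / 10000 * σ) * (102 / 100 * (kE e * σ ^ 4)) =
      20733 / 10000 * (102 / 100) * (kE e * σ ^ 5) := by ring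
  rw [h8] at h7
  linarith

theorem T1_le (h : Ctx e κ σ p δ w) {z : ℂ} (hz : ‖z - p‖ ≤ 176 / 100 * σ ^ 2) :
    ‖w * Ez e κ z - exp (-p) * Ez e κ p‖ ≤ 142 / 10000 * σ ^ 2 := by
  have h1 := h.T1_kE hz
  have h2 := h.kE5_le
  have := sq_nonneg σ
  linarith

theorem a0_sub (h : Ctx e κ σ p δ w) :
    ‖((e / 2 : ℝ) : ℂ) * (zt κ p + δ / 2)‖ ≤ 1037 / 10000 := by
  rw [norm_mul, Complex.norm_real, Real.norm_of_nonneg (by linarith [h.he])]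
  have h4 := h.ζ_le
  rw [← zt] at h4
  have h5 := h.δ_σ
  have h3 : ‖zt κ p + δ / 2‖ ≤ 1037 / 1000 * σ := by
    refine (norm_add_le _ _).trans ?_
    rw [norm_div, Complex.norm_ofNat]
    have h6 := h.hσ0
    linarith
  have h7 : e / 2 * ‖zt κ p + δ / 2‖ ≤ e / 2 * (1037 / 1000 * σ) :=
    mul_le_mul_of_nonneg_left h3 (by linarith [h.he])
  have h8 := h.haσ
  nlinarith

theorem a0_ge (h : Ctx e κ σ p δ w) :
    9963 / 10000 ≤ ‖1 + ((e / 2 : ℝ) : ℂ) * (zt κ p + δ / 2)‖ := by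
  have h1 := h.ζ_re
  rw [← zt] at h1
  have h2 := Complex.abs_re_le_norm (1 + ((e / 2 : ℝ) : ℂ) * (zt κ p + δ / 2))
  have h3 := (le_abs_self _).trans h2
  have h4 : (1 + ((e / 2 : ℝ) : ℂ) * (zt κ p + δ / 2)).re = 1 + e / 2 * ((zt κ p).re + δ.re / 2) := by
    rw [Complex.add_re, Complex.one_re, Complex.re_ofReal_mul, Complex.add_re]
    simp
  rw [h4] at h3
  have h5 : -‖δ‖ ≤ δ.re := by
    have := Complex.abs_re_le_norm δ
    exact (abs_le.1 this).1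
  have h6 := h.aδ
  have h10 : 0 ≤ e / 2 * (zt κ p).re := mul_nonneg (by linarith [h.he]) h1
  have h11 : e / 2 * (-‖δ‖) ≤ e / 2 * δ.re := mul_le_mul_of_nonneg_left h5 (by linarith [h.he])
  linarith

/-- `w d1 = δ/2 + small` -/
theorem wd1_sub (h : Ctx e κ σ p δ w) : ‖w * d1B e κ p w - δ / 2‖ ≤ 452 / 10000 * σ ^ 2 := by
  obtain ⟨z, hz1, hz2⟩ := h.exists_z1
  have he : 0 < e := by linarith [h.he]
  have h1 := h.z1_le hz2
  have h2 := h.hσ0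
  have h3 := h.hσ
  rw [w_d1 he h.hw h.w1_ne hz1 (by linarith) (small_of he h.haσ (by linarith))]
  have e1 : δ / 2 * (1 + ((e / 2 : ℝ) : ℂ) * (zt κ p + δ / 2)) -
      (w * Ez e κ z - exp (-p) * Ez e κ p) / 2 - δ / 2 =
      δ / 2 * (((e / 2 : ℝ) : ℂ) * (zt κ p + δ / 2)) - (w * Ez e κ z - exp (-p) * Ez e κ p) / 2 := by
    ring
  rw [e1]
  refine (norm_sub_le _ _).trans ?_
  rw [norm_mul, norm_div, norm_div, Complex.norm_ofNat]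
  have h4 := h.a0_sub
  have h5 := h.T1_le hz2
  have h6 := h.δ_σ2
  have h8 : ‖δ‖ / 2 * ‖((e / 2 : ℝ) : ℂ) * (zt κ p + δ / 2)‖ ≤
      (733 / 1000 * σ ^ 2) / 2 * (1037 / 10000) :=
    mul_le_mul (by linarith) h4 (norm_nonneg _) (by positivity)
  nlinarith [sq_nonneg σ]

theorem wd1_le (h : Ctx e κ σ p δ w) : ‖w * d1B e κ p w‖ ≤ 412 / 1000 * σ ^ 2 := by
  have h1 := h.wd1_sub
  have h2 := h.δ_σ2
  have h3 : ‖w * d1B e κ p w‖ ≤ ‖w * d1B e κ p w - δ / 2‖ + ‖δ / 2‖ := by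
    simpa using norm_add_le (w * d1B e κ p w - δ / 2) (δ / 2)
  rw [norm_div, Complex.norm_ofNat] at h3
  nlinarith [sq_nonneg σ]

theorem δ_wd1 (h : Ctx e κ σ p δ w) : ‖δ - w * d1B e κ p w‖ ≤ 412 / 1000 * σ ^ 2 := by
  have h1 := h.wd1_sub
  have h2 := h.δ_σ2
  have e1 : δ - w * d1B e κ p w = δ / 2 - (w * d1B e κ p w - δ / 2) := by ring
  rw [e1]
  refine (norm_sub_le _ _).trans ?_
  rw [norm_div, Complex.norm_ofNat]
  nlinarith [sq_nonneg σ]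

theorem d1_le (h : Ctx e κ σ p δ w) : ‖d1B e κ p w‖ ≤ 412 / 1000 * σ ^ 2 := by
  have h1 := h.wd1_le
  rw [norm_mul] at h1
  have h2 := h.w1_gt
  have h3 := norm_nonneg (d1B e κ p w)
  nlinarith

theorem d1_σ (h : Ctx e κ σ p δ w) : ‖d1B e κ p w‖ ≤ 412 / 10000 * σ := by
  have h1 := h.d1_le
  have h2 := h.σ2_le
  linarith

theorem ad1 (h : Ctx e κ σ p δ w) : e / 2 * ‖d1B e κ p w‖ ≤ 412 / 100000 := by
  have h7 := h.d1_σ
  have h8 := h.haσ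
  have h9 := mul_le_mul_of_nonneg_left h7 (by linarith [h.he] : (0:ℝ) ≤ e / 2)
  nlinarith

end Ctx

end Pool.Agent.helper63.EQC
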