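import Pool.Agent.helper63.EQC.Head2

/-!
# The neutral corner: position of link 1
-/

namespace Pool.Agent.helper63.EQC

open Complex Pool.Agent.helper31.EQ.W

variable {e κ σ : ℝ} {p δ w : ℂ}

/-- `α₋ = exp(-κ) - exp(-p)` -/
noncomputable def am (κ : ℝ) (p : ℂ) : ℂ := exp (-(κ : ℂ)) - exp (-p)

/-- `α₊ = exp κ - exp(-p)` -/
noncomputable def ap (κ : ℝ) (p : ℂ) : ℂ := exp (κ : ℂ) - exp (-p)

theorem C_eq (κ : ℝ) : (Real.cosh κ : ℂ) = (exp (κ : ℂ) + exp (-(κ : ℂ))) / 2 := by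
  rw [Complex.ofReal_cosh, Complex.cosh]

theorem S_eq (κ : ℝ) : (Real.sinh κ : ℂ) = (exp (κ : ℂ) - exp (-(κ : ℂ))) / 2 := by
  rw [Complex.ofReal_sinh, Complex.sinh]

theorem ee (κ : ℝ) : exp (κ : ℂ) * exp (-(κ : ℂ)) = 1 := by
  rw [← Complex.exp_add]; simp

/-- `D₋` -/
noncomputable def Dm (e κ : ℝ) (p δ w : ℂ) : ℂ := δ - exp (κ : ℂ) * (w * d1B e κ p w)

/-- `D₊` -/
noncomputable def Dp (e κ : ℝ) (p δ w : ℂ) : ℂ := δ - exp (-(κ : ℂ)) * (w * d1B e κ p w)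

theorem Y1_mul (hw0 : w ≠ 0) : w * Y1B e κ p w = w * d1B e κ p w + 1 := by
  rw [Y1B]; field_simp

theorem z1m (hw0 : w ≠ 0) (hw : w = 2 * (Real.cosh κ : ℂ) - exp (-p) + δ) :
    w * ((Real.cosh κ : ℂ) - Y1B e κ p w - (Real.sinh κ : ℂ)) =
      exp (-(κ : ℂ)) * (am κ p + Dm e κ p δ w) := by
  have h1 := Y1_mul (e := e) (κ := κ) (p := p) hw0
  have h2 := C_eq κ
  have h3 := S_eq κ
  have h4 := ee κ
  have h5 : w * ((Real.cosh κ : ℂ) - Y1B e κ p w - (Real.sinh κ : ℂ)) =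
      w * exp (-(κ : ℂ)) - (w * d1B e κ p w + 1) := by
    rw [← h1, h2, h3]; ring
  rw [h5, am, Dm]
  have h6 : w = exp (κ : ℂ) + exp (-(κ : ℂ)) - exp (-p) + δ := by rw [hw, h2]; ring
  have h7 : w * exp (-(κ : ℂ)) = (exp (κ : ℂ) + exp (-(κ : ℂ)) - exp (-p) + δ) * exp (-(κ : ℂ)) := by
    rw [← h6]
  rw [h7]
  linear_combination (1 + w * d1B e κ p w) * h4

theorem z1p (hw0 : w ≠ 0) (hw : w = 2 * (Real.cosh κ : ℂ) - exp (-p) + δ) :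
    w * ((Real.cosh κ : ℂ) - Y1B e κ p w + (Real.sinh κ : ℂ)) =
      exp (κ : ℂ) * (ap κ p + Dp e κ p δ w) := by
  have h1 := Y1_mul (e := e) (κ := κ) (p := p) hw0
  have h2 := C_eq κ
  have h3 := S_eq κ
  have h4 := ee κ
  have h5 : w * ((Real.cosh κ : ℂ) - Y1B e κ p w + (Real.sinh κ : ℂ)) =
      w * exp (κ : ℂ) - (w * d1B e κ p w + 1) := by
    rw [← h1, h2, h3]; ring
  rw [h5, ap, Dp]
  have h6 : w = exp (κ : ℂ) + exp (-(κ : ℂ)) - exp (-p) + δ := by rw [hw, h2]; ring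
  have h7 : w * exp (κ : ℂ) = (exp (κ : ℂ) + exp (-(κ : ℂ)) - exp (-p) + δ) * exp (κ : ℂ) := by
    rw [← h6]
  rw [h7]
  linear_combination (1 + w * d1B e κ p w) * h4

/-- `C - 1/W - S` for `W = 2C - Y` -/
theorem zPm {Y : ℂ} (hW : 2 * (Real.cosh κ : ℂ) - Y ≠ 0) :
    (2 * (Real.cosh κ : ℂ) - Y) * ((Real.cosh κ : ℂ) - 1 / (2 * (Real.cosh κ : ℂ) - Y) -
      (Real.sinh κ : ℂ)) = exp (-(κ : ℂ)) * ((Real.cosh κ : ℂ) - Y - (Real.sinh κ : ℂ)) := by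
  have e1 : (2 * (Real.cosh κ : ℂ) - Y) * ((Real.cosh κ : ℂ) - 1 / (2 * (Real.cosh κ : ℂ) - Y) -
      (Real.sinh κ : ℂ)) = (2 * (Real.cosh κ : ℂ) - Y) * ((Real.cosh κ : ℂ) - (Real.sinh κ : ℂ)) - 1 := by
    field_simp
    ring
  rw [e1, C_eq, S_eq]
  linear_combination ee κ

theorem zPp {Y : ℂ} (hW : 2 * (Real.cosh κ : ℂ) - Y ≠ 0) :
    (2 * (Real.cosh κ : ℂ) - Y) * ((Real.cosh κ : ℂ) - 1 / (2 * (Real.cosh κ : ℂ) - Y) +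
      (Real.sinh κ : ℂ)) = exp (κ : ℂ) * ((Real.cosh κ : ℂ) - Y + (Real.sinh κ : ℂ)) := by
  have e1 : (2 * (Real.cosh κ : ℂ) - Y) * ((Real.cosh κ : ℂ) - 1 / (2 * (Real.cosh κ : ℂ) - Y) +
      (Real.sinh κ : ℂ)) = (2 * (Real.cosh κ : ℂ) - Y) * ((Real.cosh κ : ℂ) + (Real.sinh κ : ℂ)) - 1 := by
    field_simp
    ring
  rw [e1, C_eq, S_eq]
  linear_combination ee κ

theorem v2_fac (P : ℂ) : 1 - 2 * (Real.cosh κ : ℂ) * P + P ^ 2 =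
    ((Real.cosh κ : ℂ) - P - (Real.sinh κ : ℂ)) * ((Real.cosh κ : ℂ) - P + (Real.sinh κ : ℂ)) := by
  rw [C_eq, S_eq]
  linear_combination (-1 : ℂ) * ee κ

namespace Ctx

theorem am_pos (h : Ctx e κ σ p δ w) : 0 < ‖am κ p‖ := by
  have h1 := h.am_ge; have h2 := h.hσ0
  rw [am]; linarith

theorem am_ap (h : Ctx e κ σ p δ w) : ‖am κ p‖ ≤ ‖ap κ p‖ := h.am_le.trans h.ap_ge

theorem κ_le (h : Ctx e κ σ p δ w) : κ ≤ 101 / 1000 := by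
  have h1 := h.hκσ; have h2 := h.hσ; linarith

theorem expκ (h : Ctx e κ σ p δ w) : ‖exp (κ : ℂ) - 1‖ ≤ 106 / 100 * κ := by
  have h3 := exp4 (x := (κ : ℂ)) (by
    rw [Complex.norm_real, Real.norm_of_nonneg h.hκ.le]; linarith [h.κ_le])
  rw [Complex.norm_real, Real.norm_of_nonneg h.hκ.le] at h3
  have h4 : exp (κ : ℂ) - 1 = (exp (κ : ℂ) - (1 + (κ : ℂ) + (κ : ℂ) ^ 2 / 2 + (κ : ℂ) ^ 3 / 6)) +
      ((κ + κ ^ 2 / 2 + κ ^ 3 / 6 : ℝ) : ℂ) := by push_cast; ring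
  rw [h4]
  have hk := h.hκ
  have h5 := h.κ_le
  refine (norm_add_le _ _).trans ?_
  rw [Complex.norm_real, Real.norm_of_nonneg (by positivity)]
  have h6 : κ ^ 2 ≤ 101 / 1000 * κ := by nlinarith
  have h7 : κ ^ 3 ≤ 101 / 1000 * κ ^ 2 := by nlinarith [sq_nonneg κ]
  have h8 : κ ^ 4 ≤ 101 / 1000 * κ ^ 3 := by nlinarith [pow_pos hk 3]
  nlinarith

theorem expκn (h : Ctx e κ σ p δ w) : ‖exp (-(κ : ℂ)) - 1‖ ≤ 106 / 100 * κ := by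
  have h1 : exp (-(κ : ℂ)) - 1 = -(exp (-(κ : ℂ)) * (exp (κ : ℂ) - 1)) := by
    linear_combination ee κ
  rw [h1, norm_neg, norm_mul]
  have h2 : ‖exp (-(κ : ℂ))‖ ≤ 1 := by
    rw [Complex.norm_exp]
    have : (-(κ : ℂ)).re = -κ := by simp
    rw [this, Real.exp_le_one_iff]
    linarith [h.hκ]
  have h3 := h.expκ
  nlinarith [norm_nonneg (exp (κ : ℂ) - 1), norm_nonneg (exp (-(κ : ℂ)))]

theorem Dm_le (h : Ctx e κ σ p δ w) : ‖Dm e κ p δ w‖ ≤ 457 / 1000 * σ ^ 2 := by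
  have e1 : Dm e κ p δ w = (δ - w * d1B e κ p w) - (exp (κ : ℂ) - 1) * (w * d1B e κ p w) := by
    rw [Dm]; ring
  rw [e1]
  refine (norm_sub_le _ _).trans ?_
  rw [norm_mul (exp (κ : ℂ) - 1)]
  have h1 := h.δ_wd1
  have h2 := h.wd1_le
  have h3 := h.expκ
  have h4 := h.κ_le
  have h6 : ‖exp (κ : ℂ) - 1‖ * ‖w * d1B e κ p w‖ ≤ (10706 / 100000) * (412 / 1000 * σ ^ 2) :=
    mul_le_mul (by linarith) h2 (norm_nonneg _) (by norm_num)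
  nlinarith [sq_nonneg σ]

theorem Dp_le (h : Ctx e κ σ p δ w) : ‖Dp e κ p δ w‖ ≤ 457 / 1000 * σ ^ 2 := by
  have e1 : Dp e κ p δ w = (δ - w * d1B e κ p w) - (exp (-(κ : ℂ)) - 1) * (w * d1B e κ p w) := by
    rw [Dp]; ring
  rw [e1]
  refine (norm_sub_le _ _).trans ?_
  rw [norm_mul (exp (-(κ : ℂ)) - 1)]
  have h1 := h.δ_wd1
  have h2 := h.wd1_le
  have h3 := h.expκn
  have h4 := h.κ_le
  have h6 : ‖exp (-(κ : ℂ)) - 1‖ * ‖w * d1B e κ p w‖ ≤ (10706 / 100000) * (412 / 1000 * σ ^ 2) :=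
    mul_le_mul (by linarith) h2 (norm_nonneg _) (by norm_num)
  nlinarith [sq_nonneg σ]

theorem Dm_am (h : Ctx e κ σ p δ w) : ‖Dm e κ p δ w‖ ≤ 492 / 10000 * ‖am κ p‖ := by
  have h1 := h.Dm_le
  have h2 := h.σ2_le
  have h3 := h.am_ge
  have h4 := h.hσ0
  rw [← am] at h3
  linarith

theorem Dp_ap (h : Ctx e κ σ p δ w) : ‖Dp e κ p δ w‖ ≤ 457 / 10000 * ‖ap κ p‖ := by
  have h1 := h.Dp_le
  have h2 := h.σ2_le
  have h3 := h.ap_ge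
  rw [← ap] at h3
  linarith

theorem amD (h : Ctx e κ σ p δ w) : ‖am κ p + Dm e κ p δ w‖ ≤ 10492 / 10000 * ‖am κ p‖ := by
  refine (norm_add_le _ _).trans ?_
  have h1 := h.Dm_am
  linarith

theorem apD (h : Ctx e κ σ p δ w) : ‖ap κ p + Dp e κ p δ w‖ ≤ 10457 / 10000 * ‖ap κ p‖ := by
  refine (norm_add_le _ _).trans ?_
  have h1 := h.Dp_ap
  linarith

theorem amD_ge (h : Ctx e κ σ p δ w) : 9508 / 10000 * ‖am κ p‖ ≤ ‖am κ p + Dm e κ p δ w‖ := by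
  have h3 : ‖am κ p‖ ≤ ‖am κ p + Dm e κ p δ w‖ + ‖Dm e κ p δ w‖ := by
    simpa using norm_sub_le (am κ p + Dm e κ p δ w) (Dm e κ p δ w)
  have h1 := h.Dm_am
  linarith

theorem apD_ge (h : Ctx e κ σ p δ w) : 9543 / 10000 * ‖ap κ p‖ ≤ ‖ap κ p + Dp e κ p δ w‖ := by
  have h3 : ‖ap κ p‖ ≤ ‖ap κ p + Dp e κ p δ w‖ + ‖Dp e κ p δ w‖ := by
    simpa using norm_sub_le (ap κ p + Dp e κ p δ w) (Dp e κ p δ w)
  have h1 := h.Dp_ap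
  linarith

/-- exact formula of the position -/
theorem W1_err (h : Ctx e κ σ p δ w) :
    w * (2 * (Real.cosh κ : ℂ) - Y1B e κ p w - w - (σ : ℂ) ^ 2) =
      -((2 * zt κ p + δ) * ((σ : ℂ) ^ 2 + δ)) - w * d1B e κ p w := by
  have h1 := Y1_mul (e := e) (κ := κ) (p := p) h.w1_ne
  have h2 := h.W0_eq
  have h3 : exp p * exp (-p) = 1 := by rw [← Complex.exp_add]; simp
  have h4 : w * (2 * (Real.cosh κ : ℂ) - Y1B e κ p w - w - (σ : ℂ) ^ 2) =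
      2 * (Real.cosh κ : ℂ) * w - (w * d1B e κ p w + 1) - w ^ 2 - w * (σ : ℂ) ^ 2 := by
    rw [← h1]; ring
  rw [h4, zt]
  have h5 := h.hw
  have h6 : exp (-p) * (2 * (Real.cosh κ : ℂ) - exp (-p)) = exp (-p) * (exp p + (σ : ℂ) ^ 2) := by
    rw [h2]
  have h7 : δ = w - (2 * (Real.cosh κ : ℂ) - exp (-p)) := by rw [h5]; ring
  rw [h7]
  linear_combination h6 + h3

theorem X_le (h : Ctx e κ σ p δ w) :
    ‖(2 * zt κ p + δ) * ((σ : ℂ) ^ 2 + δ)‖ ≤ 3594 / 10000 * σ ^ 2 := by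
  rw [norm_mul]
  have h3 := h.zδ
  have h4 : ‖(σ : ℂ) ^ 2 + δ‖ ≤ 1733 / 1000 * σ ^ 2 := by
    refine (norm_add_le _ _).trans ?_
    rw [h.norm_σ2]
    have := h.δ_σ2
    linarith
  have h5 : ‖2 * zt κ p + δ‖ * ‖(σ : ℂ) ^ 2 + δ‖ ≤ 20733 / 10000 * σ * (1733 / 1000 * σ ^ 2) :=
    mul_le_mul h3 h4 (norm_nonneg _) (by have := h.hσ0; positivity)
  have h8 : σ ^ 3 ≤ 1 / 10 * σ ^ 2 := by
    have := h.hσ; nlinarith [sq_nonneg σ]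
  have h9 : 20733 / 10000 * σ * (1733 / 1000 * σ ^ 2) = 20733 / 10000 * (1733 / 1000) * σ ^ 3 := by ring
  rw [h9] at h5
  nlinarith [sq_nonneg σ]

theorem W1_sub (h : Ctx e κ σ p δ w) :
    ‖2 * (Real.cosh κ : ℂ) - Y1B e κ p w - w - (σ : ℂ) ^ 2‖ ≤ 772 / 1000 * σ ^ 2 := by
  have h1 := h.W1_err
  have h2 : ‖w‖ * ‖2 * (Real.cosh κ : ℂ) - Y1B e κ p w - w - (σ : ℂ) ^ 2‖ ≤ 772 / 1000 * σ ^ 2 := by
    rw [← norm_mul, h1]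
    refine (norm_sub_le _ _).trans ?_
    rw [norm_neg]
    have h5 := h.X_le
    have h6 := h.wd1_le
    nlinarith [sq_nonneg σ]
  have h3 := h.w1_gt
  have h4 := norm_nonneg (2 * (Real.cosh κ : ℂ) - Y1B e κ p w - w - (σ : ℂ) ^ 2)
  nlinarith

theorem W1_w (h : Ctx e κ σ p δ w) :
    ‖2 * (Real.cosh κ : ℂ) - Y1B e κ p w - w‖ ≤ 1772 / 1000 * σ ^ 2 := by
  have e1 : 2 * (Real.cosh κ : ℂ) - Y1B e κ p w - w =
      (2 * (Real.cosh κ : ℂ) - Y1B e κ p w - w - (σ : ℂ) ^ 2) + (σ : ℂ) ^ 2 := by ring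
  rw [e1]
  refine (norm_add_le _ _).trans ?_
  rw [h.norm_σ2]
  have := h.W1_sub
  linarith

theorem W1_sub' (h : Ctx e κ σ p δ w) :
    ‖2 * (Real.cosh κ : ℂ) - Y1B e κ p w - w - (σ : ℂ) ^ 2 + δ‖ ≤ 859 / 1000 * σ ^ 2 := by
  have h1 := h.W1_err
  have h2 : ‖w‖ * ‖2 * (Real.cosh κ : ℂ) - Y1B e κ p w - w - (σ : ℂ) ^ 2 + δ‖ ≤
      859 / 1000 * σ ^ 2 := by
    have e1 : w * (2 * (Real.cosh κ : ℂ) - Y1B e κ p w - w - (σ : ℂ) ^ 2 + δ) =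
        (w - 1) * δ + (δ - w * d1B e κ p w) - (2 * zt κ p + δ) * ((σ : ℂ) ^ 2 + δ) := by
      linear_combination h1
    rw [← norm_mul, e1]
    refine (norm_sub_le _ _).trans ?_
    have h5 := h.X_le
    have h6 := h.δ_wd1
    have h7 : ‖(w - 1) * δ‖ ≤ 1184 / 10000 * (733 / 1000 * σ ^ 2) := by
      rw [norm_mul]
      have h8 := h.w1_sub
      have h9 := h.hσ
      exact mul_le_mul (by linarith) h.δ_σ2 (norm_nonneg _) (by norm_num)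
    have h8 := norm_add_le ((w - 1) * δ) (δ - w * d1B e κ p w)
    nlinarith [sq_nonneg σ]
  have h3 := h.w1_gt
  have h4 := norm_nonneg (2 * (Real.cosh κ : ℂ) - Y1B e κ p w - w - (σ : ℂ) ^ 2 + δ)
  nlinarith

theorem W1_gt (h : Ctx e κ σ p δ w) : 1 < ‖2 * (Real.cosh κ : ℂ) - Y1B e κ p w‖ := by
  have h1 := h.W1_sub'
  have h3 : ‖exp p + 2 * (σ : ℂ) ^ 2‖ ≤ ‖2 * (Real.cosh κ : ℂ) - Y1B e κ p w‖ +
      ‖2 * (Real.cosh κ : ℂ) - Y1B e κ p w - w - (σ : ℂ) ^ 2 + δ‖ := by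
    have e1 : exp p + 2 * (σ : ℂ) ^ 2 = (2 * (Real.cosh κ : ℂ) - Y1B e κ p w) -
        (2 * (Real.cosh κ : ℂ) - Y1B e κ p w - w - (σ : ℂ) ^ 2 + δ) := by
      have := h.W0_eq
      have h5 := h.hw
      rw [h5]
      linear_combination -this
    calc ‖exp p + 2 * (σ : ℂ) ^ 2‖ = ‖(2 * (Real.cosh κ : ℂ) - Y1B e κ p w) -
        (2 * (Real.cosh κ : ℂ) - Y1B e κ p w - w - (σ : ℂ) ^ 2 + δ)‖ := by rw [← e1]
      _ ≤ _ := norm_sub_le _ _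
  have h4 : 2 * ‖exp p + (σ : ℂ) ^ 2‖ ≤ ‖exp p + 2 * (σ : ℂ) ^ 2‖ + ‖exp p‖ := by
    have e1 : 2 * (exp p + (σ : ℂ) ^ 2) = (exp p + 2 * (σ : ℂ) ^ 2) + exp p := by ring
    have := norm_add_le (exp p + 2 * (σ : ℂ) ^ 2) (exp p)
    rw [← e1, norm_mul, Complex.norm_ofNat] at this
    exact this
  have h5 := h.W0_ge
  rw [h.W0_eq] at h5
  have h6 := h.ep_le
  have h7 : 0 < σ ^ 2 := by have := h.hσ0; positivity
  linarith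

theorem W1_ne (h : Ctx e κ σ p δ w) : 2 * (Real.cosh κ : ℂ) - Y1B e κ p w ≠ 0 := by
  have h1 := h.W1_gt
  intro h2
  rw [h2, norm_zero] at h1
  linarith

end Ctx

end Pool.Agent.helper63.EQC
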