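import Pool.Agent.helper63.EQC.Head3

/-!
# The neutral corner: region and radius at link 1
-/

namespace Pool.Agent.helper63.EQC

open Complex Pool.Agent.helper31.EQ.W

variable {e κ σ : ℝ} {p δ w : ℂ}

theorem cross_id (e κ : ℝ) (p δ w : ℂ) :
    ap κ p * (am κ p + Dm e κ p δ w) - am κ p * (ap κ p + Dp e κ p δ w) =
      2 * (Real.sinh κ : ℂ) * ((δ - w * d1B e κ p w) - w * d1B e κ p w *
        (2 * (Real.cosh κ : ℂ) - exp (-p) - 1)) := by
  rw [ap, am, Dm, Dp, C_eq, S_eq]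
  ring

namespace Ctx

theorem sinh_le (h : Ctx e κ σ p δ w) : ‖(Real.sinh κ : ℂ)‖ ≤ 10018 / 10000 * κ := by
  have h0 := h.hκ
  have h1 := h.κ_le
  have h2 := sinh_bd3 (y := (κ : ℂ)) (by
    rw [Complex.norm_real, Real.norm_of_nonneg h0.le]; linarith)
  rw [Complex.norm_real, Real.norm_of_nonneg h0.le] at h2
  have h3 : ‖sinh (κ : ℂ)‖ ≤ ‖sinh (κ : ℂ) - κ‖ + ‖(κ : ℂ)‖ := by
    simpa using norm_add_le (sinh (κ : ℂ) - κ) (κ : ℂ)
  rw [Complex.norm_real, Real.norm_of_nonneg h0.le] at h3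
  rw [Complex.ofReal_sinh]
  have h4 : κ ^ 3 ≤ 10201 / 1000000 * κ := by
    have : κ ^ 2 ≤ 10201 / 1000000 := by nlinarith
    nlinarith
  nlinarith

/-- the position inequality, general form -/
theorem am_lt_ap_gen (h : Ctx e κ σ p δ w) {c x B : ℝ} (hc : 0 < c) (hB0 : 0 ≤ B)
    (hratio : ‖am κ p‖ * (1 + c * κ) ≤ ‖ap κ p‖) (hx0 : 0 < x)
    (hx : x * ‖ap κ p‖ ≤ ‖ap κ p + Dp e κ p δ w‖)
    (hB : ‖(δ - w * d1B e κ p w) - w * d1B e κ p w * (2 * (Real.cosh κ : ℂ) - exp (-p) - 1)‖ ≤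
      B * σ ^ 2) (hnum : 2 * (10018 / 10000) * B < c * x * (998 / 1000)) :
    ‖am κ p + Dm e κ p δ w‖ < ‖ap κ p + Dp e κ p δ w‖ := by
  by_contra hcon
  push Not at hcon
  have h1 := cross_id e κ p δ w
  have h3 : ‖ap κ p‖ * ‖am κ p + Dm e κ p δ w‖ ≤ ‖am κ p‖ * ‖ap κ p + Dp e κ p δ w‖ +
      2 * (10018 / 10000 * κ) * (B * σ ^ 2) := by
    rw [← norm_mul, ← norm_mul]
    have e1 : ap κ p * (am κ p + Dm e κ p δ w) = am κ p * (ap κ p + Dp e κ p δ w) +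
        2 * (Real.sinh κ : ℂ) * ((δ - w * d1B e κ p w) - w * d1B e κ p w *
        (2 * (Real.cosh κ : ℂ) - exp (-p) - 1)) := by rw [← h1]; ring
    rw [e1]
    refine (norm_add_le _ _).trans (add_le_add le_rfl ?_)
    rw [norm_mul, norm_mul, Complex.norm_ofNat]
    have := h.sinh_le
    have hκ := h.hκ
    exact mul_le_mul (by linarith) hB (norm_nonneg _) (by positivity)
  have h6 := h.v_ge
  rw [← am, ← ap] at h6
  have hκ := h.hκ
  have hσ := h.hσ0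
  have ha := h.am_pos
  have hab := h.am_ap
  generalize ‖am κ p + Dm e κ p δ w‖ = y at *
  generalize ‖ap κ p + Dp e κ p δ w‖ = x' at *
  generalize ‖am κ p‖ = α at *
  generalize ‖ap κ p‖ = β at *
  -- (β - α) y ≤ R
  have h8 : (β - α) * y ≤ 2 * (10018 / 10000 * κ) * (B * σ ^ 2) := by
    have : α * x' ≤ α * y := mul_le_mul_of_nonneg_left hcon ha.le
    linarith
  have h9 : c * κ * α ≤ β - α := by linarith
  have h10 : x * β ≤ y := hx.trans hcon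
  have hβ0 : 0 < β := by linarith
  have h11 : c * κ * α * (x * β) ≤ (β - α) * y :=
    mul_le_mul h9 h10 (by positivity) (by linarith [mul_pos (mul_pos hc hκ) ha])
  have h12 : c * x * κ * (998 / 1000 * σ ^ 2) ≤ c * x * κ * (α * β) :=
    mul_le_mul_of_nonneg_left h6 (by positivity)
  have h14 : 0 < κ * σ ^ 2 := by positivity
  have h15 := mul_lt_mul_of_pos_right hnum h14
  have h16 : c * κ * α * (x * β) = c * x * κ * (α * β) := by ring
  have h17 : c * x * κ * (998 / 1000 * σ ^ 2) = c * x * (998 / 1000) * (κ * σ ^ 2) := by ring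
  have h18 : 2 * (10018 / 10000 * κ) * (B * σ ^ 2) = 2 * (10018 / 10000) * B * (κ * σ ^ 2) := by ring
  rw [h16] at h11
  rw [h17] at h12
  rw [h18] at h8
  linarith

/-- imaginary side -/
theorem am_lt_ap (h : Ctx e κ σ p δ w) (hratio : ‖am κ p‖ * (1 + κ) ≤ ‖ap κ p‖) :
    ‖am κ p + Dm e κ p δ w‖ < ‖ap κ p + Dp e κ p δ w‖ := by
  have h2 : ‖(δ - w * d1B e κ p w) - w * d1B e κ p w * (2 * (Real.cosh κ : ℂ) - exp (-p) - 1)‖ ≤
      4578 / 10000 * σ ^ 2 := by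
    refine (norm_sub_le _ _).trans ?_
    rw [norm_mul (w * d1B e κ p w)]
    have h3 := h.δ_wd1
    have h4 := h.wd1_le
    have h5 : ‖2 * (Real.cosh κ : ℂ) - exp (-p) - 1‖ ≤ 111 / 1000 := by
      have e1 : 2 * (Real.cosh κ : ℂ) - exp (-p) - 1 = (exp p - 1) + (σ : ℂ) ^ 2 := by
        rw [h.W0_eq]; ring
      rw [e1]
      refine (norm_add_le _ _).trans ?_
      rw [h.norm_σ2]
      have := h.ep1
      have := h.σ2_le
      have := h.hσ
      linarith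
    have h7 : ‖w * d1B e κ p w‖ * ‖2 * (Real.cosh κ : ℂ) - exp (-p) - 1‖ ≤
        412 / 1000 * σ ^ 2 * (111 / 1000) := mul_le_mul h4 h5 (norm_nonneg _) (by positivity)
    nlinarith [sq_nonneg σ]
  exact h.am_lt_ap_gen (c := 1) (x := 9543 / 10000) (B := 4578 / 10000) (by norm_num) (by norm_num)
    (by rwa [one_mul]) (by norm_num) h.apD_ge h2 (by norm_num)

/-- real side: smaller centre, smaller radius -/
theorem am_lt_ap_real (h : Ctx e κ σ p δ w) (hratio : ‖am κ p‖ * (1 + 75 / 100 * κ) ≤ ‖ap κ p‖)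
    (hζ : ‖zt κ p‖ ≤ 7 / 100 * σ) (hep : ‖exp p - 1‖ ≤ 2 / 100 * σ)
    (hδ : ‖δ‖ ≤ 682 / 1000 * σ ^ 2) :
    ‖am κ p + Dm e κ p δ w‖ < ‖ap κ p + Dp e κ p δ w‖ := by
  obtain ⟨z, hz1, hz2⟩ := h.exists_z1
  have he : 0 < e := by linarith [h.he]
  have h1 := h.z1_le hz2
  have hσ0 := h.hσ0
  have hσ := h.hσ
  have hσ2 := h.σ2_le
  have hk5 := h.kE5
  have hδσ : ‖δ‖ ≤ 682 / 10000 * σ := by linarith
  have ha := h.haσ
  have hζδ : ‖2 * zt κ p + δ‖ ≤ 2082 / 10000 * σ := by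
    refine (norm_add_le _ _).trans ?_
    rw [norm_mul, Complex.norm_ofNat]; linarith
  have hT : ‖w * Ez e κ z - exp (-p) * Ez e κ p‖ ≤ 22 / 10 * (kE e * σ ^ 5) := by
    have e1 : w * Ez e κ z - exp (-p) * Ez e κ p =
        w * (Ez e κ z - Ez e κ p) + (2 * zt κ p + δ) * Ez e κ p := by
      rw [h.hw, zt]; ring
    have h1 := h.E_z1p hz2
    have h2 := h.E_p
    rw [e1]
    refine (norm_add_le _ _).trans ?_
    rw [norm_mul, norm_mul]
    have h6 : ‖w‖ * ‖Ez e κ z - Ez e κ p‖ ≤ 1119 / 1000 * (176 / 100 * (kE e * σ ^ 5)) :=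
      mul_le_mul h.w1_le' h1 (norm_nonneg _) (by norm_num)
    have h7 : ‖2 * zt κ p + δ‖ * ‖Ez e κ p‖ ≤ (2082 / 10000 * σ) * (102 / 100 * (kE e * σ ^ 4)) :=
      mul_le_mul hζδ h2 (norm_nonneg _) (by positivity)
    have h8 : (2082 / 10000 * σ) * (102 / 100 * (kE e * σ ^ 4)) =
        2082 / 10000 * (102 / 100) * (kE e * σ ^ 5) := by ring
    rw [h8] at h7
    linarith
  have ha0 : ‖((e / 2 : ℝ) : ℂ) * (zt κ p + δ / 2)‖ ≤ 105 / 10000 := by
    rw [norm_mul, Complex.norm_real, Real.norm_of_nonneg (by linarith)]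
    have h3 : ‖zt κ p + δ / 2‖ ≤ 105 / 1000 * σ := by
      refine (norm_add_le _ _).trans ?_
      rw [norm_div, Complex.norm_ofNat]
      linarith
    have h7 : e / 2 * ‖zt κ p + δ / 2‖ ≤ e / 2 * (105 / 1000 * σ) :=
      mul_le_mul_of_nonneg_left h3 (by linarith)
    nlinarith
  have hsub : ‖w * d1B e κ p w - δ / 2‖ ≤ 75 / 10000 * σ ^ 2 := by
    rw [w_d1 he h.hw h.w1_ne hz1 (by linarith) (small_of he h.haσ (by linarith))]
    have e1 : δ / 2 * (1 + ((e / 2 : ℝ) : ℂ) * (zt κ p + δ / 2)) -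
        (w * Ez e κ z - exp (-p) * Ez e κ p) / 2 - δ / 2 =
        δ / 2 * (((e / 2 : ℝ) : ℂ) * (zt κ p + δ / 2)) - (w * Ez e κ z - exp (-p) * Ez e κ p) / 2 := by
      ring
    rw [e1]
    refine (norm_sub_le _ _).trans ?_
    rw [norm_mul, norm_div, norm_div, Complex.norm_ofNat]
    have h8 : ‖δ‖ / 2 * ‖((e / 2 : ℝ) : ℂ) * (zt κ p + δ / 2)‖ ≤
        (682 / 1000 * σ ^ 2) / 2 * (105 / 10000) :=
      mul_le_mul (by linarith) ha0 (norm_nonneg _) (by positivity)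
    have h9 := h.kE5_le
    nlinarith [sq_nonneg σ]
  have hwd : ‖w * d1B e κ p w‖ ≤ 3485 / 10000 * σ ^ 2 := by
    have h3 : ‖w * d1B e κ p w‖ ≤ ‖w * d1B e κ p w - δ / 2‖ + ‖δ / 2‖ := by
      simpa using norm_add_le (w * d1B e κ p w - δ / 2) (δ / 2)
    rw [norm_div, Complex.norm_ofNat] at h3
    linarith
  have hdw : ‖δ - w * d1B e κ p w‖ ≤ 3485 / 10000 * σ ^ 2 := by
    have e1 : δ - w * d1B e κ p w = δ / 2 - (w * d1B e κ p w - δ / 2) := by ring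
    rw [e1]
    refine (norm_sub_le _ _).trans ?_
    rw [norm_div, Complex.norm_ofNat]
    linarith
  have hDp : ‖Dp e κ p δ w‖ ≤ 386 / 10000 * ‖ap κ p‖ := by
    have e1 : Dp e κ p δ w = (δ - w * d1B e κ p w) - (exp (-(κ : ℂ)) - 1) * (w * d1B e κ p w) := by
      rw [Dp]; ring
    have h3 := h.expκn
    have h4 := h.κ_le
    have h6 : ‖exp (-(κ : ℂ)) - 1‖ * ‖w * d1B e κ p w‖ ≤ (10706 / 100000) * (3485 / 10000 * σ ^ 2) :=
      mul_le_mul (by linarith) hwd (norm_nonneg _) (by norm_num)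
    have h7 : ‖Dp e κ p δ w‖ ≤ 386 / 1000 * σ ^ 2 := by
      rw [e1]
      refine (norm_sub_le _ _).trans ?_
      rw [norm_mul (exp (-(κ : ℂ)) - 1)]
      nlinarith [sq_nonneg σ]
    have h8 := h.ap_ge
    rw [← ap] at h8
    linarith
  have hx : 9614 / 10000 * ‖ap κ p‖ ≤ ‖ap κ p + Dp e κ p δ w‖ := by
    have h3 : ‖ap κ p‖ ≤ ‖ap κ p + Dp e κ p δ w‖ + ‖Dp e κ p δ w‖ := by
      simpa using norm_sub_le (ap κ p + Dp e κ p δ w) (Dp e κ p δ w)
    linarith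
  have h2 : ‖(δ - w * d1B e κ p w) - w * d1B e κ p w * (2 * (Real.cosh κ : ℂ) - exp (-p) - 1)‖ ≤
      3527 / 10000 * σ ^ 2 := by
    refine (norm_sub_le _ _).trans ?_
    rw [norm_mul (w * d1B e κ p w)]
    have h5 : ‖2 * (Real.cosh κ : ℂ) - exp (-p) - 1‖ ≤ 12 / 1000 := by
      have e1 : 2 * (Real.cosh κ : ℂ) - exp (-p) - 1 = (exp p - 1) + (σ : ℂ) ^ 2 := by
        rw [h.W0_eq]; ring
      rw [e1]
      refine (norm_add_le _ _).trans ?_
      rw [h.norm_σ2]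
      have : σ ^ 2 ≤ 1 / 100 := by nlinarith
      linarith
    have h7 : ‖w * d1B e κ p w‖ * ‖2 * (Real.cosh κ : ℂ) - exp (-p) - 1‖ ≤
        3485 / 10000 * σ ^ 2 * (12 / 1000) := mul_le_mul hwd h5 (norm_nonneg _) (by positivity)
    nlinarith [sq_nonneg σ]
  exact h.am_lt_ap_gen (c := 75 / 100) (x := 9614 / 10000) (B := 3527 / 10000) (by norm_num)
    (by norm_num) hratio (by norm_num) hx h2 (by norm_num)

/-- the ideal position of link 2 lies in `Re z > 2` -/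
theorem position (h : Ctx e κ σ p δ w)
    (h5 : ‖am κ p + Dm e κ p δ w‖ < ‖ap κ p + Dp e κ p δ w‖) :
    ‖(Real.cosh κ : ℂ) - 1 / (2 * (Real.cosh κ : ℂ) - Y1B e κ p w) - (Real.sinh κ : ℂ)‖ <
      Real.exp (-(4 * κ)) *
      ‖(Real.cosh κ : ℂ) - 1 / (2 * (Real.cosh κ : ℂ) - Y1B e κ p w) + (Real.sinh κ : ℂ)‖ := by
  have h1 := congrArg norm (z1m h.w1_ne h.hw (e := e))
  have h2 := congrArg norm (z1p h.w1_ne h.hw (e := e))
  have h3 := congrArg norm (zPm (κ := κ) h.W1_ne)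
  have h4 := congrArg norm (zPp (κ := κ) h.W1_ne)
  rw [norm_mul, norm_mul] at h1 h2 h3 h4
  have e1 : ‖exp (κ : ℂ)‖ = Real.exp κ := by rw [Complex.norm_exp]; simp
  have e2 : ‖exp (-(κ : ℂ))‖ = Real.exp (-κ) := by rw [Complex.norm_exp]; simp
  rw [e1] at h2 h4
  rw [e2] at h1 h3
  have hw := h.w1_gt
  have hW := h.W1_gt
  set P1 := ‖(Real.cosh κ : ℂ) - 1 / (2 * (Real.cosh κ : ℂ) - Y1B e κ p w) - (Real.sinh κ : ℂ)‖
  set P2 := ‖(Real.cosh κ : ℂ) - 1 / (2 * (Real.cosh κ : ℂ) - Y1B e κ p w) + (Real.sinh κ : ℂ)‖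
  set q1 := ‖(Real.cosh κ : ℂ) - Y1B e κ p w - (Real.sinh κ : ℂ)‖
  set q2 := ‖(Real.cosh κ : ℂ) - Y1B e κ p w + (Real.sinh κ : ℂ)‖
  set W := ‖2 * (Real.cosh κ : ℂ) - Y1B e κ p w‖
  set n := ‖w‖
  set E := Real.exp κ with hE
  set E' := Real.exp (-κ) with hE'
  have hEE : E * E' = 1 := by rw [hE, hE', ← Real.exp_add]; simp
  have hE0 : 0 < E := Real.exp_pos _
  have hE'0 : 0 < E' := Real.exp_pos _
  have h6 : Real.exp (-(4 * κ)) = E' ^ 4 := by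
    rw [hE', ← Real.exp_nat_mul]; congr 1; push_cast; ring
  rw [h6]
  have h7 : n * W * P1 = E' ^ 2 * ‖am κ p + Dm e κ p δ w‖ := by
    calc n * W * P1 = n * (W * P1) := by ring
      _ = E' * (n * q1) := by rw [h3]; ring
      _ = _ := by rw [h1]; ring
  have h8 : n * W * P2 = E ^ 2 * ‖ap κ p + Dp e κ p δ w‖ := by
    calc n * W * P2 = n * (W * P2) := by ring
      _ = E * (n * q2) := by rw [h4]; ring
      _ = _ := by rw [h2]; ring
  have h9 : n * W * P1 < n * W * (E' ^ 4 * P2) := by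
    have : n * W * (E' ^ 4 * P2) = E' ^ 4 * (n * W * P2) := by ring
    rw [this, h7, h8]
    have h10 : E' ^ 4 * (E ^ 2 * ‖ap κ p + Dp e κ p δ w‖) =
        E' ^ 2 * (E * E') ^ 2 * ‖ap κ p + Dp e κ p δ w‖ := by ring
    rw [h10, hEE]
    have : 0 < E' ^ 2 := by positivity
    nlinarith
  exact lt_of_mul_lt_mul_left h9 (by positivity)

/-- `Y 1 ≠ exp (-κ)` and the ideal position is not the fixed point -/
theorem z1m_ne (h : Ctx e κ σ p δ w) :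
    (Real.cosh κ : ℂ) - Y1B e κ p w - (Real.sinh κ : ℂ) ≠ 0 := by
  intro h0
  have h1 := z1m h.w1_ne h.hw (e := e)
  rw [h0, mul_zero] at h1
  have h2 : am κ p + Dm e κ p δ w = 0 := by
    rcases mul_eq_zero.1 h1.symm with h3 | h3
    · exact absurd h3 (Complex.exp_ne_zero _)
    · exact h3
  have h3 := h.amD_ge
  rw [h2, norm_zero] at h3
  have := h.am_pos
  linarith

theorem v_le' (h : Ctx e κ σ p δ w) :
    ‖am κ p + Dm e κ p δ w‖ * ‖ap κ p + Dp e κ p δ w‖ ≤ 1100 / 1000 * σ ^ 2 := by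
  have h1 := h.amD
  have h2 := h.apD
  have h3 := h.v_le
  rw [← am, ← ap] at h3
  have h4 : ‖am κ p + Dm e κ p δ w‖ * ‖ap κ p + Dp e κ p δ w‖ ≤
      (10492 / 10000 * ‖am κ p‖) * (10457 / 10000 * ‖ap κ p‖) :=
    mul_le_mul h1 h2 (norm_nonneg _) (by positivity)
  have h5 : 0 < σ ^ 2 := by have := h.hσ0; positivity
  nlinarith

theorem v2_small (h : Ctx e κ σ p δ w) {P : ℂ}
    (hP : P = 1 / (2 * (Real.cosh κ : ℂ) - Y1B e κ p w)) :
    ‖1 - 2 * (Real.cosh κ : ℂ) * P + P ^ 2‖ ≤ 1100 / 1000 * σ ^ 2 := by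
  rw [v2_fac, norm_mul]
  have h1 := congrArg norm (z1m h.w1_ne h.hw (e := e))
  have h2 := congrArg norm (z1p h.w1_ne h.hw (e := e))
  have h3 := congrArg norm (zPm (κ := κ) h.W1_ne)
  have h4 := congrArg norm (zPp (κ := κ) h.W1_ne)
  rw [norm_mul, norm_mul] at h1 h2 h3 h4
  rw [← hP] at h3 h4
  have e1 : ‖exp (κ : ℂ)‖ = Real.exp κ := by rw [Complex.norm_exp]; simp
  have e2 : ‖exp (-(κ : ℂ))‖ = Real.exp (-κ) := by rw [Complex.norm_exp]; simp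
  rw [e1] at h2 h4
  rw [e2] at h1 h3
  have hw := h.w1_gt
  have hW := h.W1_gt
  have h5 := h.v_le'
  set P1 := ‖(Real.cosh κ : ℂ) - P - (Real.sinh κ : ℂ)‖
  set P2 := ‖(Real.cosh κ : ℂ) - P + (Real.sinh κ : ℂ)‖
  set q1 := ‖(Real.cosh κ : ℂ) - Y1B e κ p w - (Real.sinh κ : ℂ)‖
  set q2 := ‖(Real.cosh κ : ℂ) - Y1B e κ p w + (Real.sinh κ : ℂ)‖
  set W := ‖2 * (Real.cosh κ : ℂ) - Y1B e κ p w‖
  set n := ‖w‖
  set E := Real.exp κ with hE
  set E' := Real.exp (-κ) with hE'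
  have hEE : E * E' = 1 := by rw [hE, hE', ← Real.exp_add]; simp
  have h7 : n * W * P1 = E' ^ 2 * ‖am κ p + Dm e κ p δ w‖ := by
    calc n * W * P1 = n * (W * P1) := by ring
      _ = E' * (n * q1) := by rw [h3]; ring
      _ = _ := by rw [h1]; ring
  have h8 : n * W * P2 = E ^ 2 * ‖ap κ p + Dp e κ p δ w‖ := by
    calc n * W * P2 = n * (W * P2) := by ring
      _ = E * (n * q2) := by rw [h4]; ring
      _ = _ := by rw [h2]; ring
  have h9 : (n * W) ^ 2 * (P1 * P2) = ‖am κ p + Dm e κ p δ w‖ * ‖ap κ p + Dp e κ p δ w‖ := by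
    calc (n * W) ^ 2 * (P1 * P2) = (n * W * P1) * (n * W * P2) := by ring
      _ = (E * E') ^ 2 * (‖am κ p + Dm e κ p δ w‖ * ‖ap κ p + Dp e κ p δ w‖) := by
          rw [h7, h8]; ring
      _ = _ := by rw [hEE]; ring
  have h10 : 1 ≤ (n * W) ^ 2 := by
    have : 1 ≤ n * W := by nlinarith
    nlinarith
  have h11 : 0 ≤ P1 * P2 := by positivity
  nlinarith

/-- the radius factor at link 1 -/
theorem g_le (h : Ctx e κ σ p δ w) {P : ℂ}
    (hP : P = 1 / (2 * (Real.cosh κ : ℂ) - Y1B e κ p w)) :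
    ‖w‖ * ‖2 * (Real.cosh κ : ℂ) - Y1B e κ p w‖ *
      ‖(1 - 2 * (Real.cosh κ : ℂ) * P + P ^ 2) * ((Real.cosh κ : ℂ) - P - (Real.sinh κ : ℂ))‖ ≤
      1154 / 1000 * σ ^ 3 := by
  rw [v2_fac, norm_mul, norm_mul]
  have h1 := congrArg norm (z1m h.w1_ne h.hw (e := e))
  have h2 := congrArg norm (z1p h.w1_ne h.hw (e := e))
  have h3 := congrArg norm (zPm (κ := κ) h.W1_ne)
  have h4 := congrArg norm (zPp (κ := κ) h.W1_ne)
  rw [norm_mul, norm_mul] at h1 h2 h3 h4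
  rw [← hP] at h3 h4
  have e1 : ‖exp (κ : ℂ)‖ = Real.exp κ := by rw [Complex.norm_exp]; simp
  have e2 : ‖exp (-(κ : ℂ))‖ = Real.exp (-κ) := by rw [Complex.norm_exp]; simp
  rw [e1] at h2 h4
  rw [e2] at h1 h3
  have hw := h.w1_gt
  have hW := h.W1_gt
  have h5 := h.amD
  have h6 := h.apD
  set P1 := ‖(Real.cosh κ : ℂ) - P - (Real.sinh κ : ℂ)‖
  set P2 := ‖(Real.cosh κ : ℂ) - P + (Real.sinh κ : ℂ)‖
  set q1 := ‖(Real.cosh κ : ℂ) - Y1B e κ p w - (Real.sinh κ : ℂ)‖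
  set q2 := ‖(Real.cosh κ : ℂ) - Y1B e κ p w + (Real.sinh κ : ℂ)‖
  set W := ‖2 * (Real.cosh κ : ℂ) - Y1B e κ p w‖
  set n := ‖w‖
  set E := Real.exp κ with hE
  set E' := Real.exp (-κ) with hE'
  have hEE : E * E' = 1 := by rw [hE, hE', ← Real.exp_add]; simp
  have hE'1 : E' ≤ 1 := by rw [hE', Real.exp_le_one_iff]; linarith [h.hκ]
  have hE'0 : 0 < E' := Real.exp_pos _
  have h7 : n * W * P1 = E' ^ 2 * ‖am κ p + Dm e κ p δ w‖ := by
    calc n * W * P1 = n * (W * P1) := by ring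
      _ = E' * (n * q1) := by rw [h3]; ring
      _ = _ := by rw [h1]; ring
  have h8 : n * W * P2 = E ^ 2 * ‖ap κ p + Dp e κ p δ w‖ := by
    calc n * W * P2 = n * (W * P2) := by ring
      _ = E * (n * q2) := by rw [h4]; ring
      _ = _ := by rw [h2]; ring
  set X := ‖am κ p + Dm e κ p δ w‖
  set Z := ‖ap κ p + Dp e κ p δ w‖
  have h9 : (n * W) ^ 3 * (P1 * P2 * P1) = E' ^ 2 * (X ^ 2 * Z) := by
    calc (n * W) ^ 3 * (P1 * P2 * P1) = (n * W * P1) * (n * W * P2) * (n * W * P1) := by ring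
      _ = (E * E') ^ 2 * E' ^ 2 * (X ^ 2 * Z) := by rw [h7, h8]; ring
      _ = _ := by rw [hEE]; ring
  have h10 : X ^ 2 * Z ≤ 1154 / 1000 * σ ^ 3 := by
    have h11 : X ^ 2 ≤ (10492 / 10000 * ‖am κ p‖) ^ 2 := pow_le_pow_left₀ (norm_nonneg _) h5 2
    have h12 : X ^ 2 * Z ≤ (10492 / 10000 * ‖am κ p‖) ^ 2 * (10457 / 10000 * ‖ap κ p‖) :=
      mul_le_mul h11 h6 (norm_nonneg _) (by positivity)
    refine h12.trans ?_
    have h16 := h.v_le
    have h17 := h.am_le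
    rw [← am, ← ap] at h16
    rw [← am] at h17
    have hσ := h.hσ0
    have h18 : ‖am κ p‖ * (‖am κ p‖ * ‖ap κ p‖) ≤ σ * (1002 / 1000 * σ ^ 2) :=
      mul_le_mul h17 h16 (by positivity) hσ.le
    have h19 : 0 < σ ^ 3 := by positivity
    nlinarith
  have h13 : 1 ≤ n * W := by nlinarith
  have h14 : n * W * (P1 * P2 * P1) ≤ (n * W) ^ 3 * (P1 * P2 * P1) := by
    have h15 : 0 ≤ P1 * P2 * P1 := by positivity
    refine mul_le_mul_of_nonneg_right ?_ h15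
    nlinarith [sq_nonneg (n * W), mul_self_nonneg (n * W)]
  have h15 : E' ^ 2 * (X ^ 2 * Z) ≤ X ^ 2 * Z := by
    have : 0 ≤ X ^ 2 * Z := by positivity
    have : E' ^ 2 ≤ 1 := by nlinarith
    nlinarith
  linarith

/-- logarithm of `W 1` -/
theorem exists_zW (h : Ctx e κ σ p δ w) {z V : ℂ} (hz : exp z = w)
    (hzp : ‖z - p‖ ≤ 176 / 100 * σ ^ 2) (hV : ‖V - w‖ ≤ 191 / 100 * σ ^ 2) :
    ∃ z' : ℂ, exp z' = V ∧ ‖z' - z‖ ≤ 193 / 100 * σ ^ 2 ∧ ‖z'‖ ≤ 138 / 100 * σ := by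
  have hw := h.w1_gt
  have e1 : V * exp (-z) - 1 = (V - w) / w := by
    rw [Complex.exp_neg, hz, sub_div, div_self h.w1_ne]
    rfl
  have h1 : ‖V * exp (-z) - 1‖ ≤ 191 / 100 * σ ^ 2 := by
    rw [e1, norm_div]
    refine le_trans (div_le_self (norm_nonneg _) hw.le) hV
  have hσ2 : σ ^ 2 ≤ 1 / 100 := by have := h.hσ; have := h.hσ0; nlinarith
  obtain ⟨z', h2, h3⟩ := exists_log (by linarith) h1
  have h4 : ‖z' - z‖ ≤ 193 / 100 * σ ^ 2 := by
    refine h3.trans ?_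
    nlinarith [sq_nonneg σ]
  refine ⟨z', h2, h4, ?_⟩
  have h5 := h.hp
  have h6 : ‖z'‖ ≤ ‖z' - z‖ + ‖z - p‖ + ‖p‖ := by
    have e2 : z' = (z' - z) + (z - p) + p := by ring
    calc ‖z'‖ = ‖(z' - z) + (z - p) + p‖ := by rw [← e2]
      _ ≤ _ := norm_add₃_le
  have h7 := h.σ2_le
  have h8 := h.hσ0
  linarith

end Ctx

/-- `Γ'(x) = c² x ((1 + x^e)/2)^(-(1 + 2/e))` -/
noncomputable def dG (e κ : ℝ) (x : ℂ) : ℂ :=
  (c2 e κ : ℂ) * x * ((1 + x ^ (e : ℂ)) / 2) ^ (-((1 + 2 / e : ℝ) : ℂ))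

theorem dG_exp {e κ : ℝ} (he : 0 < e) {z : ℂ} (hz : ‖z‖ ≤ 1) (hs : ‖(e : ℂ) * z / 2‖ ≤ 14 / 100) :
    dG e κ (exp (-z)) = fz e κ z * (1 + tanh (e * z / 2)) := by
  have he' : (e : ℂ) ≠ 0 := by exact_mod_cast he.ne'
  have hc := (cosh_ne (y := (e : ℂ) * z / 2) (by linarith)).1
  have h1 : exp (-z) ^ (e : ℂ) = exp (-(2 * (e * z / 2))) := by
    rw [Complex.cpow_def_of_ne_zero (Complex.exp_ne_zero _), log_exp_small (by simpa using hz)]
    congr 1; ring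
  have h2 : -((1 + 2 / e : ℝ) : ℂ) = -((2 / e : ℝ) : ℂ) - 1 := by push_cast; ring
  rw [dG, h1, pow_aux hs, fz, h2, Complex.cpow_sub _ _ hc, Complex.cpow_one]
  have h3 : -((e : ℂ) * z / 2 * (-((2 / e : ℝ) : ℂ) - 1)) = z + e * z / 2 := by
    push_cast; field_simp; ring
  rw [h3, Complex.exp_add]
  have h4 : exp (-z) * exp z = 1 := by rw [← Complex.exp_add]; simp
  have h5 : 1 + tanh (e * z / 2) = exp (e * z / 2) / cosh (e * z / 2) := by
    rw [Complex.tanh_eq_sinh_div_cosh, ← Complex.cosh_add_sinh]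
    field_simp
  rw [h5]
  have h6 : (c2 e κ : ℂ) * exp (-z) * (exp z * exp (e * z / 2) *
      (cosh (e * z / 2) ^ (-((2 / e : ℝ) : ℂ)) / cosh (e * z / 2))) =
      (exp (-z) * exp z) * ((c2 e κ : ℂ) * cosh (e * z / 2) ^ (-((2 / e : ℝ) : ℂ)) *
      (exp (e * z / 2) / cosh (e * z / 2))) := by ring
  rw [h6, h4, one_mul]

namespace Ctx

theorem dG_ge (h : Ctx e κ σ p δ w) :
    984 / 1000 ≤ ‖dG e κ (1 / (2 * (Real.cosh κ : ℂ) - Y1B e κ p w))‖ := by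
  obtain ⟨z, hz1, hz2⟩ := h.exists_z1
  have h0 := h.W1_w
  obtain ⟨z', h1, h2, h3⟩ := h.exists_zW hz1 hz2 (h0.trans (by nlinarith [sq_nonneg σ]))
  have he : 0 < e := by linarith [h.he]
  have hσ := h.hσ
  have hσ0 := h.hσ0
  have h4 : 1 / (2 * (Real.cosh κ : ℂ) - Y1B e κ p w) = exp (-z') := by
    rw [Complex.exp_neg, h1, one_div]
  have hs := small_of he h.haσ h3
  rw [h4, dG_exp he (by linarith) hs, norm_mul]
  have h5 := fz_bd he h.hκ.le h.hκσ h.hσ h.haσ h3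
  have h6 : e / 2 * σ ^ 2 ≤ 1 / 100 := by nlinarith [h.haσ]
  have h7 : 985 / 1000 ≤ ‖fz e κ z'‖ := by
    have : ‖(1 : ℂ)‖ ≤ ‖fz e κ z'‖ + ‖fz e κ z' - 1‖ := by
      simpa using norm_sub_le (fz e κ z') (fz e κ z' - 1)
    rw [norm_one] at this
    linarith
  have h8 : 9990 / 10000 ≤ ‖1 + tanh (e * z' / 2)‖ := by
    have h9 := tanh_bd hs
    have hre : 0 ≤ z'.re := by
      have hW := h.W1_gt
      rw [← h1, Complex.norm_exp] at hW
      have := Real.one_lt_exp_iff.1 hW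
      exact this.le
    have h10 : ‖(e : ℂ) * z' / 2‖ ^ 3 * (35 / 100) ≤ 1 / 1000 := by
      have hn := norm_nonneg ((e : ℂ) * z' / 2)
      have := pow_le_pow_left₀ hn hs 3
      nlinarith
    have h11 := (Complex.abs_re_le_norm (tanh (e * z' / 2) - e * z' / 2)).trans (h9.trans h10)
    have h12 : (tanh (e * z' / 2) - e * z' / 2).re = (tanh (e * z' / 2)).re - e / 2 * z'.re := by
      rw [Complex.sub_re]
      have : (e : ℂ) * z' / 2 = ((e / 2 : ℝ) : ℂ) * z' := by push_cast; ring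
      rw [this, Complex.re_ofReal_mul]
    rw [h12] at h11
    have h13 := (abs_le.1 h11).1
    have h14 : 0 ≤ e / 2 * z'.re := by positivity
    have h15 := (le_abs_self _).trans (Complex.abs_re_le_norm (1 + tanh (e * z' / 2)))
    rw [Complex.add_re, Complex.one_re] at h15
    linarith
  nlinarith [norm_nonneg (fz e κ z')]

end Ctx

end Pool.Agent.helper63.EQC
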