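import Pool.Agent.helper63.EQC.Head4

/-!
# The neutral corner: the law of link 1
-/

namespace Pool.Agent.helper63.EQC

open Complex Pool.Agent.helper31.EQ.W

variable {e κ σ : ℝ} {p δ w : ℂ}

theorem Y1_sub (hw0 : w ≠ 0) : Y1B e κ p w - d1B e κ p w = 1 / w := by
  rw [Y1B]; ring

/-- the law of link 1 near the neutral point -/
theorem FW_eq (he : 0 < e) {d2 z1 z2 : ℂ} (hw0 : w ≠ 0) (hz1 : exp z1 = w)
    (hz2 : exp z2 = wn κ (Y1B e κ p w) d2) (n1 : ‖z1‖ ≤ 1) (n2 : ‖z2‖ ≤ 1)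
    (s1 : ‖(e : ℂ) * z1 / 2‖ ≤ 14 / 100) (s2 : ‖(e : ℂ) * z2 / 2‖ ≤ 14 / 100) {η ζ1 d1 a : ℂ}
    (ha : a = ((e / 2 : ℝ) : ℂ)) (hζ1 : ζ1 = (Real.cosh κ : ℂ) - Y1B e κ p w)
    (hd1 : d1 = d1B e κ p w) (hη : η = exp z2 - (2 * (Real.cosh κ : ℂ) - Y1B e κ p w)) :
    FW e κ (Y1B e κ p w) d1 d2 = η * (1 - a * ζ1 - a * η / 2) + d1 * (1 + a * (ζ1 + d1 / 2)) +
      (exp z2 * Ez e κ z2 - 1 / w * Ez e κ z1) := by
  have h1 := c2_gl (κ := κ) he n2 s2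
  have h2 := c2_gs (κ := κ) he n1 s1
  rw [fz_E] at h1 h2
  have h3 := exp_mul_cosh z2
  have h4 := exp_neg_mul_cosh z1
  have h5 : exp (-z1) = 1 / w := by rw [Complex.exp_neg, hz1, one_div]
  have h6 := Y1_sub (e := e) (κ := κ) (p := p) hw0
  rw [h5] at h2 h4
  rw [FW, ← hz2, hd1, h6, h1, h2]
  rw [← h6] at h2 h4 ⊢
  rw [hη, hζ1, ha]
  linear_combination (-((e / 2 : ℝ) : ℂ)) * h3 + ((e / 2 : ℝ) : ℂ) * h4

namespace Ctx

theorem ζ1_re (h : Ctx e κ σ p δ w) :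
    -‖d1B e κ p w‖ ≤ ((Real.cosh κ : ℂ) - Y1B e κ p w).re := by
  have e1 : (Real.cosh κ : ℂ) - Y1B e κ p w = (Real.cosh κ : ℂ) - 1 / w - d1B e κ p w := by
    rw [← Y1_sub h.w1_ne]; ring
  rw [e1, Complex.sub_re, Complex.sub_re, Complex.ofReal_re]
  have h1 := (le_abs_self _).trans (Complex.abs_re_le_norm (d1B e κ p w))
  have h2 := (le_abs_self _).trans (Complex.abs_re_le_norm (1 / w))
  have h3 : ‖1 / w‖ ≤ 1 := by
    rw [norm_div, norm_one, div_le_one (by linarith [h.w1_gt])]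
    exact h.w1_gt.le
  have h4 := Real.one_le_cosh κ
  linarith

theorem ζ1_le (h : Ctx e κ σ p δ w) :
    ‖(Real.cosh κ : ℂ) - Y1B e κ p w‖ ≤ 12770 / 10000 * σ := by
  have e1 : (Real.cosh κ : ℂ) - Y1B e κ p w = ((Real.cosh κ : ℂ) - 1) + (w - 1) / w - d1B e κ p w := by
    have h1 := Y1_sub (e := e) (κ := κ) (p := p) h.w1_ne
    have h2 : (w - 1) / w = 1 - 1 / w := by rw [sub_div, div_self h.w1_ne]
    rw [h2, ← h1]; ring
  rw [e1]
  have h1 : ‖(Real.cosh κ : ℂ) - 1‖ ≤ 512 / 10000 * σ := by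
    have h2 := cosh_bd2 (y := (κ : ℂ)) (by
      rw [Complex.norm_real, Real.norm_of_nonneg h.hκ.le]; linarith [h.κ_le])
    rw [Complex.norm_real, Real.norm_of_nonneg h.hκ.le, ← Complex.ofReal_cosh] at h2
    have h3 := h.hκσ
    have h4 := h.σ2_le
    have h5 := h.hκ
    have h6 : κ ^ 2 ≤ (101 / 100 * σ) ^ 2 := pow_le_pow_left₀ h5.le h3 2
    have := h.hσ0
    nlinarith
  have h2 : ‖(w - 1) / w‖ ≤ 1184 / 1000 * σ := by
    rw [norm_div]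
    exact (div_le_self (norm_nonneg _) h.w1_gt.le).trans h.w1_sub
  have h3 := h.d1_σ
  have h4 := norm_sub_le (((Real.cosh κ : ℂ) - 1) + (w - 1) / w) (d1B e κ p w)
  have h5 := norm_add_le ((Real.cosh κ : ℂ) - 1) ((w - 1) / w)
  have := h.hσ0
  linarith

theorem aζ1_re (h : Ctx e κ σ p δ w) :
    -(412 / 100000) ≤ (((e / 2 : ℝ) : ℂ) * ((Real.cosh κ : ℂ) - Y1B e κ p w)).re := by
  rw [Complex.re_ofReal_mul]
  have h1 := h.ζ1_re
  have h2 := h.ad1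
  have h3 := mul_le_mul_of_nonneg_left h1 (by linarith [h.he] : (0:ℝ) ≤ e / 2)
  linarith

theorem a1_ge' (h : Ctx e κ σ p δ w) :
    ‖1 + ((e / 2 : ℝ) : ℂ) * ((Real.cosh κ : ℂ) - Y1B e κ p w)‖ - 206 / 100000 ≤
      ‖1 + ((e / 2 : ℝ) : ℂ) * ((Real.cosh κ : ℂ) - Y1B e κ p w + d1B e κ p w / 2)‖ := by
  have h1 : ‖((e / 2 : ℝ) : ℂ) * (d1B e κ p w / 2)‖ ≤ 206 / 100000 := by
    rw [norm_mul, Complex.norm_real, Real.norm_of_nonneg (by linarith [h.he]), norm_div,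
      Complex.norm_ofNat]
    have := h.ad1
    linarith
  have e1 : 1 + ((e / 2 : ℝ) : ℂ) * ((Real.cosh κ : ℂ) - Y1B e κ p w) =
      (1 + ((e / 2 : ℝ) : ℂ) * ((Real.cosh κ : ℂ) - Y1B e κ p w + d1B e κ p w / 2)) -
      ((e / 2 : ℝ) : ℂ) * (d1B e κ p w / 2) := by ring
  have h2 : ‖1 + ((e / 2 : ℝ) : ℂ) * ((Real.cosh κ : ℂ) - Y1B e κ p w)‖ ≤
      ‖1 + ((e / 2 : ℝ) : ℂ) * ((Real.cosh κ : ℂ) - Y1B e κ p w + d1B e κ p w / 2)‖ +
      ‖((e / 2 : ℝ) : ℂ) * (d1B e κ p w / 2)‖ := by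
    rw [e1]; exact norm_sub_le _ _
  linarith

theorem b1_ge (h : Ctx e κ σ p δ w) :
    9958 / 10000 ≤ ‖1 + ((e / 2 : ℝ) : ℂ) * ((Real.cosh κ : ℂ) - Y1B e κ p w)‖ := by
  have h1 := h.aζ1_re
  have h2 := (le_abs_self _).trans (Complex.abs_re_le_norm
    (1 + ((e / 2 : ℝ) : ℂ) * ((Real.cosh κ : ℂ) - Y1B e κ p w)))
  rw [Complex.add_re, Complex.one_re] at h2
  linarith

theorem a1_ge (h : Ctx e κ σ p δ w) : 9937 / 10000 ≤
      ‖1 + ((e / 2 : ℝ) : ℂ) * ((Real.cosh κ : ℂ) - Y1B e κ p w + d1B e κ p w / 2)‖ := by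
  have h1 := h.a1_ge'
  have h2 := h.b1_ge
  linarith

theorem one_sub_z (z : ℂ) (hz : -(412 / 100000) ≤ z.re) (hz1 : 9958 / 10000 ≤ ‖1 + z‖) :
    ‖1 - z‖ ≤ ‖1 + z‖ + 83 / 10000 := by
  have h1 : ‖1 - z‖ ^ 2 = ‖1 + z‖ ^ 2 - 4 * z.re := by
    rw [← Complex.normSq_eq_norm_sq, ← Complex.normSq_eq_norm_sq, Complex.normSq_apply,
      Complex.normSq_apply]
    simp only [Complex.sub_re, Complex.add_re, Complex.one_re, Complex.sub_im, Complex.add_im,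
      Complex.one_im]
    ring
  have h2 : ‖1 - z‖ ^ 2 ≤ (‖1 + z‖ + 83 / 10000) ^ 2 := by rw [h1]; nlinarith
  exact le_of_sq_le_sq h2 (by positivity)

theorem ratio1 (h : Ctx e κ σ p δ w) {η : ℂ} (hη : ‖η‖ ≤ 131 / 1000 * σ ^ 2) :
    ‖1 - ((e / 2 : ℝ) : ℂ) * ((Real.cosh κ : ℂ) - Y1B e κ p w) - ((e / 2 : ℝ) : ℂ) * η / 2‖ ≤
    10112 / 10000 *
      ‖1 + ((e / 2 : ℝ) : ℂ) * ((Real.cosh κ : ℂ) - Y1B e κ p w + d1B e κ p w / 2)‖ := by
  have h1 := one_sub_z _ h.aζ1_re h.b1_ge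
  have h2 := h.a1_ge'
  have h3 := h.b1_ge
  have h4 : ‖((e / 2 : ℝ) : ℂ) * η / 2‖ ≤ 66 / 100000 := by
    rw [norm_div, norm_mul, Complex.norm_real, Real.norm_of_nonneg (by linarith [h.he]),
      Complex.norm_ofNat]
    have h5 : ‖η‖ ≤ 131 / 10000 * σ := by have := h.σ2_le; linarith
    have h6 := mul_le_mul_of_nonneg_left h5 (by linarith [h.he] : (0:ℝ) ≤ e / 2)
    have h7 := h.haσ
    nlinarith
  have h5 := norm_sub_le (1 - ((e / 2 : ℝ) : ℂ) * ((Real.cosh κ : ℂ) - Y1B e κ p w))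
    (((e / 2 : ℝ) : ℂ) * η / 2)
  linarith

set_option maxHeartbeats 4000000 in
/-- bound of the closing defect of link 1, without the centre -/
theorem N0_le (h : Ctx e κ σ p δ w) {d2 : ℂ} {D : ℝ}
    (hD : ‖w‖ * ‖2 * (Real.cosh κ : ℂ) - Y1B e κ p w‖ * ‖d2‖ ≤ D) (hD2 : D ≤ 130 / 1000 * σ ^ 2) :
    ‖δ - 2 * w / ((1 + ((e / 2 : ℝ) : ℂ) * (zt κ p + δ / 2)) *
      (1 + ((e / 2 : ℝ) : ℂ) * ((Real.cosh κ : ℂ) - Y1B e κ p w + d1B e κ p w / 2))) *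
      FW e κ (Y1B e κ p w) (d1B e κ p w) d2‖ ≤ 2034 / 1000 * D + 162 / 10 * (kE e * σ ^ 5) := by
  have he : 0 < e := by linarith [h.he]
  have hσ0 := h.hσ0
  have hσ := h.hσ
  have hw := h.w1_gt
  have hW := h.W1_gt
  have hσ2 := h.σ2_le
  obtain ⟨z1, hz1, hz1p⟩ := h.exists_z1
  have hn1 := h.z1_le hz1p
  -- d2
  have hd2 : ‖d2‖ ≤ 130 / 100000 := by
    have h1 : ‖d2‖ ≤ ‖w‖ * ‖2 * (Real.cosh κ : ℂ) - Y1B e κ p w‖ * ‖d2‖ :=
      le_mul_of_one_le_left (norm_nonneg _) (by nlinarith)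
    have h2 : σ ^ 2 ≤ 1 / 100 := by nlinarith
    linarith
  have hd2' : 9987 / 10000 ≤ ‖1 - d2‖ := by
    have : ‖(1 : ℂ)‖ ≤ ‖1 - d2‖ + ‖d2‖ := by simpa using norm_add_le (1 - d2) d2
    rw [norm_one] at this
    linarith
  have hd2n : 1 - d2 ≠ 0 := by
    intro h0; rw [h0, norm_zero] at hd2'; norm_num at hd2'
  -- η
  set W := 2 * (Real.cosh κ : ℂ) - Y1B e κ p w with hWdef
  set η := W / (1 - d2) - W with hη
  have hη' : η * (1 - d2) = W * d2 := by rw [hη]; field_simp; ring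
  have hηn : ‖w‖ * ‖η‖ ≤ 10014 / 10000 * D := by
    have h1 : ‖η‖ * ‖1 - d2‖ = ‖W‖ * ‖d2‖ := by rw [← norm_mul, hη', norm_mul]
    have h2 : ‖w‖ * ‖η‖ * (9987 / 10000) ≤ D := by
      have h3 : ‖w‖ * ‖η‖ * (9987 / 10000) ≤ ‖w‖ * ‖η‖ * ‖1 - d2‖ :=
        mul_le_mul_of_nonneg_left hd2' (by positivity)
      have h4 : ‖w‖ * ‖η‖ * ‖1 - d2‖ = ‖w‖ * ‖W‖ * ‖d2‖ := by
        rw [mul_assoc, h1]; ring
      linarith
    have hD0 : 0 ≤ D := le_trans (by positivity) hD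
    linarith
  have hηn' : ‖η‖ ≤ 131 / 1000 * σ ^ 2 := by
    have h1 : ‖η‖ ≤ ‖w‖ * ‖η‖ := le_mul_of_one_le_left (norm_nonneg _) hw.le
    nlinarith [sq_nonneg σ]
  -- w2
  have hwn : wn κ (Y1B e κ p w) d2 = W / (1 - d2) := by rw [wn]
  have hVw : ‖W / (1 - d2) - w‖ ≤ 191 / 100 * σ ^ 2 := by
    have e1 : W / (1 - d2) - w = (W - w) + η := by rw [hη]; ring
    rw [e1]
    refine (norm_add_le _ _).trans ?_
    have := h.W1_w
    nlinarith [sq_nonneg σ]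
  obtain ⟨z2, hz2, hz21, hn2⟩ := h.exists_zW hz1 hz1p hVw
  -- law
  have hF := FW_eq (e := e) (κ := κ) (p := p) he (d2 := d2) (z1 := z1) (z2 := z2) h.w1_ne hz1
    (by rw [hz2, hwn]) (by linarith) (by linarith) (small_of he h.haσ (by linarith))
    (small_of he h.haσ hn2) (η := η) rfl rfl rfl (by rw [hz2])
  have hd := w_d1 (κ := κ) he h.hw h.w1_ne hz1 (by linarith) (small_of he h.haσ (by linarith))
  rw [hF]
  set a : ℂ := ((e / 2 : ℝ) : ℂ) with ha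
  set ζ1 : ℂ := (Real.cosh κ : ℂ) - Y1B e κ p w with hζ1
  set d1 : ℂ := d1B e κ p w with hd1
  set a0 := 1 + a * (zt κ p + δ / 2) with ha0
  set a1 := 1 + a * (ζ1 + d1 / 2) with ha1
  set T1 := w * Ez e κ z1 - exp (-p) * Ez e κ p with hT1
  set T2 := exp z2 * Ez e κ z2 - 1 / w * Ez e κ z1 with hT2
  have ha0n : 9963 / 10000 ≤ ‖a0‖ := h.a0_ge
  have ha1n : 9937 / 10000 ≤ ‖a1‖ := h.a1_ge
  have ha00 : a0 ≠ 0 := by intro h0; rw [h0, norm_zero] at ha0n; norm_num at ha0n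
  have ha10 : a1 ≠ 0 := by intro h0; rw [h0, norm_zero] at ha1n; norm_num at ha1n
  have e1 : δ - 2 * w / (a0 * a1) * (η * (1 - a * ζ1 - a * η / 2) + d1 * a1 + T2) =
      T1 / a0 - 2 * w * η * (1 - a * ζ1 - a * η / 2) / (a0 * a1) - 2 * w * T2 / (a0 * a1) := by
    field_simp
    linear_combination (-2 * a1) * hd
  rw [e1]
  have hr := h.ratio1 hηn'
  have t1 : ‖T1 / a0‖ ≤ 411 / 100 * (kE e * σ ^ 5) := by
    rw [norm_div, div_le_iff₀ (by linarith)]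
    have h1 := h.T1_kE hz1p
    have h2 := h.kE5
    nlinarith
  have t2 : ‖2 * w * η * (1 - a * ζ1 - a * η / 2) / (a0 * a1)‖ ≤ 2034 / 1000 * D := by
    rw [norm_div, norm_mul, norm_mul, norm_mul, norm_mul, Complex.norm_ofNat,
      div_le_iff₀ (by nlinarith)]
    have hD0 : 0 ≤ D := le_trans (by positivity) hD
    have h1 : 2 * ‖w‖ * ‖η‖ * ‖1 - a * ζ1 - a * η / 2‖ ≤
        2 * (10014 / 10000 * D) * (10112 / 10000 * ‖a1‖) := by
      have : 2 * ‖w‖ * ‖η‖ = 2 * (‖w‖ * ‖η‖) := by ring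
      rw [this]
      exact mul_le_mul (by linarith) hr (norm_nonneg _) (by positivity)
    refine h1.trans ?_
    have h2 : 2034 / 1000 * D * ((9963 / 10000) * ‖a1‖) ≤ 2034 / 1000 * D * (‖a0‖ * ‖a1‖) := by
      gcongr
    have h3 : 0 ≤ D * ‖a1‖ := by positivity
    nlinarith
  have t3 : ‖2 * w * T2 / (a0 * a1)‖ ≤ 1203 / 100 * (kE e * σ ^ 5) := by
    have hk5 := h.kE5
    have hT2n : ‖T2‖ ≤ 532 / 100 * (kE e * σ ^ 5) := by
      have e2 : T2 = exp z2 * (Ez e κ z2 - Ez e κ z1) + (2 * ζ1 + η + d1) * Ez e κ z1 := by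
        have h1 := Y1_sub (e := e) (κ := κ) (p := p) h.w1_ne
        rw [hT2, ← h1, hz2, hη, hζ1, hd1]
        ring
      rw [e2]
      refine (norm_add_le _ _).trans ?_
      rw [norm_mul, norm_mul]
      have h1 : ‖exp z2‖ ≤ 1139 / 1000 := by
        rw [hz2]
        have h2 := norm_add_le (W / (1 - d2) - w) w
        rw [sub_add_cancel] at h2
        have h3 := h.w1_le'
        have h4 : σ ^ 2 ≤ 1 / 100 := by nlinarith
        linarith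
      have h2 : ‖Ez e κ z2 - Ez e κ z1‖ ≤ 193 / 100 * (kE e * σ ^ 5) := by
        have h3 := Ez_lip he h.hκ.le h.hκσ h.hσ h.haσ (z := z2) (z' := z1) hn2 (by linarith)
        refine h3.trans ?_
        have h4 : 0 ≤ kE e * σ ^ 3 := by have := kE_pos he; positivity
        have := mul_le_mul_of_nonneg_left hz21 h4
        nlinarith
      have h3 : ‖2 * ζ1 + η + d1‖ ≤ 26090 / 10000 * σ := by
        refine norm_add₃_le.trans ?_
        rw [norm_mul, Complex.norm_ofNat]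
        have h4 := h.ζ1_le
        have h5 := h.d1_σ
        have h6 : ‖η‖ ≤ 131 / 10000 * σ := by linarith
        rw [← hd1] at h5
        linarith
      have h4 := h.E_z1 hz1p
      have h5 : ‖exp z2‖ * ‖Ez e κ z2 - Ez e κ z1‖ ≤ 1139 / 1000 * (193 / 100 * (kE e * σ ^ 5)) :=
        mul_le_mul h1 h2 (norm_nonneg _) (by norm_num)
      have h6 : ‖2 * ζ1 + η + d1‖ * ‖Ez e κ z1‖ ≤
          (26090 / 10000 * σ) * (1196 / 1000 * (kE e * σ ^ 4)) :=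
        mul_le_mul h3 h4 (norm_nonneg _) (by positivity)
      have h7 : (26090 / 10000 * σ) * (1196 / 1000 * (kE e * σ ^ 4)) =
        26090 / 10000 * (1196 / 1000) * (kE e * σ ^ 5) := by ring
      rw [h7] at h6
      linarith
    rw [norm_div, norm_mul, norm_mul, norm_mul, Complex.norm_ofNat, div_le_iff₀ (by nlinarith)]
    have h1 : 2 * ‖w‖ * ‖T2‖ ≤ 2 * (1119 / 1000) * (532 / 100 * (kE e * σ ^ 5)) :=
      mul_le_mul (by linarith [h.w1_le']) hT2n (norm_nonneg _) (by norm_num)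
    have h2 : (9963 / 10000 : ℝ) * (9937 / 10000) ≤ ‖a0‖ * ‖a1‖ := by gcongr
    nlinarith [mul_le_mul_of_nonneg_left h2 hk5]
  have h9 := norm_sub_le (T1 / a0 - 2 * w * η * (1 - a * ζ1 - a * η / 2) / (a0 * a1))
    (2 * w * T2 / (a0 * a1))
  have h10 := norm_sub_le (T1 / a0) (2 * w * η * (1 - a * ζ1 - a * η / 2) / (a0 * a1))
  have hk5 := h.kE5
  linarith

end Ctx

end Pool.Agent.helper63.EQC
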