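import Pool.Agent.helper63.EQC.CornerK

/-!
# Assembly for small `κ`: the neutral corner is closed
-/

namespace Pool.Agent.helper63.EQC

open Complex Pool.Agent.helper31.EQ.W

open Pool.Agent.helper4.EQW (KK rT nx gK v2 G1 f0 LT OT)

variable {e κ θ θt : ℝ}

/-- `σ` of an imaginary start parameter -/
noncomputable def σi (κ y : ℝ) : ℝ := Real.sqrt (2 * (Real.cosh κ - Real.cos y))

/-- `σ` of a real start parameter -/
noncomputable def σr (κ x : ℝ) : ℝ := Real.sqrt (2 * (Real.cosh κ - Real.cosh x))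

theorem wdataB_of_small (he : 1 < e) (he4 : e ≤ 4) (hκ : 0 < κ) {s : ℝ} (hs0 : 0 < s)
    (hs : s ≤ 1 / 10) (has : e / 2 * s ≤ 1 / 10) (hκs : 2 * (Real.cosh κ - 1) ≤ s ^ 2)
    (T : Tail e κ θt) (hTr : T.r = rT e κ) (hT : TailC e κ (KK e κ) T.Ω (rT e κ))
    (hθt0 : 0 ≤ θt) (hθt : θt < 1) (hθ : θ < 1) (hθ' : 81 / 100 ≤ θ) (H : HeadFn) {η : ℝ}
    (hη : 0 < η) (hη3 : η ≤ 3)
    (hsmall : 5 / 2 < e → ∀ Y ∈ T.Ω, ‖v2 κ (nx κ Y)‖ ≤ 11 / 1000 → ∀ x : ℕ → ℂ,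
      TFix e κ T.r Y x → ‖x 0‖ ≤ 3 / 5)
    (HBi : ∀ y : ℝ, 0 ≤ y → y ≤ η → 2 * (Real.cosh κ - Real.cos y) ≤ s ^ 2 →
      HB e κ (σi κ y) H ((y : ℂ) * I))
    (HBr : ∀ x : ℝ, |x| ≤ 1 / 8 * κ ^ 2 → HB e κ (σr κ x) H (x : ℂ) ∧
      ‖H.r1 (x : ℂ)‖ ≤ 675 / 1000 * (2 * (Real.cosh κ - Real.cosh x)))
    (Himag : ∀ y : ℝ, 0 ≤ y → y ≤ η → s ^ 2 < 2 * (Real.cosh κ - Real.cos y) →
      HP e κ θ T.Ω T.r H ((y : ℂ) * I))
    (Htest : ∀ x0 : ℂ, Sol e κ T.r H ((η : ℂ) * I) x0 →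
      (exp ((η : ℂ) * I / 2) *
        d0B e κ ((η : ℂ) * I) (H.c1 ((η : ℂ) * I) + H.r1 ((η : ℂ) * I) * x0)).re ≠ 0) :
    Nonempty (WDataB e κ) := by
  have he0 : 0 < e := by linarith
  have hκ2 : κ ≤ 1 / 10 := by
    have h1 := cosh_ge κ
    nlinarith
  have hC1 : 1 < Real.cosh κ := Real.one_lt_cosh.2 hκ.ne'
  have hs2 : s ^ 2 ≤ 1 / 100 := by nlinarith
  -- real side data
  have hreal : ∀ x : ℝ, |x| ≤ 1 / 8 * κ ^ 2 → 0 < σr κ x ∧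
      σr κ x ^ 2 = 2 * (Real.cosh κ - Real.cosh x) ∧ σr κ x ≤ 1 / 10 ∧ e / 2 * σr κ x ≤ 1 / 10 := by
    intro x hx
    have h1 : |x| < |κ| := by rw [abs_of_pos hκ]; nlinarith
    have h2 := Real.cosh_lt_cosh.2 h1
    have h3 := Real.one_le_cosh x
    have h4 : 0 < 2 * (Real.cosh κ - Real.cosh x) := by linarith
    have h5 : σr κ x ^ 2 = 2 * (Real.cosh κ - Real.cosh x) := Real.sq_sqrt h4.le
    have h6 : 0 < σr κ x := Real.sqrt_pos.2 h4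
    have h7 : σr κ x ≤ s := by
      refine le_of_sq_le_sq ?_ hs0.le
      rw [h5]; linarith
    exact ⟨h6, h5, h7.trans hs, (mul_le_mul_of_nonneg_left h7 (by positivity)).trans has⟩
  have hδ : 0 < 1 / 8 * κ ^ 2 := by positivity
  have hKσ : ∀ σ : ℝ, 0 < σ → κ ≤ 101 / 100 * σ → σ ≤ 1 / 10 → e / 2 * σ ≤ 1 / 10 →
      KK e κ * σ ≤ 11 / 100 := by
    intro σ h1 h2 h3 h4
    have := KKσ he0 hκ h2 h1 h3 h4
    linarith
  -- deviation of node 0 at solutions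
  have hd0 : ∀ x : ℝ, |x| ≤ 1 / 8 * κ ^ 2 → ∀ x0 : ℂ, Sol e κ T.r H (x : ℂ) x0 →
      ‖d0B e κ (x : ℂ) (H.c1 (x : ℂ) + H.r1 (x : ℂ) * x0)‖ < 1 - Real.exp (-(1 / 8 * κ ^ 2)) := by
    intro x hx x0 hsol
    obtain ⟨g1, g2, g3, g4⟩ := hreal x hx
    obtain ⟨hb, hr⟩ := HBr x hx
    obtain ⟨h, hr1, hr2, hr3⟩ := crn_real he hκ (by linarith) hx g1 g2 g3 g4
    obtain ⟨hx0, y, hy, hF⟩ := hsol
    have hK := hKσ _ g1 h.hκσ g3 g4
    rw [hTr, rT_eq] at hF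
    by_cases h52 : e ≤ 5 / 2
    · exact d0_sol (by linarith) g2 h hb KK_nn hK hx0 (hy.1 0) le_rfl hF
        (hnum_one he0 h52 hκ h.hκσ g1 g3 g4)
    · push Not at h52
      have hp : HP e κ (81 / 100) T.Ω (rT e κ) H (x : ℂ) :=
        hp_real he hκ (by linarith) hx g1 g2 g3 g4 hT hK hb (by rw [g2]; exact hr)
      have hm := hp.mem x0 hx0
      have c := hb.ctx h hx0
      have hv : ‖v2 κ (nx κ (Y1B e κ (x : ℂ) (H.c1 (x : ℂ) + H.r1 (x : ℂ) * x0)))‖ ≤ 11 / 1000 := by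
        refine (c.v2_small rfl).trans ?_
        nlinarith
      exact d0_sol (by linarith) g2 h hb KK_nn hK hx0 (hsmall h52 _ hm hv y hy) (by norm_num) hF
        (hnum_small he0 he4 hκ h.hκσ g1 g3 g4)
  refine wdataB_of_head he T hθt0 hθt hθ H hη hδ ?_ ?_ ?_ ?_ ?_ Htest
  · intro y hy0 hy
    rcases lt_or_ge (s ^ 2) (2 * (Real.cosh κ - Real.cos y)) with h | h
    · exact Himag y hy0 hy h
    · have hcos := Real.cos_le_one y
      have h4 : 0 < 2 * (Real.cosh κ - Real.cos y) := by linarith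
      have h5 : σi κ y ^ 2 = 2 * (Real.cosh κ - Real.cos y) := Real.sq_sqrt h4.le
      have h6 : 0 < σi κ y := Real.sqrt_pos.2 h4
      have h7 : σi κ y ≤ s := by
        refine le_of_sq_le_sq ?_ hs0.le
        rw [h5]; exact h
      have h8 : e / 2 * σi κ y ≤ 1 / 10 := (mul_le_mul_of_nonneg_left h7 (by positivity)).trans has
      have h9 : |y| ≤ 3 := by rw [abs_of_nonneg hy0]; linarith
      have hc := (crn_imag he hκ h9 h6 h5 (h7.trans hs) h8).1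
      rw [hTr]
      exact (hp_imag he hκ h9 h6 h5 (h7.trans hs) h8 hT
        (hKσ _ h6 hc.hκσ (h7.trans hs) h8) (HBi y hy0 hy h)).mono hθ'
  · intro x hx
    obtain ⟨g1, g2, g3, g4⟩ := hreal x hx
    obtain ⟨hb, hr⟩ := HBr x hx
    have h := (crn_real he hκ (by linarith) hx g1 g2 g3 g4).1
    rw [hTr]
    exact (hp_real he hκ (by linarith) hx g1 g2 g3 g4 hT (hKσ _ g1 h.hκσ g3 g4) hb
      (by rw [g2]; exact hr)).mono hθ'
  · intro x hx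
    obtain ⟨g1, g2, g3, g4⟩ := hreal x hx
    obtain ⟨hb, hr⟩ := HBr x hx
    have h := (crn_real he hκ (by linarith) hx g1 g2 g3 g4).1
    exact rs_real (by linarith) hx g2 h hb
  · intro x0 hsol
    have h1 := hd0 (1 / 8 * κ ^ 2) (by rw [abs_of_pos hδ]) x0 hsol
    have h2 := (le_abs_self _).trans (Complex.abs_re_le_norm
      (d0B e κ ((1 / 8 * κ ^ 2 : ℝ) : ℂ) (H.c1 ((1 / 8 * κ ^ 2 : ℝ) : ℂ) +
        H.r1 ((1 / 8 * κ ^ 2 : ℝ) : ℂ) * x0)))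
    linarith
  · intro x0 hsol
    have h1 := hd0 (-(1 / 8 * κ ^ 2)) (by rw [abs_neg, abs_of_pos hδ]) x0 hsol
    have h2 := (neg_abs_le _).trans' (neg_le_neg (Complex.abs_re_le_norm
      (d0B e κ ((-(1 / 8 * κ ^ 2) : ℝ) : ℂ) (H.c1 ((-(1 / 8 * κ ^ 2) : ℝ) : ℂ) +
        H.r1 ((-(1 / 8 * κ ^ 2) : ℝ) : ℂ) * x0))))
    have h3 : 1 - Real.exp (-(1 / 8 * κ ^ 2)) ≤ Real.exp (1 / 8 * κ ^ 2) - 1 := by
      have h4 := Real.add_one_le_exp (1 / 8 * κ ^ 2)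
      have h5 := Real.add_one_le_exp (-(1 / 8 * κ ^ 2))
      linarith
    linarith

end Pool.Agent.helper63.EQC
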